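import Pool.Agent.PFC.DefsP2
import Pool.Agent.PFD.DefsD6

/-!
# Squad PFE: part (0) for a family `NN` of subgroups (helper79)

`NN` is a family of subgroups of `V` which is closed upwards and stable under `E`, and no nontrivial
element of `E` centralises a member of `NN`.  The definitions `Ctf`, `PIn`, `PMid` (`PFC/DefsP2.lean`)
and `TX` (`PFD/DefsD6.lean`) are the case `NN Q ↔ ¬ Q ≤ W`.
-/

open scoped BigOperators

noncomputable section

namespace Pool.Agent.PFE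

open Pool.Agent.PFC Pool.Agent.PFD

/-- The groups and the family. -/
structure Ctn {V E : Type} [CommGroup V] [Group E] (ℓ : ℕ) (φ : E →* MulAut V)
    (NN : Subgroup V → Prop) : Prop where
  pr : ℓ.Prime
  pg : IsPGroup ℓ V
  cop : ¬ ℓ ∣ Nat.card E
  top : NN ⊤
  bot : ¬ NN ⊥
  up : ∀ Q S : Subgroup V, NN Q → Q ≤ S → NN S
  st : ∀ (e : E) (Q : Subgroup V), NN Q → NN (Q.map (φ e).toMonoidHom)
  cf : ∀ Q : Subgroup V, NN Q → ∀ e : E, (∀ u ∈ Q, φ e u = u) → e = 1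

theorem Ctn.fa {V E : Type} [CommGroup V] [Group E] {ℓ : ℕ} {φ : E →* MulAut V}
    {NN : Subgroup V → Prop} (h : Ctn ℓ φ NN) (e : E) (he : ∀ u, φ e u = u) : e = 1 :=
  h.cf ⊤ h.top e (fun u _ => he u)

theorem Ctn.nt {V E : Type} [CommGroup V] [Group E] {ℓ : ℕ} {φ : E →* MulAut V}
    {NN : Subgroup V → Prop} (h : Ctn ℓ φ NN) : ∃ u : V, u ≠ 1 := by
  by_contra h1
  apply h.bot
  have h2 : (⊥ : Subgroup V) = ⊤ := by
    apply le_antisymm bot_le
    intro u _
    rw [Subgroup.mem_bot]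
    by_contra h3
    exact h1 ⟨u, h3⟩
  rw [h2]
  exact h.top

theorem ctn_of_ctf {V E : Type} [CommGroup V] [Group E] {ℓ : ℕ} {φ : E →* MulAut V}
    {W : Subgroup V} (h : Ctf ℓ φ W) : Ctn ℓ φ (fun Q => ¬ Q ≤ W) := by
  refine ⟨h.pr, h.pg, h.cop, ?_, ?_, ?_, ?_, ?_⟩
  · intro h1
    obtain ⟨u, hu⟩ := h.nt
    exact hu (h1 (Subgroup.mem_top u))
  · intro h1
    exact h1 bot_le
  · intro Q S hQ hQS hS
    exact hQ (hQS.trans hS)
  · intro e Q hQ h1
    apply hQ
    intro u hu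
    have h2 : φ e u ∈ W := h1 (Subgroup.mem_map_of_mem _ hu)
    have h3 : φ e⁻¹ (φ e u) = u := by
      rw [← MulAut.mul_apply, ← map_mul, inv_mul_cancel, map_one, MulAut.one_apply]
    rw [← h3]
    exact h.stab _ _ h2
  · intro Q hQ e he
    obtain ⟨u, hu, hu1⟩ : ∃ u ∈ Q, u ∉ W := SetLike.not_le_iff_exists.1 hQ
    exact (h.free e u (he u hu)).resolve_right hu1

section inp

variable (F : Type) {V E A : Type} [Field F] [CommGroup V] [Group E] [Ring A] [Algebra F A]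

/-- The input of part (0): the local conditions are for the subgroups in `NN`. -/
structure PInN [Fintype V] (φ : E →* MulAut V) (NN : Subgroup V → Prop) (α : V →* A) :
    Prop where
  fin : FiniteDimensional F A
  frm : ∃ lam, Frm F α lam
  loc : IsLocalRing (Cz F α ⊤)
  ps : PS (fun K => ∃ (e : E) (R : Subgroup V), K = tw (φ e).toMonoidHom R) (bi F α)
  top : Tpv F α
  lcq : ∀ Q : Subgroup V, NN Q → ∃ n π, Lcq F α Q n π
  uni : ∀ e : E, ∃ y y' : A, y * y' = 1 ∧ y' * y = 1 ∧ ∀ u, y * α u = α (φ e u) * y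

/-- The output of part (0): `A(R) = F V` for all `R` in `NN`. -/
structure PMidN [Fintype V] (φ : E →* MulAut V) (NN : Subgroup V → Prop) (α : V →* A) :
    Prop where
  fin : FiniteDimensional F A
  frm : ∃ lam, Frm F α lam
  loc : IsLocalRing (Cz F α ⊤)
  one : (1 : A) ∉ BK (cj F α) ⊤
  ps : PS (fun K => ∃ (e : E) (R : Subgroup V), K = tw (φ e).toMonoidHom R) (bi F α)
  spn : ∀ R : Subgroup V, NN R → ∀ a ∈ Fx (cj F α) R, ∃ c : V → F,
    a - ∑ u, c u • α u ∈ BK (cj F α) R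
  uni : ∀ e : E, ∃ y y' : A, y * y' = 1 ∧ y' * y = 1 ∧ ∀ u, y * α u = α (φ e u) * y

end inp

/-- Part (0) for a family, with the number of simple modules and the dimension of the centre. -/
def PmzNStmt : Prop :=
  ∀ (F V E A : Type) [Field F] [IsAlgClosed F] [CommGroup V] [Fintype V] [Group E] [Fintype E]
    [Ring A] [Algebra F A] (ℓ : ℕ) [CharP F ℓ] (φ : E →* MulAut V) (NN : Subgroup V → Prop)
    (α : V →* A), Ctn ℓ φ NN → PInN F φ NN α →
    ∃ (A' : Type) (_ : Ring A') (_ : Algebra F A') (α' : V →* A'),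
      PMidN F φ NN α' ∧ ls F A' = ls F A ∧ Module.finrank F (Subalgebra.center F A') =
        Module.finrank F (Subalgebra.center F A)

/-- The twisted extension for a family `NN` (`TX` of `PFD/DefsD6.lean` with the `V × V`-frame of the
complement instead of the `W`-relative form).  `sepV`: `A` is relatively separable over `F V`. -/
structure TXN {F V E : Type} (A : Type) [Field F] [CommGroup V] [Fintype V] [Group E]
    [Fintype E] [Ring A] [Algebra F A] (φ : E →* MulAut V) (NN : Subgroup V → Prop)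
    (z : Coc F E) where
  j : CP (D0 φ z) →ₐ[F] A
  pr : A →ₗ[F] CP (D0 φ z)
  pr_j : ∀ γ, pr (j γ) = γ
  pr_l : ∀ γ x, pr (j γ * x) = γ * pr x
  pr_r : ∀ x γ, pr (x * j γ) = pr x * γ
  fin : FiniteDimensional F A
  mu : A →ₗ[F] F
  mus : ∀ a b, mu (a * b) = mu (b * a)
  mun : ∀ a, (∀ b, mu (a * b) = 0) → a = 0
  orth : ∀ x, mu (j (pr x)) = mu x
  K : Type
  fK : Fintype K
  sep : Pool.Agent.PFC.B1.Sep (CP (D0 φ z)) A K j.toRingHom
  sepV : Pool.Agent.PFC.B1.Sep (MonoidAlgebra F V) A (K × E)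
    (j.comp (CP.iS (D0 φ z))).toRingHom
  N : Type
  fN : Fintype N
  x : N → A
  y : N → A
  e1 : ∀ a, ∑ k, x k * j (pr (y k * a)) = a
  e2 : ∀ a, ∑ k, j (pr (a * x k)) * y k = a
  unt : ∀ w : CP (D0 φ z), (∀ γ, w * γ = γ * w) → IsUnit w → IsUnit (∑ k, x k * j w * y k)
  Om : Type
  fOm : Fintype Om
  aOm : MulAction (V × V) Om
  b : Om → A
  d : Om → (A →ₗ[F] F)
  b_eq : ∀ (w : V × V) (ω : Om), b (w • ω) = j (vv φ z w.1) * b ω * j (vv φ z w.2⁻¹)
  d_eq : ∀ (w : V × V) (ω : Om) (a : A),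
    d (w • ω) (j (vv φ z w.1) * a * j (vv φ z w.2⁻¹)) = d ω a
  sum : ∀ a : A, ∑ ω, d ω a • b ω = a - j (pr a)
  st : ∀ ω : Om, ∃ (e : E) (R : Subgroup V), ¬ NN R ∧
    MulAction.stabilizer (V × V) ω = tw (φ e).toMonoidHom R

/-- TOP: from `PMidN` to the twisted extension. -/
def TxnStmt : Prop :=
  ∀ (F V E A : Type) [Field F] [IsAlgClosed F] [CommGroup V] [Fintype V] [Group E] [Fintype E]
    [Ring A] [Algebra F A] (ℓ : ℕ) [CharP F ℓ] (φ : E →* MulAut V) (NN : Subgroup V → Prop)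
    (α : V →* A), Ctn ℓ φ NN → PMidN F φ NN α →
    ∃ (z : Coc F E) (T : TXN A φ NN z), ∀ u, T.j (vv φ z u) = α u

end Pool.Agent.PFE
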