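import Pool.Agent.PFE.DefsE1
import Pool.Agent.PFD.StmtsD1

/-!
# Squad PFE (theorem (R)), part E1: statements (helper3)

Result of this part (TPE): `dim Z(A) = dim Z(S) + (l-1)/|X| dim Z(S1)`, over a field of
characteristic `0`.  Conventions: `c = χ x`, `T_c = Tx y l c`, `λ = D.d.lam`, `e r`, `e' r` = `D.e r`,
`D.e' r` (`r` in `Ω ⊕ Ω' × Fin l`), `N_x = Nx y χ x`, `J_x = Jx y l χ x`.  A row is a theorem
`Pool.Agent.PFE.HNN.xxx : XxxStmt` with the statements of the column `uses` as hypotheses; any row may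
take any other row as a hypothesis.
-/

open scoped BigOperators

noncomputable section

namespace Pool.Agent.PFE

open Pool.Agent.PFC.B1 (FS Split)
open Pool.Agent.PFD (RF FotStmt)

/-! ## Rules -/

/-- TXR: rules for `N_x` and `T_c`.

Proof.  `n y = c' y n` with `c' = c ^ (l-2)`.. better: for `n ∈ N_x`, `y^j n = c^j n y^j`, hence
`n y^j = c^(l-1-j) y^j n` for `j < l` (multiply by `c^(l-1-j)`, `c^(l-1) = 1`).
(1) `y T_c(a) = ∑_(j<l-1) c^(l-1-j) y^(j+1) a y^(l-1-j)` (the term `j = l-1` has `y^l`),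
`c T_c(a) y = ∑_(j≥1) c^(l-j) y^j a y^(l-j)` (the term `j = 0` has `y^l`): the same sum.
(2) `n T_c'(a) = ∑ c'^(l-1-j) n y^j a y^(l-1-j) = ∑ (c c')^(l-1-j) y^j n a y^(l-1-j)`.
(3) `T_c'(a) n = ∑ c'^(l-1-j) y^j a y^(l-1-j) n`, `y^k n = c^k n y^k` with `k = l-1-j`.
(4) by definition. (5) `n ∈ N_x'`, `x ≠ x'`, `ρ = χ(x x'⁻¹)`: `n y^k = χ(x'⁻¹)^k y^k n`, so
`T_c(n) = ∑_(k<l) ρ^k y^(l-1) n`; `(1-ρ) ∑_(k<l-1) ρ^k = 1 - ρ^(l-1) = 0` and `1 - ρ` is a unit, so the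
sum is `ρ^(l-1) = 1`. (6) the same with `ρ = 1`. -/
def TxrStmt : Prop :=
  ∀ (R A X : Type) [CommRing R] [Ring A] [Algebra R A] [Group X] (y : A) (l : ℕ) (χ : X →* R),
    1 ≤ l → y ^ l = 0 → (∀ x, χ x ^ (l - 1) = 1) →
    (∀ x a, Tx y l (χ x) a ∈ Nx y χ x) ∧
    (∀ x x' n a, n ∈ Nx y χ x → n * Tx y l (χ x') a = Tx y l (χ (x * x')) (n * a)) ∧
    (∀ x x' n a, n ∈ Nx y χ x → Tx y l (χ x') a * n = Tx y l (χ (x' * x)) (a * n)) ∧
    (∀ (c : R) (a : A), y * Tx y l c a = Tx y l c (y * a) ∧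
      Tx y l c a * y = Tx y l c (a * y)) ∧
    (∀ x n, n ∈ Nx y χ x → y * n ∈ Nx y χ x ∧ n * y ∈ Nx y χ x ∧
      ∀ j, y ^ j * n = χ x ^ j • (n * y ^ j)) ∧
    (∀ x x' n, IsUnit (1 - χ (x * x'⁻¹)) → n ∈ Nx y χ x' → Tx y l (χ x) n = y ^ (l - 1) * n) ∧
    (∀ x n, n ∈ Nx y χ x → Tx y l (χ x) n = (l : R) • (y ^ (l - 1) * n))

/-- TXA: `Tx` is linear, and `J_x` is an ideal.

Proof.  (2) The set of the sums `T_c(a) + y n` is a submodule.  (3), (4) TXR; `n (y n') = χ(x)^(l-2)..`: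
`n y = χ(x⁻¹) y n`, so `n y n' = χ(x⁻¹) y (n n')` is `y` times an element of `N_(x x')`. -/
def TxaStmt : Prop :=
  ∀ (R A X : Type) [CommRing R] [Ring A] [Algebra R A] [Group X] (y : A) (l : ℕ) (χ : X →* R),
    1 ≤ l → y ^ l = 0 → (∀ x, χ x ^ (l - 1) = 1) →
    (∀ (c : R) (a b : A), Tx y l c (a + b) = Tx y l c a + Tx y l c b) ∧
    (∀ (c r : R) (a : A), Tx y l c (r • a) = r • Tx y l c a) ∧
    (∀ x b, b ∈ Jx y l χ x ↔ ∃ a, ∃ n ∈ Nx y χ x, b = Tx y l (χ x) a + y * n) ∧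
    (∀ x b, b ∈ Jx y l χ x → b ∈ Nx y χ x) ∧
    (∀ x x' n b, n ∈ Nx y χ x → b ∈ Jx y l χ x' → n * b ∈ Jx y l χ (x * x') ∧
      b * n ∈ Jx y l χ (x' * x))

/-- NFR: `N_x` in terms of the frame.

Proof.  (1) For `k ≥ 1`, `a ∈ N_x`, `c_o = χ(deg o)`:
`λ(g'_o y^k a) = λ(g'_o y^(k-1) (y a)) = c λ(g'_o y^(k-1) a y) = c λ(y g'_o y^(k-1) a)
= c c_o⁻¹ λ(g'_o y^k a)` (`c_o y g'_o = g'_o y`); `1 - χ(x (deg o)⁻¹)` is a unit.
(2) In `fr` for `a` the terms of `o` with `deg o ≠ x` are `λ(g'_o a) y^(l-1) g_o = T_c(λ(g'_o a) g_o)`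
(TXR (6)).  Free part: `a y^r = c^(-r) y^r a`, `c^(-(l-1-k)) = c^k`, so
`λ(h' y^(l-1-i) a y^(l-1-k)) = c^k λ(h' y^(2l-2-i-k) a)`, which is `0` unless `i + k ≥ l-1`; with
`s = i + k - (l-1)` the sum is `∑_s λ(h' y^(l-1-s) a) ∑_(k=s)^(l-1) c^k y^(l-1+s-k) h y^k` and the inner
sum is `c^s T_c(h y^s)` (`T_c(h) y^s = ∑_j c^(l-1-j) y^j h y^(l-1-j+s)`, terms with `j < s` vanish,
put `j = l-1+s-k`).
(3) The terms with `i ≥ 1` in (2) are in `y N_x`. -/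
def NfrStmt : Prop :=
  ∀ (R A X J Ω Ω' : Type) [CommRing R] [Ring A] [Algebra R A] [Group X] [DecidableEq X]
    [Fintype J] [Fintype Ω] [Fintype Ω'] (y : A) (l : ℕ) (χ : X →* R)
    (D : Yd R A X J Ω Ω' y l χ),
    (∀ x a, a ∈ Nx y χ x → ∀ o k, D.deg o ≠ x → 1 ≤ k → D.d.lam (D.g' o * y ^ k * a) = 0) ∧
    (∀ x a, a ∈ Nx y χ x → ∃ b, a = (∑ o, if D.deg o = x then ∑ i ∈ Finset.range l,
      D.d.lam (D.g' o * y ^ (l - 1 - i) * a) • (y ^ i * D.g o) else 0) + Tx y l (χ x) b) ∧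
    ∀ x a, a ∈ Nx y χ x → (a - ∑ o, if D.deg o = x then
      D.d.lam (D.g' o * y ^ (l - 1) * a) • D.g o else 0) ∈ Jx y l χ x

/-- STF: the form and the Frobenius system of the local algebra (over any `R`).

Proof.  `τ(p_x a) = λ(y^(l-1) a)`: well defined, since `λ(y^(l-1) y n) = 0`,
`λ(y^(l-1) T_c(b)) = ∑ c^(l-1-j) λ(y^(l-1+j) b y^(l-1-j)) = λ(y^(2l-2) b) = 0` (`l ≥ 2`); it is `0` for
`x ≠ 1`: `λ(y^(l-1) a) = c λ(y^(l-2) a y) = c λ(y^(l-1) a)`.  Define `τ` on `S` by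
`τ s = ∑_x τ(c_x s)`, each `c_x s = p_x a`.  Symmetric: `λ(y^(l-1) a b) = λ(b y^(l-1) a) =
λ(y^(l-1) b a)` (`c'^(l-1) = 1`).  `b o = p g_o`, `b' o = p g'_o`:
`τ(b'_o p_x a) = λ(y^(l-1) g'_o a) = λ(g'_o y^(l-1) a)` (`g'_o` has degree `(deg o)⁻¹`), which is `0` for
`deg o ≠ x` (NFR (1)); so `∑ τ(b'_o s) b_o = s` by NFR (3), i.e. `h1`.  `h2`: for
`z = ∑ τ(s b_o) b'_o - s` one has `τ(z b) = τ(s ∑ τ(b'_o b) b_o) - τ(s b) = 0` for all `b`, so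
`z = ∑ τ(b'_o z) b_o = 0`. -/
def StfStmt : Prop :=
  ∀ (R A X S J Ω Ω' : Type) [CommRing R] [Ring A] [Algebra R A] [Group X] [Fintype X]
    [Ring S] [Algebra R S] [Fintype J] [Fintype Ω] [Fintype Ω'] (y : A) (l : ℕ) (χ : X →* R)
    (D : Yd R A X J Ω Ω' y l χ) (L : LS R A X S y l χ),
    ∃ (f : FS R S Ω) (hg' : ∀ o, D.g' o ∈ Nx y χ (D.deg o)⁻¹),
      (∀ a b, f.lam (a * b) = f.lam (b * a)) ∧ (∀ x s, x ≠ 1 → f.lam (L.c x s) = 0) ∧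
      (∀ o, f.b o = L.p (D.deg o) ⟨D.g o, D.gy o⟩) ∧
      (∀ o, f.b' o = L.p (D.deg o)⁻¹ ⟨D.g' o, hg' o⟩) ∧
      ∀ x a, f.lam (L.p x a) = D.d.lam (y ^ (l - 1) * (a : A))

/-- RTK: the relative Frobenius system over `R[y]` and the relative trace.

Proof.  (1) `∑_r e_r pi(e'_r a)`: for `r = o`: `g_o y^i = c_o^(-i) y^i g_o`,
`λ(y^(l-1-i) g'_o a) = c_o^(-(l-1-i)) λ(g'_o y^(l-1-i) a) = c_o^i λ(..)`: the term is
`λ(g'_o y^(l-1-i) a) y^i g_o`; for `r = (o, i)`: `y^i h_o λ(y^(l-1-k) h'_o y^(l-1-i) a) y^k`; it is `fr`.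
(2) `λ(b ∑_r pi(a e_r) e'_r) = ∑_r ∑_i λ(y^(l-1-i) a e_r) λ(b y^i e'_r) =
λ(a ∑_r e_r pi(e'_r b)) = λ(a b) = λ(b a)` for all `b`, and `λ` is nondegenerate.
(3) `pi(a)` commutes with `a'` if `y` does.  `b RT(a) = ∑_r b e_r a e'_r = ∑_(r,r') e_r' pi(e'_r' b e_r)
a e'_r = ∑ e_r' a pi(e'_r' b e_r) e'_r = ∑_r' e_r' a e'_r' b`.
(4) clear.  (5) `a = ∑_(r,i) λ(y^(l-1-i) e'_r a) e_r y^i` by (1), so `e_r y^i`, `y^(l-1-i) e'_r` are dual
families for `λ` and `TA(a) = ∑_(r,i) e_r y^i a y^(l-1-i) e'_r = RT(T_1(a))`. -/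
def RtkStmt : Prop :=
  ∀ (R A X J Ω Ω' : Type) [CommRing R] [Ring A] [Algebra R A] [Group X] [Fintype J]
    [Fintype Ω] [Fintype Ω'] (y : A) (l : ℕ) (χ : X →* R) (D : Yd R A X J Ω Ω' y l χ),
    (∀ a, ∑ r, D.e r * D.pi (D.e' r * a) = a) ∧ (∀ a, ∑ r, D.pi (a * D.e r) * D.e' r = a) ∧
    (∀ a, y * a = a * y → ∀ b, b * D.RT a = D.RT a * b) ∧
    (∀ z a, (∀ b, z * b = b * z) → D.RT (z * a) = z * D.RT a) ∧
    (∀ a, D.RT (Tx y l (1 : R) a) = D.TA a) ∧ (∀ a, y * D.pi a = D.pi a * y) ∧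
    (∀ a, D.pi (y * a) = y * D.pi a) ∧ ∀ a, D.pi (a * y) = D.pi a * y

/-- SFE: the Frobenius system with a separating element over a field.

Proof.  STF; `w = p_1 w`: `1 = RT w = ∑_o g_o w g'_o + T_1(∑_o h_o w h'_o)` (`w` commutes with `y`);
apply `p_1`: `1 = ∑ b_o w b'_o` (`g_o w g'_o ∈ N_1`). -/
def SfeStmt : Prop :=
  ∀ (K A X S J Ω Ω' : Type) [Field K] [Ring A] [Algebra K A] [Group X] [Fintype X]
    [Ring S] [Algebra K S] [Fintype J] [Fintype Ω] [Fintype Ω'] (y : A) (l : ℕ) (χ : X →* K)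
    (D : Yk K A X J Ω Ω' y l χ) (L : LS K A X S y l χ), Nonempty (SFd D L)

/-! ## The idempotent -/

/-- IDF: the idempotent `f`.

Proof.  `N` = the centraliser of `y`, `I = T_1(A)`, a two-sided ideal of `N` (TXR with `x = 1`).
Choose an idempotent `e ∈ I` with `dim (e A)` maximal, `f = 1 - e`.  Every `x ∈ f I f` is nilpotent:
otherwise there is a polynomial without constant term with `e' = q(x) ≠ 0` idempotent (Fitting;
e.g. from `x^k = x^(2k) q(x)`), `e' ∈ f I f`, `e + e' ∈ I` is an idempotent and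
`dim ((e+e')A) > dim (e A)`.  The left ideal `I f` of `N` is nil: `(i f)^(k+1) = i (f i f)^k`.  `N` is
Artinian, so a nil left ideal is contained in the Jacobson radical, which is nilpotent: every product
of `M` elements of `f I f ⊂ I f` is `0`. -/
def IdfStmt : Prop :=
  ∀ (K A : Type) [Field K] [Ring A] [Algebra K A] [Module.Finite K A] (y : A) (l : ℕ),
    1 ≤ l → y ^ l = 0 → ∃ f : A, f * f = f ∧ y * f = f * y ∧ (∃ a, 1 - f = Tx y l (1 : K) a) ∧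
      ∃ M : ℕ, ∀ a : ℕ → A,
        ((List.range M).map fun i => f * Tx y l (1 : K) (a i) * f).prod = 0

/-- CRN: reduction to the corner `A' = f A f` (with the same local algebra `S`).

Proof.  `A'` = the corner with unit `f`, `κ` the inclusion, `y' = f y = y f`.  Frobenius system
`λ ∘ κ`, `f b_p f`, `f b'_p f`; frame `f g_o f`, `f g'_o f`, `f h_o f`, `f h'_o f` (for `a = f a f` multiply
`fr` by `f` on both sides, `λ(g' y^k f a f) = λ((f g' f) y^k a)`).  `RT'(x) = f RT(x)` for `x ∈ f A f`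
commuting with `y`.  `w = f w f + ` elements of the ideal `T_1(A)` of `N_1` (`1 - f = T_1(a)`), so
`RT(f w f) = 1 - TA(b)`, `TA(b)` central and nilpotent, `ζ` its central inverse, `w' = ζ f w f`.
`TA'(a) = f TA(a)` nilpotent.  `p'_x a = p_x(κ a)`: kernel: `κ a = f (T_c(b) + y n) f = T_c(f b f) +
y (f n f)`; surjective: `a - f a f ∈ J_x` (`1 - f ∈ J_1`). -/
def CrnStmt : Prop :=
  ∀ (K A X S J Ω Ω' : Type) [Field K] [Ring A] [Algebra K A] [Module.Finite K A] [Group X]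
    [Fintype X] [Ring S] [Algebra K S] [Fintype J] [Fintype Ω] [Fintype Ω'] (y : A) (l : ℕ)
    (χ : X →* K) (D : Yk K A X J Ω Ω' y l χ) (L : LS K A X S y l χ) (f : A), f * f = f →
    y * f = f * y → (∃ a, 1 - f = Tx y l (1 : K) a) →
    ∃ (A' : Type) (_ : Ring A') (_ : Algebra K A') (_ : Module.Finite K A') (κ : A' →ₗ[K] A)
      (y' : A') (_ : Yk K A' X J Ω Ω' y' l χ) (L' : LS K A' X S y' l χ),
      Function.Injective κ ∧ (∀ a b, κ (a * b) = κ a * κ b) ∧ κ 1 = f ∧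
      (∀ a, f * a * f = a → ∃ b, κ b = a) ∧ κ y' = y * f ∧ L'.toGS = L.toGS

/-- CZF: the centre of the corner.

Proof.  `RT(f w f)` is a unit (see CRN), so `1 = ∑_k a_k f b_k`.  `z ↦ z f` is a linear map from the
centre of `A` to the centre of the corner; injective: `z = ∑ a_k z f b_k`; surjective: for `z'` in the
centre of `f A f` put `z = ∑ a_k z' b_k`:
`a z = ∑_(k,l) a_l (f b_l a a_k f) z' b_k = ∑ a_l z' (f b_l a a_k f) b_k = z a` and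
`z f = ∑ a_k z' (f b_k f) = ∑ a_k (f b_k f) z' = z'`. -/
def CzfStmt : Prop :=
  ∀ (K A X J Ω Ω' A' : Type) [Field K] [Ring A] [Algebra K A] [Module.Finite K A] [Group X]
    [Fintype J] [Fintype Ω] [Fintype Ω'] (y : A) (l : ℕ)
    (χ : X →* K) (_ : Yk K A X J Ω Ω' y l χ) (f : A) [Ring A'] [Algebra K A']
    (κ : A' →ₗ[K] A), f * f = f → y * f = f * y → (∃ a, 1 - f = Tx y l (1 : K) a) →
    Function.Injective κ → (∀ a b, κ (a * b) = κ a * κ b) → κ 1 = f →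
    (∀ a, f * a * f = a → ∃ b, κ b = a) →
    Module.finrank K (Subalgebra.center K A) = Module.finrank K (Subalgebra.center K A')

/-- NIL: the homogeneous ideal is nilpotent.

Proof.  Let `M` be as in the hypothesis, `m = |X|`.  A product of `m M` elements `t_1 t_2 ...`,
`t_i = T_(χ x_i)(a_i)`: among the `m M + 1` partial products `x_1 ... x_i` (`i = 0 .. m M`) at least
`M + 1` are equal, `i_0 < ... < i_M`; the blocks `t_(i_k + 1) ... t_(i_(k+1))` have degree `1`, so they are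
of the form `T_1(b)` (TXR), and their product is `0`.  In general a factor is `T(a_i) + y n_i`; expand a
product of `l (m M + 1)` factors: a term with at least `l` factors `y n_i` is a multiple of `y^l`
(`n y = χ(x⁻¹) y n`); otherwise there are `m M` consecutive factors `T(a_i)`. -/
def NilStmt : Prop :=
  ∀ (K A X : Type) [Field K] [Ring A] [Algebra K A] [Group X] [Fintype X] (y : A) (l : ℕ)
    (χ : X →* K), 1 ≤ l → y ^ l = 0 → (∀ x, χ x ^ (l - 1) = 1) →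
    (∃ M : ℕ, ∀ a : ℕ → A, ((List.range M).map fun i => Tx y l (1 : K) (a i)).prod = 0) →
    ∃ M : ℕ, JP y l χ M = ⊥

/-- JPR: rules for `JP`.

Proof.  Products of lists; `n b ∈ J` for homogeneous `n ∈ N_x`, `b ∈ J_x'` (TXA). -/
def JprStmt : Prop :=
  ∀ (K A X : Type) [Field K] [Ring A] [Algebra K A] [Group X] [Fintype X] (y : A) (l : ℕ)
    (χ : X →* K), 1 ≤ l → y ^ l = 0 → (∀ x, χ x ^ (l - 1) = 1) →
    (∀ x b, b ∈ Jx y l χ x → b ∈ JP y l χ 1) ∧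
    (∀ m n a b, a ∈ JP y l χ m → b ∈ JP y l χ n → a * b ∈ JP y l χ (m + n)) ∧
    (∀ n x a b, 1 ≤ n → a ∈ Nx y χ x → b ∈ JP y l χ n → a * b ∈ JP y l χ n) ∧
    ∀ m n, m ≤ n → JP y l χ m = ⊥ → JP y l χ n = ⊥

/-! ## The section -/

/-- LSC: a graded linear section with `1 ↦ 1`.

Proof.  `σ_x` = a linear section of `p_x : N_x → S_x` (`S_x` = the image of `c x`, `ps`, `pc`),
`ρ' s = ∑_x σ_x (c_x s)`.  `δ = 1 - ρ' 1 ∈ J_1` (`p_1(ρ' 1) = c_1 1 = 1`) is nilpotent, `v = ∑ δ^k`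
is the inverse of `ρ' 1`, `v ∈ N_1`, `p_1 v = 1` (`v - 1 ∈ J_1`).  `ρ s = ρ' s * v`. -/
def LscStmt : Prop :=
  ∀ (K A X S : Type) [Field K] [Ring A] [Algebra K A] [Group X] [Fintype X] [Ring S]
    [Algebra K S] (y : A) (l : ℕ) (χ : X →* K) (L : LS K A X S y l χ), 1 ≤ l → y ^ l = 0 →
    (∀ x, χ x ^ (l - 1) = 1) → (∃ M, JP y l χ M = ⊥) →
    ∃ ρ : S →ₗ[K] A, ρ 1 = 1 ∧ ∃ h : ∀ x s, ρ (L.c x s) ∈ Nx y χ x,
      ∀ x s, L.p x ⟨ρ (L.c x s), h x s⟩ = L.c x s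

/-- NWS: the Newton step for algebra homomorphisms.

Proof.  `D(a,b) = ρ(ab) - ρ(a)ρ(b)`, `θ(a) = ∑_k ρ(u_k) D(v_k, a)`, `ψ = ρ + θ`.
`D(a,1) = 0`, so `ψ 1 = 1`; `θ(a) ∈ P`.
Identity (cocycle): `ρ(a)D(b,c) + D(a,bc) - D(ab,c) - D(a,b)ρ(c) = 0`.
`θ(ab) - θ(a)ρ(b) = ∑ ρ(u_k)(D(v_k,ab) - D(v_k,a)ρ(b)) = ∑ ρ(u_k)(D(v_k a,b) - ρ(v_k)D(a,b))`;
`∑ ρ(u_k)D(v_k a,b) = ∑ ρ(a u_k)D(v_k,b)` (hypothesis, with the bilinear map `(s,t) ↦ ρ(s)D(t,b)`)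
`= ρ(a)θ(b) + ∑ D(a,u_k)D(v_k,b)`; `∑ ρ(u_k)ρ(v_k) = 1 - ∑ D(u_k,v_k)`.  So
`ψ(ab) - ψ(a)ψ(b) = ∑ D(a,u_k)D(v_k,b) + ∑ D(u_k,v_k) D(a,b) - θ(a)θ(b) ∈ Q`. -/
def NwsStmt : Prop :=
  ∀ (K A S κ : Type) [Field K] [Ring A] [Algebra K A] [Ring S] [Algebra K S] [Fintype κ]
    (u v : κ → S) (P Q : Submodule K A) (ρ : S →ₗ[K] A),
    ∑ k, u k * v k = 1 →
    (∀ B : S →ₗ[K] S →ₗ[K] A, ∀ a, ∑ k, B (u k) (v k * a) = ∑ k, B (a * u k) (v k)) →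
    ρ 1 = 1 → (∀ a b, ρ (a * b) - ρ a * ρ b ∈ P) → (∀ a p, p ∈ P → ρ a * p ∈ P) →
    (∀ p q, p ∈ P → q ∈ P → p * q ∈ Q) →
    ∃ ψ : S →ₗ[K] A, (∀ a, ψ a = ρ a + ∑ k, ρ (u k) * (ρ (v k * a) - ρ (v k) * ρ a)) ∧
      ψ 1 = 1 ∧ ∀ a b, ψ (a * b) - ψ a * ψ b ∈ Q

/-- RHO: the section.

Proof.  Start with LSC; `D(a,b) ∈ JP 1`: for homogeneous `a, b` `p` of it is `0`.  Newton steps (NWS)
with `u_o = b_o w`, `v_o = b'_o` (`F.f`, `F.w`; the hypothesis on `B` from `h1`, `h2`, `sep`), `P = JP (2^n)`,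
`Q = JP (2^(n+1))` (JPR).  `ψ` is graded: for `a` of degree `x` the element `D(v_o, a)` is in
`J_((deg o)⁻¹ x)` and `ρ(u_o) ∈ N_(deg o)`; so `ψ(c_x s) - ρ(c_x s) ∈ J_x` and `p_x` does not change.
For `2^n ≥ M` the map is multiplicative. -/
def RhoStmt : Prop :=
  ∀ (K A X S J Ω Ω' : Type) [Field K] [Ring A] [Algebra K A] [Group X] [Fintype X]
    [Ring S] [Algebra K S] [Fintype J] [Fintype Ω] [Fintype Ω'] (y : A) (l : ℕ) (χ : X →* K)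
    (D : Yk K A X J Ω Ω' y l χ) (L : LS K A X S y l χ) (_ : SFd D L), (∃ M, JP y l χ M = ⊥) →
    Nonempty (Rho L)

/-! ## The algebra `C` -/

/-- CCE: the algebra `C = S[y; σ]/y^l` and its embedding.

Proof.  `C` = the set of the `∑_(k<l) ρ(s_k) y^k`, a subalgebra of `A` (`y ρ(s) = ρ(σ s) y`).
Uniqueness: if `∑ ρ(s_k) y^k = 0` and `k0` is the first index with `s_k0 ≠ 0`, multiply by
`y^(l-1-k0)`: `ρ(s_k0) y^(l-1) = 0`, so `τ(s s_k0) = λ(y^(l-1) ρ(s) ρ(s_k0)) = λ(ρ(s_k0) y^(l-1) ρ(s)) = 0`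
for all `s` (`τ(t) = λ(y^(l-1) ρ(t))` by `el`, `rp`, for all `t`), and `s_k0 = 0` by `h1`. -/
def CceStmt : Prop :=
  ∀ (K A X S J Ω Ω' : Type) [Field K] [Ring A] [Algebra K A] [Module.Finite K A] [Group X]
    [Fintype X] [Ring S] [Algebra K S] [Fintype J] [Fintype Ω] [Fintype Ω'] (y : A) (l : ℕ)
    (χ : X →* K) (D : Yk K A X J Ω Ω' y l χ) (L : LS K A X S y l χ) (_ : SFd D L)
    (ρ : Rho L),
    ∃ (C : Type) (_ : Ring C) (_ : Algebra K C) (_ : Module.Finite K C)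
      (Q : CC K S C X L.toGS l χ) (j : C →ₐ[K] A), Function.Injective j ∧ j Q.y = y ∧
      ∀ s, j (Q.i s) = ρ.r s

/-- SGR: rules for `σ`.

Proof.  `σ(s) = ∑ χ(x) c_x s`; multiplicative on homogeneous elements; `σ^(l-1) = 1`;
`τ ∘ σ = τ` (`τ` is `0` in degrees `≠ 1`); dual families go to dual families. -/
def SgrStmt : Prop :=
  ∀ (K S X Ω : Type) [Field K] [Ring S] [Algebra K S] [Group X] [Fintype X] [Fintype Ω]
    (G : GS K S X) (F : SF K S X Ω G) (l : ℕ) (χ : X →* K), (∀ x, χ x ^ (l - 1) = 1) →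
    (∀ a b, G.sg χ (a * b) = G.sg χ a * G.sg χ b) ∧ G.sg χ 1 = 1 ∧
    (∀ a, (G.sg χ ^ (l - 1)) a = a) ∧ (∀ a, F.f.lam (G.sg χ a) = F.f.lam a) ∧
    (∀ x s, G.sg χ (G.c x s) = χ x • G.c x s) ∧
    (∀ k s, ∑ o, F.f.lam ((G.sg χ ^ k) (F.f.b' o) * s) • (G.sg χ ^ k) (F.f.b o) = s) ∧
    ∀ k s, ∑ o, F.f.lam (s * (G.sg χ ^ k) (F.f.b o)) • (G.sg χ ^ k) (F.f.b' o) = s

/-- CFS: the form `t0(i(s) y^k) = δ_(k,l-1) τ(s)` of `C`, its dual families, and the Euler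
derivation.

Proof.  `y^k i(s) = i(σ^k s) y^k`.  Symmetric: for `k + k' = l-1`: `τ(s σ^k(s')) =
τ(σ^k(s') s) = τ(σ^(l-1)(s') σ^(k')(s)) = τ(s' σ^k'(s))`; otherwise both sides are `0` (for
`k + k' < l-1` not the top coefficient, for `k + k' ≥ l` zero).  `h1`: for `c = i(s) y^j`:
`y^(l-1-k) i(b'_o) i(s) y^j = i(σ^(l-1-k)(b'_o s)) y^(l-1-k+j)`, so `t0` of it is `δ_(jk) τ(b'_o s)`.
`h2` with SGR.  `v(i(s) y^k) = k i(s) y^k`; `(i(s)y^k)(i(s')y^k') = i(s σ^k s') y^(k+k')`;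
`v(c)` is a combination of elements `i(s) y^k`, `k ≥ 1`, and a product of `l` such elements is `0`. -/
def CfsStmt : Prop :=
  ∀ (K S C X Ω : Type) [Field K] [Ring S] [Algebra K S] [Ring C] [Algebra K C] [Group X]
    [Fintype X] [Fintype Ω] (G : GS K S X) (F : SF K S X Ω G) (l : ℕ) (χ : X →* K)
    (Q : CC K S C X G l χ), 2 ≤ l → (∀ x, χ x ^ (l - 1) = 1) →
    ∃ (c : FS K C (Ω × Fin l)) (v : C →ₗ[K] C), (∀ a, c.lam a = F.f.lam (Q.co (l - 1) a)) ∧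
      (∀ p, c.b p = Q.i (F.f.b p.1) * Q.y ^ (p.2 : ℕ)) ∧
      (∀ p, c.b' p = Q.y ^ (l - 1 - (p.2 : ℕ)) * Q.i (F.f.b' p.1)) ∧
      (∀ a b, c.lam (a * b) = c.lam (b * a)) ∧
      (∀ a b, v (a * b) = v a * b + a * v b) ∧ (∀ a, IsNilpotent (v a)) ∧
      ∀ a, c.lam (v a) = ((l - 1 : ℕ) : K) * c.lam a

/-- CFU: the unit `u` (gives `CD`).

Proof.  `t0` is the form of CFS (`c`).  `t(c) = λ(j c)` is symmetric: `t(c) = t0(u c)` with
`u = ∑ t(b_p) b'_p` central (as in PFD LCU).  `t` is nondegenerate: if `t(c b) = 0` for all `b`, write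
`c = ∑ i(s_k) y^k`, `k0` the first index with `s_k0 ≠ 0`, `b = y^(l-1-k0) i(s)`:
`0 = λ(ρ(s_k0) y^(l-1) ρ(s)) = λ(y^(l-1) ρ(s) ρ(s_k0)) = τ(s s_k0)`, so `s_k0 = 0`.  So `u b = 0` implies
`t(b c) = 0` for all `c`, `b = 0`; `C` is finite-dimensional: `u` is a unit.  `jp` from `rp`. -/
def CfuStmt : Prop :=
  ∀ (K A X S J Ω Ω' C : Type) [Field K] [Ring A] [Algebra K A] [Group X]
    [Fintype X] [Ring S] [Algebra K S] [Fintype J] [Fintype Ω] [Fintype Ω'] [Ring C]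
    [Algebra K C] [Module.Finite K C] (y : A) (l : ℕ)
    (χ : X →* K) (D : Yk K A X J Ω Ω' y l χ) (L : LS K A X S y l χ) (F : SFd D L)
    (ρ : Rho L) (Q : CC K S C X L.toGS l χ) (j : C →ₐ[K] A), Function.Injective j →
    j Q.y = y → (∀ s, j (Q.i s) = ρ.r s) → ∃ E : CD C F, E.j = j

/-- CUF: the Frobenius system of `C` for the form `λ ∘ j`.

Proof.  CFS with `b' ↦ u' b'` (`u`, `u'` central, `λ(j c) = t0(u c)`). -/
def CufStmt : Prop :=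
  ∀ (K A X S J Ω Ω' C : Type) [Field K] [Ring A] [Algebra K A] [Group X]
    [Fintype X] [Ring S] [Algebra K S] [Fintype J] [Fintype Ω] [Fintype Ω'] [Ring C]
    [Algebra K C] (y : A) (l : ℕ) (χ : X →* K) (D : Yk K A X J Ω Ω' y l χ)
    (L : LS K A X S y l χ) (F : SFd D L) (E : CD C F),
    (∀ c, E.u' * c = c * E.u') ∧ E.u' * E.u = 1 ∧
    ∃ c : FS K C (Ω × Fin l), (∀ a, c.lam a = D.d.lam (E.j a)) ∧
      (∀ p, c.b p = E.Q.i (F.f.b p.1) * E.Q.y ^ (p.2 : ℕ)) ∧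
      (∀ p, c.b' p = E.u' * (E.Q.y ^ (l - 1 - (p.2 : ℕ)) * E.Q.i (F.f.b' p.1))) ∧
      ∀ a b, c.lam (a * b) = c.lam (b * a)

/-- PRJ: the orthogonal projection.

Proof.  `pr a = ∑_p λ(j(b'_p) a) b_p` with CUF.  `λ(j(pr a) j(c)) = λ(a j(c))` for all `c`
(`h2` and symmetry), and elements of `C` are determined by the values `λ(j(.) j(c))`. -/
def PrjStmt : Prop :=
  ∀ (K A X S J Ω Ω' C : Type) [Field K] [Ring A] [Algebra K A] [Group X]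
    [Fintype X] [Ring S] [Algebra K S] [Fintype J] [Fintype Ω] [Fintype Ω'] [Ring C]
    [Algebra K C] (y : A) (l : ℕ) (χ : X →* K) (D : Yk K A X J Ω Ω' y l χ)
    (L : LS K A X S y l χ) (F : SFd D L) (E : CD C F),
    ∃ pr : A →ₗ[K] C, (∀ c, pr (E.j c) = c) ∧ (∀ c a, pr (E.j c * a) = c * pr a) ∧
      (∀ a c, pr (a * E.j c) = pr a * c) ∧ ∀ a, D.d.lam (E.j (pr a)) = D.d.lam a

/-- KNX: the kernel of the projection in `N_x`.

Proof.  `q a = a - j(pr a)`, a bimodule map for `y`.  Claim: `N_x = ∑_k y^k ρ(S_x) + T_c(A)`,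
`ρ = j i`.  By NFR (2) `a ∈ N_x` is `∑ (scalar) y^i g_o + T_c(b)` (`deg o = x`), and
`g_o - ρ(p g_o) ∈ J_x` (`p_x` of it is `0`) `= T_c(b) + y n`; iterate `l` times (`y T_c(b) = T_c(y b)`,
`y^l = 0`).  `q` kills `y^k ρ(S_x)` and `q T_c(b) = T_c(q b)`. -/
def KnxStmt : Prop :=
  ∀ (K A X S J Ω Ω' C : Type) [Field K] [Ring A] [Algebra K A] [Group X]
    [Fintype X] [Ring S] [Algebra K S] [Fintype J] [Fintype Ω] [Fintype Ω'] [Ring C]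
    [Algebra K C] (y : A) (l : ℕ) (χ : X →* K) (D : Yk K A X J Ω Ω' y l χ)
    (L : LS K A X S y l χ) (F : SFd D L) (E : CD C F) (pr : A →ₗ[K] C),
    (∀ c, pr (E.j c) = c) → (∀ c a, pr (E.j c * a) = c * pr a) →
    (∀ a c, pr (a * E.j c) = pr a * c) →
    ∀ x a, a ∈ Nx y χ x → ∃ b, a - E.j (pr a) = Tx y l (χ x) b

/-- TWT: `q = 1 - j pr` is a two-sided trace over `K[y]`.

Proof.  Apply `q` (a bimodule map over `K[y]`) to `fr`.  KNX: `q g_o = T_(c_o)(x_o)`.  Free part: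
`y^i q(h_o) y^k λ(h'_o (y^(l-1-i) a y^(l-1-k)))`.  Twisted part:
`∑_(i,k) λ(g'_o y^(l-1-i) a y^(l-1-k)) y^i x_o y^k`, where
`λ(g' y^(l-1-i) a y^(l-1-k)) = λ(y^(l-1-k) g' y^(l-1-i) a) = c_o^k λ(g' y^(2l-2-i-k) a)`; with
`k = l-1-k'`, `i = j + k'` (the terms with `i < k'` vanish) it is
`∑_(j,k') λ(g' y^(l-1-j) a) y^j c_o^(l-1-k') y^k' x_o y^(l-1-k') = ∑_j λ(g' y^(l-1-j) a) y^j T_(c_o)(x_o)`,
the twisted part of `q(fr)`.  `ψ a = ∑_o λ(g'_o a) x_o + ∑_o λ(h'_o a) q(h_o)`. -/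
def TwtStmt : Prop :=
  ∀ (K A X S J Ω Ω' C : Type) [Field K] [Ring A] [Algebra K A] [Group X]
    [Fintype X] [Ring S] [Algebra K S] [Fintype J] [Fintype Ω] [Fintype Ω'] [Ring C]
    [Algebra K C] (y : A) (l : ℕ) (χ : X →* K) (D : Yk K A X J Ω Ω' y l χ)
    (L : LS K A X S y l χ) (F : SFd D L) (E : CD C F) (pr : A →ₗ[K] C),
    (∀ c, pr (E.j c) = c) → (∀ c a, pr (E.j c * a) = c * pr a) →
    (∀ a c, pr (a * E.j c) = pr a * c) →
    ∃ ψ : A →ₗ[K] A, ∀ a, a - E.j (pr a) = ∑ i ∈ Finset.range l, ∑ k ∈ Finset.range l,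
      y ^ i * ψ (y ^ (l - 1 - i) * a * y ^ (l - 1 - k)) * y ^ k

/-- SPC: `A` splits over `C` with a projective complement.

Proof.  CUF, PRJ, TWT.  `q` is a `C`-bimodule map and `∑_o ρ(b_o) ρ(w) ρ(b'_o) = 1`, so
`q(x) = ∑_(o,o') ρ(b_o) ρ(w) q(ρ(b'_o) x ρ(b_o') ρ(w)) ρ(b'_o')`; insert TWT, `ρ(w)` commutes with `y`:
`= ∑ ρ(b_o) y^i ψ'(y^(l-1-i) ρ(b'_o) x ρ(b_o') y^(l-1-k)) y^k ρ(b'_o')`, `ψ'(z) = ρ(w) ψ(z ρ(w))`, i.e.
`∑_(p,p') B_p ψ'(B'_p x B_p') B'_p'` for the dual families of CFS (`p' = (o', l-1-k)`).  With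
`b' = u' B'`, `a(z) = ψ'(j(u) z) j(u)` it is `∑ b_p a(b'_p x b_p') b'_p'`. -/
def SpcStmt : Prop :=
  ∀ (K A X S J Ω Ω' C : Type) [Field K] [Ring A] [Algebra K A] [Group X]
    [Fintype X] [Ring S] [Algebra K S] [Fintype J] [Fintype Ω] [Fintype Ω'] [Ring C]
    [Algebra K C] (y : A) (l : ℕ) (χ : X →* K) (D : Yk K A X J Ω Ω' y l χ)
    (L : LS K A X S y l χ) (F : SFd D L) (E : CD C F),
    ∃ (c : FS K C (Ω × Fin l)) (sp : Split c A), (∀ a, c.lam a = D.d.lam (E.j a)) ∧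
      sp.j = E.j ∧ (∀ a, D.d.lam (E.j (sp.pr a)) = D.d.lam a)

/-- RFC: the relative Frobenius system of `A` over `C` and the separating element.

Proof.  `G_o = i(b_o)`, `G'_o = u' i(b'_o)` in `C`, `q = u i(w)`.  For `c` in `C`:
`pi(j c) = π0(u c)`, `π0(i(s) y^k) = τ(s) y^k`, and `∑_o pi(j(c G_o)) G'_o = c`,
`∑_o G_o pi(j(G'_o c)) = c` (SGR: `c = i(s) y^k`, `u c i(b_o) = i(s σ^k(b_o)) y^k`, ...), where `pi(..)` is
in the span of the powers of `y`; `pi(j(pr a)) = pi(a)`.  `x_r = e_r j(q)`, `y_r = e'_r`: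
`∑_r e_r j(q) j(pr(e'_r a)) = ∑_(r,o) e_r q pi(e'_r a G_o) G'_o = ∑_o (∑_r e_r pi(e'_r a G_o)) q G'_o =
a ∑_o G_o q G'_o = a` (`q` commutes with `y`; `∑ G_o q G'_o = i(∑ b_o w b'_o) = 1`).  `e2` in the same way
with `pi(b q) = pi(q b)`.
Separating element: `w' = ∑_o j(G_o) w j(G'_o)`; it commutes with `j C` (`c G_o = ∑_o' G_o' pi(G'_o' c G_o)`);
`∑_r e_r q w' e'_r = ∑_(r,o) e_r q G_o w G'_o e'_r`, insert `G'_o e'_r = ∑_r' pi(G'_o e'_r e_r') e'_r'` (RTK (2)):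
`= ∑_(r,r') e_r q j(pr(e'_r e_r')) w e'_r' = ∑_r' e_r' w e'_r' = RT w = 1`. -/
def RfcStmt : Prop :=
  ∀ (K A X S J Ω Ω' C : Type) [Field K] [Ring A] [Algebra K A] [Group X]
    [Fintype X] [Ring S] [Algebra K S] [Fintype J] [Fintype Ω] [Fintype Ω'] [Ring C]
    [Algebra K C] (y : A) (l : ℕ) (χ : X →* K) (D : Yk K A X J Ω Ω' y l χ)
    (L : LS K A X S y l χ) (F : SFd D L) (E : CD C F) (pr : A →ₗ[K] C),
    (∀ c, pr (E.j c) = c) → (∀ c a, pr (E.j c * a) = c * pr a) →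
    (∀ a c, pr (a * E.j c) = pr a * c) → (∀ a, D.d.lam (E.j (pr a)) = D.d.lam a) →
    ∃ s : RF K C A (Ω ⊕ (Ω' × Fin l)) E.j pr, ∃ w : A, (∀ c, E.j c * w = w * E.j c) ∧
      s.rt w = 1

/-- KMX: the data `KM`.

Proof.  SPC (`c`, `sp`), RFC for `sp.pr` (transport along `sp.j = E.j`), `d`, `ds`, `np` of `D`,
`ort`, `v` from CFS, `wt = l - 1`, `c.lam (u' b) = t0 b`. -/
def KmxStmt : Prop :=
  ∀ (K A X S J Ω Ω' C : Type) [Field K] [Ring A] [Algebra K A] [Group X]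
    [Fintype X] [Ring S] [Algebra K S] [Fintype J] [Fintype Ω] [Fintype Ω'] [Ring C]
    [Algebra K C] (y : A) (l : ℕ) (χ : X →* K) (D : Yk K A X J Ω Ω' y l χ)
    (L : LS K A X S y l χ) (F : SFd D L) (_ : CD C F),
    Nonempty (KM K C A (Ω × Fin l) J (Ω ⊕ (Ω' × Fin l)))

/-! ## The first order theorem with a separating element -/

/-- KCR: `rt s - s` is a trace from `1` to `B` (proof of PFD CRS). -/
def KcrStmt : Prop :=
  ∀ (K B A I J N : Type) [Field K] [Ring B] [Algebra K B] [Ring A] [Algebra K A] [Fintype I]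
    [Fintype J] [Fintype N] (D : KM K B A I J N) (s : A),
    (∀ b, D.sp.j b * s = s * D.sp.j b) →
    ∃ t : A, D.s.rt s = s + D.TB t

/-- KTT: transitivity of the trace, and the rules of `TB` (proof of PFD TTR). -/
def KttStmt : Prop :=
  ∀ (K B A I J N : Type) [Field K] [Ring B] [Algebra K B] [Ring A] [Algebra K A] [Fintype I]
    [Fintype J] [Fintype N] (D : KM K B A I J N),
    (∀ a, D.s.rt (D.TB a) = D.TA a) ∧ (∀ a b, D.sp.j b * D.TB a = D.TB a * D.sp.j b) ∧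
    (∀ a z, (∀ b, D.sp.j b * z = z * D.sp.j b) → z * D.TB a = D.TB (z * a) ∧
      D.TB a * z = D.TB (a * z)) ∧
    (∀ a z, (∀ b, b * z = z * b) → z * D.TA a = D.TA (z * a)) ∧
    (∀ a z, z * D.TA a = D.TA a * z)

/-- KZT: the divergence.

Proof.  As PFD ZET (`Helper3_PFD/ZET.lean`) up to `ζ ^ M = TB t'`, `ζ` central; then
`ζ ^ M = ζ ^ M * rt w = rt (TB t' * w) = rt (TB (t' w)) = TA (t' w)`, nilpotent by `np`. -/
def KztStmt : Prop :=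
  ∀ (K B A I J N : Type) [Field K] [Ring B] [Algebra K B] [Ring A] [Algebra K A] [Fintype I]
    [Fintype J] [Fintype N] (D : KM K B A I J N),
    ∃ (De ν : B), De = ν - algebraMap K B (D.wt : K) ∧ IsNilpotent ν ∧ (∀ b, ν * b = b * ν) ∧
      (∀ a, D.c.lam (D.v a) = - D.c.lam (a * De)) ∧
      (∀ a, a * D.s.rt (D.sp.j De) = D.s.rt (D.sp.j De) * a) ∧
      IsNilpotent (D.s.rt (D.sp.j De) + algebraMap K A (D.wt : K))

/-- KKL: equality of the dimensions of the centres (proof of PFD KLT with KZT and `FotStmt`). -/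
def KklStmt : Prop :=
  ∀ (K B A I J N : Type) [Field K] [CharZero K] [Ring B] [Algebra K B]
    [Module.Finite K B] [Ring A] [Algebra K A] [Module.Finite K A]
    [Fintype I] [Fintype J] [Fintype N] (_ : KM K B A I J N),
    Module.finrank K (Subalgebra.center K A) = Module.finrank K (Subalgebra.center K B)

/-! ## The centre of `C` -/

/-- ZCB: the centre of `C` in terms of `S`.

Proof.  `c = ∑ i(s_k) y^k` commutes with `y` iff `σ s_k = s_k` for `k ≤ l-2`, i.e. `s_k ∈ S1`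
(`χ x ≠ 1` for `x ≠ 1`); it commutes with `i(s)` iff `s s_k = s_k σ^k(s)`; for `k = l-1`: `σ^(l-1) = 1`.
So the centre is isomorphic to `Z(S) × ∏_(k<l-1) Z_k`, `Z_k` the space below. -/
def ZcbStmt : Prop :=
  ∀ (K S C X : Type) [Field K] [Ring S] [Algebra K S] [Module.Finite K S] [Ring C]
    [Algebra K C] [Group X] [Fintype X] (G : GS K S X) (l : ℕ) (χ : X →* K)
    (_ : CC K S C X G l χ), 2 ≤ l → (∀ x, χ x ^ (l - 1) = 1) →
    (∀ x, x ≠ 1 → IsUnit (1 - χ x)) →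
    ∃ Z : ℕ → Submodule K S,
      (∀ k s, s ∈ Z k ↔ G.c 1 s = s ∧ ∀ x t, G.c x t * s = χ x ^ k • (s * G.c x t)) ∧
      Module.finrank K (Subalgebra.center K C) =
        Module.finrank K (Subalgebra.center K S) +
          ∑ k ∈ Finset.range (l - 1), Module.finrank K (Z k)

/-- ZCS: the sum of the eigenspaces.

Proof.  `Z_0' = Z(S1)` (as a subspace of `S`).  `X` acts on `Z(S1)` by `x · s = g_x s g_x⁻¹` (`g_x` a
homogeneous unit of degree `x`; independent of the choice, since two choices differ by an element of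
`S1`).  `Z_k = {s ∈ Z(S1) : x · s = χ(x)^k s}`.  `X` is cyclic (`χ` is injective, a finite subgroup of
`Kˣ`) and the characters of `X` are the `χ^k`, `0 ≤ k < |X|`, `|X|` divides `l - 1`, `|X| ≠ 0` in `K`:
`Z(S1) = ⊕_(k<|X|) Z_k` (projections `|X|⁻¹ ∑_x χ(x)^(-k) x·`), and `Z_(k+|X|) = Z_k`. -/
def ZcsStmt : Prop :=
  ∀ (K S X : Type) [Field K] [CharZero K] [Ring S] [Algebra K S] [Module.Finite K S] [Group X]
    [Fintype X] (G : GS K S X) (l : ℕ) (χ : X →* K), 2 ≤ l → (∀ x, χ x ^ (l - 1) = 1) →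
    (∀ x, x ≠ 1 → IsUnit (1 - χ x)) →
    (∀ x, ∃ g g' : S, G.c x g = g ∧ g * g' = 1 ∧ g' * g = 1) →
    ∀ Z : ℕ → Submodule K S,
      (∀ k s, s ∈ Z k ↔ G.c 1 s = s ∧ ∀ x t, G.c x t * s = χ x ^ k • (s * G.c x t)) →
      ∑ k ∈ Finset.range (l - 1), Module.finrank K (Z k) =
        (l - 1) / Fintype.card X * Module.finrank K (Subalgebra.center K G.S1)

/-- TPE: TOP of E1.

Proof.  IDF: `f`.  CRN: `A'`, CZF.  `JP y' l χ M = ⊥` for some `M`: NIL, with `κ (T'_1(a)) =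
f T_1(κ a) f` (IDF).  SFE, RHO, CCE, CFU, KMX, KKL for `A'`: `dim Z(A') = dim Z(C)`.  ZCB, ZCS. -/
def TpeStmt : Prop :=
  ∀ (K A X S J Ω Ω' : Type) [Field K] [CharZero K] [Ring A] [Algebra K A] [Module.Finite K A]
    [Group X] [Fintype X] [Ring S] [Algebra K S] [Module.Finite K S] [Fintype J] [Fintype Ω]
    [Fintype Ω'] (y : A) (l : ℕ) (χ : X →* K) (_ : Yk K A X J Ω Ω' y l χ)
    (L : LS K A X S y l χ),
    (∀ x, ∃ g g' : S, L.c x g = g ∧ g * g' = 1 ∧ g' * g = 1) →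
    Module.finrank K (Subalgebra.center K A) =
      Module.finrank K (Subalgebra.center K S) +
        (l - 1) / Fintype.card X * Module.finrank K (Subalgebra.center K L.toGS.S1)

end Pool.Agent.PFE
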