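import Pool.Agent.PFE.DefsE2
import Pool.Agent.PFE.StmtsE1
import Pool.Agent.PFD.StmtsD2
import Pool.Agent.PFD.StmtsD2b
import Pool.Agent.PFD.StmtsD4

/-!
# Squad PFE (theorem (R)), part E2, block 1: bimodules, frames, the lift (helper3)

`A` is an algebra over the residue field `F`, a symmetric extension of `Γ0 = F V = F[y]/y^l ⊗ F W`.  It is
lifted to an extension `A1` of `Γ = R[y]/y^l ⊗ R W`.  Definitions: `DefsE2.lean`.  Conventions: `lm γ n` is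
written `γ n`, `rm (op γ) n` is written `n γ`, `c = χ x`.  `wrp G.om B (u, v) n = u n v⁻¹`.
`Γ` is commutative and spanned by the `y^k om w` (`GY.ex`), so a linear map is a bimodule homomorphism
as soon as it respects `y` and the `om w`, on both sides.  `χ x` is a unit (`χ x * χ x⁻¹ = 1`).
Rows: theorem `Pool.Agent.PFE.HNN.xxx : XxxStmt` with the statements of the column `uses` as hypotheses;
any row may take any other row as a hypothesis.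
-/

open scoped BigOperators

noncomputable section

namespace Pool.Agent.PFE

open MulOpposite
open Pool.Agent.PFC.B1 (FS Split BiM Sep)
open Pool.Agent.PFD (RF)
open Pool.Agent.PFD.D2
open Pool.Agent.PFD.D2b (wrp FPl FrR WFS)

/-! ## The algebra `Γ` -/

/-- GUP: the universal property of `Γ`.

Proof.  `ρ γ = ∑_(k<l) ∑_w co k w γ • (Y^k * U w)`.  By `un` `ρ (y^k om w) = Y^k U w` for `k < l` (family
`Pi.single`), and for `k ≥ l` both sides are `0`.  So `ρ` is multiplicative on the spanning elements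
`y^k om w` (`ex`), and by bilinearity everywhere; `1 = y^0 om 1`. -/
def GupStmt : Prop :=
  ∀ (R Γ W B : Type) [CommRing R] [CommRing Γ] [Algebra R Γ] [CommGroup W] [Fintype W] [Ring B]
    [Algebra R B] (l : ℕ) (G : GY R Γ W l) (Y : B) (U : W →* B), 1 ≤ l → Y ^ l = 0 →
    (∀ w, Y * U w = U w * Y) → ∃ ρ : Γ →ₐ[R] B, ρ G.y = Y ∧ ∀ w, ρ (G.om w) = U w

/-- GWF: `Γ` as a `WFS` (so the rows of PFD/StmtsD4 apply).

Proof.  `ph i = id`, `nrm` by commutativity.  By `un` and `yl`: `co (l-1) 1 (y^m om w)` is `1` if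
`m = l-1`, `w = 1`, and `0` otherwise (for `m < l` by `un` with the family supported at `(m, w)`, for
`m ≥ l` the element is `0`).  `d1`, `d0`: `om u⁻¹ y^(l-1-i) y^j om w = y^(l-1-i+j) om (u⁻¹ w)`.  `h1`, `h2`:
it is enough to check them for `x = y^k om v` (`ex`). -/
def GwfStmt : Prop :=
  ∀ (R Γ W : Type) [CommRing R] [CommRing Γ] [Algebra R Γ] [CommGroup W] [Fintype W] (l : ℕ)
    (G : GY R Γ W l), 1 ≤ l →
    ∃ D : WFS R Γ W (Fin l), D.lam = G.co (l - 1) 1 ∧ D.om = G.om ∧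
      (∀ i, D.cf i = G.y ^ (i : ℕ)) ∧ ∀ i, D.cf' i = G.y ^ (l - 1 - (i : ℕ))

/-- GEX: `Γ` over `R`, with its special fibre.

Proof.  E.g. `Γ = MonoidAlgebra (R[X] ⧸ (X^l)) W`, `y = X`, `om w = single w 1`, `co k w γ` = the `k`-th
coefficient of the coefficient of `w`; a basis is `y^k om w`.  `f.q` from GUP for `B = Γ0` with the
`R`-algebra structure `(algebraMap F Γ0).comp c.κ` (a local instance), `Y = G0.y`, `U = G0.om`.  Surjective: `F`-span of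
the `y^k om w`, `c.κ` is surjective.  `f.q γ = 0` gives `c.κ (co k w γ) = 0` (`G0.un`), so
`co k w γ = π r_(k,w)`, `γ = π ∑ r_(k,w) y^k om w`. -/
def GexStmt : Prop :=
  ∀ (R F Γ0 W : Type) [CommRing R] [Field F] (c : Cdv R F) [CommRing Γ0] [Algebra F Γ0]
    [CommGroup W] [Fintype W] (l : ℕ) (G0 : GY F Γ0 W l), 1 ≤ l →
    ∃ (Γ : Type) (_ : CommRing Γ) (_ : Algebra R Γ) (_ : Module.Finite R Γ) (_ : Module.Free R Γ)
      (G : GY R Γ W l) (f : FibG Γ Γ0 c), f.q G.y = G0.y ∧ ∀ w, f.q (G.om w) = G0.om w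

/-- GFR: the frame of `Γ`.

Proof.  `Ω = W` with the action `(u, v) • w = u w v⁻¹`, `deg = 1`, `g = om`, `c w = co (l-1) w`; `Ω' = Empty`.
`co (l-1) w (y^m om v)` is `1` for `m = l-1`, `v = w`, else `0` (see GWF); check `cw`, `fr` on `y^k om v`. -/
def GfrStmt : Prop :=
  ∀ (R Γ W X : Type) [CommRing R] [CommRing Γ] [Algebra R Γ] [CommGroup W] [Fintype W] [Group X]
    (l : ℕ) (G : GY R Γ W l) (χ : X →* R), 1 ≤ l →
    ∃ (Ω Ω' : Type) (_ : Fintype Ω) (_ : Fintype Ω') (_ : MulAction (W × W) Ω)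
      (_ : MulAction (W × W) Ω'), Nonempty (YFr Ω Ω' G χ (regB R Γ) LinearMap.id)

/-- XEX: a bimodule with a given basis.

Proof.  `M = (Ω → Fin l → R) × (Ω' → Fin l → Fin l → R)`, `(f, f')` stands for
`∑ f o i • y^i g_o + ∑ f' o i k • y^i h_o y^k`.  Left `y`: `f o i ↦ f o (i-1)`, `f' o i k ↦ f' o (i-1) k` (`0` for
`i = 0`); right `y`: `f o i ↦ χ(deg o)⁻¹ f o (i-1)`, `f' o i k ↦ f' o i (k-1)` (`0` for `k = 0`);
`(u n v⁻¹) o = n ((u, v)⁻¹ • o)`.  These operators commute (`dg`), both `y` operators are nilpotent of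
order `l`; GUP for `B = End M` (left), and for the opposite algebra or simply again for `End M` on the
right (`Γ` is commutative: `rm` = the homomorphism of GUP composed with `Γᵐᵒᵖ ≃ Γ`).
`g o` = the function `1` at `(o, 0)`, `h o` = `1` at `(o, 0, 0)`; `c o n` = the value at `(o, l-1)`, `d o n`
= the value at `(o, l-1, l-1)`.  `y^i` shifts by `i`: all the fields. -/
def XexStmt : Prop :=
  ∀ (R Γ W X Ω Ω' : Type) [CommRing R] [CommRing Γ] [Algebra R Γ] [CommGroup W] [Fintype W]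
    [Group X] [Fintype Ω] [Fintype Ω'] [MulAction (W × W) Ω] [MulAction (W × W) Ω'] (l : ℕ)
    (G : GY R Γ W l) (χ : X →* R) (deg : Ω → X), 1 ≤ l →
    (∀ (w : W × W) (o : Ω), deg (w • o) = deg o) →
    (∀ (w : W) (o : Ω), ((1, w) : W × W) • o = o → w = 1) →
    (∀ (w : W) (o : Ω'), ((1, w) : W × W) • o = o → w = 1) →
    ∃ (M : Type) (_ : AddCommGroup M) (_ : Module R M) (_ : Module.Finite R M)
      (_ : Module.Free R M) (B : BiM R Γ M) (Y : YBs Ω Ω' G χ B), Y.deg = deg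

/-- XRD: the special fibre of the bimodule with a basis.

Proof.  `s n = Fr0.el (fun o i => κ (c_o (y^(l-1-i) n))) (fun o i k => κ (d_o (y^(l-1-i) n y^(l-1-k))))`
(`c`, `d` of `Fr`).  `s (y n) = y s(n)`: `c_o (y^(l-1-i) y n) = c_o (y^(l-1-(i-1)) n)` for `i ≥ 1`, `0` for `i = 0`
(`y^l = 0`), and `y (y^i g) = y^(i+1) g`.  `s (n y) = s(n) y`: `c_o (y^m n y) = χ⁻¹ c_o (y^(m+1) n)` (`cy`,
`χ = χ(deg o)`), `y^i g_o y = χ0⁻¹ y^(i+1) g_o` (`gy`).  `s (u n v⁻¹) = u s(n) v⁻¹`: `cw`, `dw`, `gw`, `hw`, reindex.  So `s` respects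
all `γ` (`f.q` of `y^k om w`, `sc`).  Surjective: `x0 = Fr0.el a a'` (`fr`), lift `a`, `a'` to `R` and use `un1`,
`un2` of `Fr`.  `ker`: by `un1`, `un2` of `Fr0` all the coordinates of `n` are in `ker κ = π R`, and
`n = Fr.el (coordinates)` (`fr`). -/
def XrdStmt : Prop :=
  ∀ (R F Γ Γ0 W X Ω Ω' M M0 : Type) [CommRing R] [Field F] (c : Cdv R F) [CommRing Γ]
    [Algebra R Γ] [CommRing Γ0] [Algebra F Γ0] [CommGroup W] [Fintype W]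
    [Group X] [Fintype Ω] [Fintype Ω'] [MulAction (W × W) Ω] [MulAction (W × W) Ω']
    [AddCommGroup M] [Module R M] [AddCommGroup M0] [Module F M0] (l : ℕ)
    (G : GY R Γ W l) (G0 : GY F Γ0 W l) (f : FibG Γ Γ0 c) (χ : X →* R) (χ0 : X →* F)
    (B : BiM R Γ M) (B0 : BiM F Γ0 M0) (Fr : YBs Ω Ω' G χ B) (Fr0 : YBs Ω Ω' G0 χ0 B0), 1 ≤ l →
    f.q G.y = G0.y → (∀ w, f.q (G.om w) = G0.om w) → (∀ x, c.κ (χ x) = χ0 x) →
    Fr.deg = Fr0.deg → Nonempty (FibM M M0 f B B0)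

/-! ## Lifting of vectors -/

/-- YFP: fixed vectors modulo `p` lift.

Proof.  `FpfStmt` for the permutation frame `T = Ω × Fin l ⊕ Ω' × Fin l × Fin l` (`W × W` acts on the first
component), vectors `y^i g_o`, `y^i h_o y^k`, functionals `c_o (y^(l-1-i) ·)`, `d_o (y^(l-1-i) · y^(l-1-k))`
(`wrp` commutes with `y` on both sides). -/
def YfpStmt : Prop :=
  ∀ (R Γ W N X Ω Ω' : Type) [CommRing R] [CommRing Γ] [Algebra R Γ] [CommGroup W] [Fintype W]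
    [AddCommGroup N] [Module R N] [Group X] [Fintype Ω] [Fintype Ω'] [MulAction (W × W) Ω]
    [MulAction (W × W) Ω'] (l : ℕ) (G : GY R Γ W l) (χ : X →* R) (B : BiM R Γ N)
    (_ : YFr Ω Ω' G χ B LinearMap.id) (p : R), FPl p (wrp G.om B)

/-- KEX: the projection to the twisted elements.

Proof.  `c = χ x`, `T(n) = ∑_(j<l) c^(l-1-j) • y^j n y^(l-1-j)`,
`κ n = ∑_(deg o = x) ∑_i c_o(y^(l-1-i) n) y^i g_o + ∑_(deg o ≠ x) c_o(n) y^(l-1) g_o +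
∑_(o in Ω') ∑_(s<l) c^s d_o(y^(l-1-s) n) T(h_o y^s)`.
(1) Equivariant: `cw`, `gw`, `dw`, `hw`, `dg`, reindex.  (2) `y κ n = c (κ n) y`: `gy` for the first sum; both
sides are `0` for `y^(l-1) g_o`; `y T(n) = c T(n) y` (TXR (1): `y T(n) = ∑_(j<l-1) c^(l-1-j) y^(j+1) n y^(l-1-j)`,
`c T(n) y = ∑_(j≥1) c^(l-j) y^j n y^(l-j)`, the same sum).
(3) Let `y n = c n y` modulo `p`.  Then `n y^r = c^(-r) y^r n`, `c^(-(l-1-k)) = c^k` modulo `p`.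
For `deg o ≠ x`, `m ≥ 1`: `c_o(y^m n) = c c_o(y^(m-1) n y) = c χ(deg o)⁻¹ c_o(y^m n)` modulo `p` (`cy`), and
`1 - χ(x (deg o)⁻¹)` is a unit: `c_o(y^m n) = 0` modulo `p`, so in `fr` only `i = l-1` remains.
`d_o(y^(l-1-i) n y^(l-1-k)) = c^k d_o(y^(2l-2-i-k) n)`, `0` for `i + k < l-1`; with `s = i + k - (l-1)` the part of
`o` in `fr` is `∑_s d_o(y^(l-1-s) n) ∑_(k=s)^(l-1) c^k y^(l-1+s-k) h_o y^k`, and the inner sum is
`c^s T(h_o y^s)` (put `j = l-1+s-k`).  So `κ n = n` modulo `p` by `fr`. -/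
def KexStmt : Prop :=
  ∀ (R Γ W N X Ω Ω' : Type) [CommRing R] [CommRing Γ] [Algebra R Γ] [CommGroup W] [Fintype W]
    [AddCommGroup N] [Module R N] [Group X] [Fintype Ω] [Fintype Ω'] [MulAction (W × W) Ω]
    [MulAction (W × W) Ω'] (l : ℕ) (G : GY R Γ W l) (χ : X →* R) (B : BiM R Γ N)
    (_ : YFr Ω Ω' G χ B LinearMap.id), 2 ≤ l → (∀ x, χ x ^ (l - 1) = 1) →
    (∀ x, x ≠ 1 → IsUnit (1 - χ x)) →
    ∀ x : X, ∃ κ : N →ₗ[R] N, (∀ w n, κ (wrp G.om B w n) = wrp G.om B w (κ n)) ∧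
      (∀ n, B.lm G.y (κ n) = χ x • B.rm (op G.y) (κ n)) ∧
      ∀ (p : R) (n : N), (∃ m, B.lm G.y n - χ x • B.rm (op G.y) n = p • m) →
        ∃ m, κ n - n = p • m

/-- KEF: families which are equivariant (and twisted) modulo `p` lift.

Proof.  `ρ = (wrp G.om B).comp π`; `FPl p ρ`: YFP for the image `S.map π` of a subgroup `S`.  `EqfStmt`
gives the first part.  Second part: compose with the `κ` of KEX for `x = deg i` (`deg` is invariant):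
`m'' i = κ_(deg i) (m' i)`; it is congruent to `m' i`, since `m' i` is twisted modulo `p`. -/
def KefStmt : Prop :=
  ∀ (R Γ W N X Ω Ω' H I : Type) [CommRing R] [CommRing Γ] [Algebra R Γ] [CommGroup W] [Fintype W]
    [AddCommGroup N] [Module R N] [Group X] [Fintype Ω] [Fintype Ω'] [MulAction (W × W) Ω]
    [MulAction (W × W) Ω'] [Group H] [MulAction H I] (l : ℕ) (G : GY R Γ W l) (χ : X →* R)
    (B : BiM R Γ N) (_ : YFr Ω Ω' G χ B LinearMap.id) (π : H →* W × W) (deg : I → X) (p : R)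
    (m : I → N), 2 ≤ l → (∀ x, χ x ^ (l - 1) = 1) → (∀ x, x ≠ 1 → IsUnit (1 - χ x)) →
    (∀ (h : H) (i : I), deg (h • i) = deg i) →
    (∀ (h : H) (i : I), ∃ x, m (h • i) - wrp G.om B (π h) (m i) = p • x) →
    (∃ m' : I → N, (∀ (h : H) (i : I), m' (h • i) = wrp G.om B (π h) (m' i)) ∧
      ∀ i, ∃ x, m' i - m i = p • x) ∧
    ((∀ i, ∃ x, B.lm G.y (m i) - χ (deg i) • B.rm (op G.y) (m i) = p • x) →
      ∃ m' : I → N, (∀ (h : H) (i : I), m' (h • i) = wrp G.om B (π h) (m' i)) ∧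
        (∀ i, B.lm G.y (m' i) = χ (deg i) • B.rm (op G.y) (m' i)) ∧
        ∀ i, ∃ x, m' i - m i = p • x)

/-! ## Lifting of homomorphisms -/

/-- HOY: homomorphisms from families.

Proof.  `y`: `c_o(y^(l-1-i) y n) = c_o(y^(l-1-(i-1)) n)` (`0` for `i = 0`), `c_o(y^m n y) = χ⁻¹ c_o(y^(m+1) n)`,
`y^i m_o y = χ⁻¹ y^(i+1) m_o`.  The `om w`: `cw`, `dw`, reindex (`wrp` for `(w, 1)` and `(1, w)`).  Every `γ` is a
combination of the `y^k om w`. -/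
def HoyStmt : Prop :=
  ∀ (R Γ W N N' X Ω Ω' : Type) [CommRing R] [CommRing Γ] [Algebra R Γ] [CommGroup W] [Fintype W]
    [AddCommGroup N] [Module R N] [AddCommGroup N'] [Module R N'] [Group X] [Fintype Ω]
    [Fintype Ω'] [MulAction (W × W) Ω] [MulAction (W × W) Ω'] (l : ℕ) (G : GY R Γ W l)
    (χ : X →* R) (B : BiM R Γ N) (B' : BiM R Γ N') (q : N →ₗ[R] N) (F : YFr Ω Ω' G χ B q)
    (m : Ω → N') (m' : Ω' → N'), 1 ≤ l →
    (∀ (w : W × W) (o : Ω), m (w • o) = wrp G.om B' w (m o)) →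
    (∀ o, B'.lm G.y (m o) = χ (F.deg o) • B'.rm (op G.y) (m o)) →
    (∀ (w : W × W) (o : Ω'), m' (w • o) = wrp G.om B' w (m' o)) →
    ∃ g : N →ₗ[R] N', BHom B B' g ∧ ∀ n, g n =
      ∑ o, ∑ i ∈ Finset.range l, F.c o (B.lm (G.y ^ (l - 1 - i)) n) • B'.lm (G.y ^ i) (m o) +
      ∑ o, ∑ i ∈ Finset.range l, ∑ k ∈ Finset.range l,
        F.d o (B.lm (G.y ^ (l - 1 - i)) (B.rm (op (G.y ^ (l - 1 - k))) n)) •
          B'.lm (G.y ^ i) (B'.rm (op (G.y ^ k)) (m' o))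

/-- LHY: homomorphisms modulo `p` lift.

Proof.  `g` a homomorphism modulo `p`.  The families `g (g_o)`, `g (h_o)` are equivariant modulo `p`, and
`y g(g_o) = χ(deg o) g(g_o) y` modulo `p`.  KEF (`H = W × W`, `π = id`, for `FN`), HOY for `FX`: `g'`.
By `fr` of `FX` (`q = id`) `g n = ∑ c_o(..) y^i g(g_o) + .. = g' n` modulo `p`. -/
def LhyStmt : Prop :=
  ∀ (R Γ W M N X Ω Ω' Ω1 Ω1' : Type) [CommRing R] [CommRing Γ] [Algebra R Γ] [CommGroup W]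
    [Fintype W] [AddCommGroup M] [Module R M] [AddCommGroup N] [Module R N] [Group X]
    [Fintype Ω] [Fintype Ω'] [MulAction (W × W) Ω] [MulAction (W × W) Ω'] [Fintype Ω1]
    [Fintype Ω1'] [MulAction (W × W) Ω1] [MulAction (W × W) Ω1'] (l : ℕ) (G : GY R Γ W l)
    (χ : X →* R) (BX : BiM R Γ M) (BN : BiM R Γ N) (_ : YFr Ω Ω' G χ BX LinearMap.id)
    (_ : YFr Ω1 Ω1' G χ BN LinearMap.id) (p : R), 2 ≤ l → (∀ x, χ x ^ (l - 1) = 1) →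
    (∀ x, x ≠ 1 → IsUnit (1 - χ x)) → Lif1 p BX BN

/-- LRC: the rules of the coordinates `L`, `Rr` over `R[y]`.

Proof.  (1) `fr`; `rm (op (χ^i r • y^i)) g_o = r • y^i g_o`, because `g_o y^i = χ^(-i) y^i g_o` (`gy`).
(2), (3) `c_o(y^(l-1-i) y n) = c_o(y^(l-1-(i-1)) n)`, `y · (term i-1) = term i`, and `y · y^(l-1) = 0`.
(4) For `o`: `c_o(y^m n y) = χ⁻¹ c_o(y^(m+1) n)`, so `L (n y) o = χ⁻¹ y L n o`; for `(o, k)`: `n y y^(l-1-k)` is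
`n y^(l-1-(k-1))` for `k ≥ 1`, `0` for `k = 0`.  (5) `Rr (y n) o = ∑ χ^i c_o(y^(l-i) n) y^i = χ y Rr n o`; for
`(o, k)`: `y^(l-1-k) y n`.  (6) `cw`, `dw`. -/
def LrcStmt : Prop :=
  ∀ (R Γ W N X Ω Ω' : Type) [CommRing R] [CommRing Γ] [Algebra R Γ] [CommGroup W] [Fintype W]
    [AddCommGroup N] [Module R N] [Group X] [Fintype Ω] [Fintype Ω'] [MulAction (W × W) Ω]
    [MulAction (W × W) Ω'] (l : ℕ) (G : GY R Γ W l) (χ : X →* R) (B : BiM R Γ N)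
    (q : N →ₗ[R] N) (F : YFr Ω Ω' G χ B q), 1 ≤ l →
    (∀ n, ∑ ξ, B.lm (F.L n ξ) (F.gl ξ) = q n) ∧ (∀ n, ∑ ξ, B.rm (op (F.Rr n ξ)) (F.gr ξ) = q n) ∧
    (∀ n ξ, F.L (B.lm G.y n) ξ = G.y * F.L n ξ) ∧
    (∀ n ξ, F.Rr (B.rm (op G.y) n) ξ = F.Rr n ξ * G.y) ∧
    (∀ n ξ, F.L (B.rm (op G.y) n) ξ = ∑ η, pP G χ F.deg η ξ * F.L n η) ∧
    (∀ n ξ, F.Rr (B.lm G.y n) ξ = ∑ η, pQ G χ F.deg ξ η * F.Rr n η) ∧
    (∀ (w : W × W) n ξ, F.L (wrp G.om B w n) (xa l w ξ) = F.L n ξ) ∧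
    (∀ (w : W × W) n ξ, F.Rr (wrp G.om B w n) (xa l w ξ) = F.Rr n ξ) ∧
    (∀ (a b : N) ξ, F.L (a + b) ξ = F.L a ξ + F.L b ξ ∧ F.Rr (a + b) ξ = F.Rr a ξ + F.Rr b ξ) ∧
    ∀ (r : R) (a : N) ξ, F.L (r • a) ξ = r • F.L a ξ ∧ F.Rr (r • a) ξ = r • F.Rr a ξ

/-- BBY: balanced bilinear maps from families.

Proof.  `β n n' = ∑_(ξ,ξ') L(n)_ξ μ(ξ,ξ') Rr(n')_ξ'`.  `Bal2` has to be checked for `γ = y` and `γ = om w` only (`ex`).
Left `y`: `L1`; right `y`: `R1`; balanced `y`: `∑_(ξ,ξ') L(n y)_ξ μ(ξ,ξ') Rr(n')_ξ' =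
∑_(η,ξ') L(n)_η (∑_ξ P(η,ξ) μ(ξ,ξ')) Rr(n')_ξ'` (`L2`) `= ∑ L(n)_η (∑_ξ μ(η,ξ) Q(ξ,ξ')) Rr(n')_ξ' =
∑_(η,ξ) L(n)_η μ(η,ξ) Rr(y n')_ξ` (`M2`, `R2`).
`om w`: `om u n = wrp (u,1) n`; reindex `ξ` by `xw (u,1)` (`hx`), `L3`, and
`μ (xw (u,1) ξ) ξ' = μ (xw (u,1) ξ) (xw (1,1) ξ') = u μ(ξ,ξ')` (`x1`, `M1`); right in the same way;
balanced: `n v⁻¹ = wrp (1,v) n`, `μ (xw (1,v) ξ) ξ' = μ (xw (1,v) ξ) (xw (v,1) ξ'')` with `ξ' = xw (v,1) ξ''` (bijective),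
`= μ ξ ξ''`, and `Rr(n')_(xw (v,1) ξ'') = Rr(v⁻¹ n')_ξ''` (`R3` for `n' = wrp (v,1) (v⁻¹ n')`). -/
def BbyStmt : Prop :=
  ∀ (R Γ W M N Ξ : Type) [CommRing R] [CommRing Γ] [Algebra R Γ] [CommGroup W] [Fintype W]
    [AddCommGroup M] [Module R M] [AddCommGroup N] [Module R N] [Fintype Ξ] (l : ℕ)
    (G : GY R Γ W l) (BX : BiM R Γ M) (BN : BiM R Γ N) (xw : W × W → Ξ → Ξ)
    (L Rr : M →ₗ[R] (Ξ → Γ)) (P Q : Ξ → Ξ → Γ) (μ : Ξ → Ξ → N),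
    (∀ w, Function.Bijective (xw w)) → (∀ ξ, xw 1 ξ = ξ) →
    (∀ n ξ, L (BX.lm G.y n) ξ = G.y * L n ξ) →
    (∀ n ξ, Rr (BX.rm (op G.y) n) ξ = Rr n ξ * G.y) →
    (∀ n ξ, L (BX.rm (op G.y) n) ξ = ∑ η, P η ξ * L n η) →
    (∀ n ξ, Rr (BX.lm G.y n) ξ = ∑ η, Q ξ η * Rr n η) →
    (∀ (w : W × W) n ξ, L (wrp G.om BX w n) (xw w ξ) = L n ξ) →
    (∀ (w : W × W) n ξ, Rr (wrp G.om BX w n) (xw w ξ) = Rr n ξ) →
    (∀ (u v w : W) ξ ξ', μ (xw (u, v) ξ) (xw (v, w) ξ') = wrp G.om BN (u, w) (μ ξ ξ')) →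
    (∀ η ξ', ∑ ξ, BN.lm (P η ξ) (μ ξ ξ') = ∑ ξ, BN.rm (op (Q ξ ξ')) (μ η ξ)) →
    ∃ β : M →ₗ[R] M →ₗ[R] N, Bal2 BX BN β ∧
      ∀ n n', β n n' = ∑ ξ, ∑ ξ', BN.lm (L n ξ) (BN.rm (op (Rr n' ξ')) (μ ξ ξ'))

/-- MFY: the family which belongs to a balanced map modulo `p`.

Proof.  `c_o = χ(deg o)`.  The group `H = W × W × W` acts: `(u,v,w) (o,o') = ((u,v) o, (v,w) o')`,
`π (u,v,w) = (u,w)`.  KEF (for `N`) gives lifts
`m11 (o,o')` of `β(g_o, g_o')` (twisted of degree `deg o * deg o'`: `y β(g_o,g_o') = β(y g_o, g_o') =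
c_o β(g_o y, g_o') = c_o β(g_o, y g_o') = c_o c_o' β(g_o,g_o') y`),
`m12 (o,o')` of `β(g_o, h_o')`, `m21` of `β(h_o, g_o')`, and for every `k < l` `m22 k (o,o')` of `β(h_o y^k, h_o')`
(equivariant only), `m22 k = 0` for `k ≥ l`.  Put
`μ o o' = m11`, `μ o (o',k') = c_o^(-k') y^k' m12`, `μ (o,k) o' = c_o'^k m21 y^k`, `μ (o,k) (o',k') = m22 (k+k')`.
Equivariance: clear (`dg`).  Balanced, `P μ = μ Q` at `(η,ξ')`:
`(o,o')`: `c_o⁻¹ y m11 = c_o' m11 y` (twisted).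
`(o,(o',k'))`: left `c_o⁻¹ y c_o^(-k') y^k' m12`, right `μ o (o',k'+1)` for `k'+1 < l`, and `0` for `k'+1 = l` (`y^l = 0`).
`((o,k),o')`: left `μ (o,k+1) o'` or `0`, right `c_o' μ (o,k) o' y = c_o'^(k+1) m21 y^(k+1)`.
`((o,k),(o',k'))`: left `m22 (k+1+k')` or (for `k+1 = l`) `0`; right `m22 (k+k'+1)` or (for `k'+1 = l`) `0`; all
equal since `m22 = 0` from `l` on.
Congruence: `β(g_o, y^k' h_o') = β(g_o y^k', h_o') = c_o^(-k') y^k' β(g_o,h_o')`, `β(h_o y^k, g_o') = β(h_o, y^k g_o') =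
c_o'^k β(h_o,g_o') y^k`, `β(h_o y^k, y^k' h_o') = β(h_o y^(k+k'), h_o')`, all modulo `p`. -/
def MfyStmt : Prop :=
  ∀ (R Γ W M N X Ω Ω' Ω1 Ω1' : Type) [CommRing R] [CommRing Γ] [Algebra R Γ] [CommGroup W]
    [Fintype W] [AddCommGroup M] [Module R M] [AddCommGroup N] [Module R N] [Group X]
    [Fintype Ω] [Fintype Ω'] [MulAction (W × W) Ω] [MulAction (W × W) Ω'] [Fintype Ω1]
    [Fintype Ω1'] [MulAction (W × W) Ω1] [MulAction (W × W) Ω1'] (l : ℕ) (G : GY R Γ W l)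
    (χ : X →* R) (BX : BiM R Γ M) (BN : BiM R Γ N) (FX : YFr Ω Ω' G χ BX LinearMap.id)
    (_ : YFr Ω1 Ω1' G χ BN LinearMap.id) (p : R) (β : M →ₗ[R] M →ₗ[R] N), 2 ≤ l →
    (∀ x, χ x ^ (l - 1) = 1) → (∀ x, x ≠ 1 → IsUnit (1 - χ x)) → Bal2P p BX BN β →
    ∃ μ : Ω ⊕ (Ω' × Fin l) → Ω ⊕ (Ω' × Fin l) → N,
      (∀ (u v w : W) ξ ξ', μ (xa l (u, v) ξ) (xa l (v, w) ξ') = wrp G.om BN (u, w) (μ ξ ξ')) ∧
      (∀ η ξ', ∑ ξ, BN.lm (pP G χ FX.deg η ξ) (μ ξ ξ') =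
        ∑ ξ, BN.rm (op (pQ G χ FX.deg ξ ξ')) (μ η ξ)) ∧
      ∀ ξ ξ', ∃ n, μ ξ ξ' - β (FX.gl ξ) (FX.gr ξ') = p • n

/-- LBY: balanced maps modulo `p` lift.

Proof.  LRC for `FX`, MFY, BBY (`xw = xa l`, `P = pP`, `Q = pQ`): `β'`.  Congruence: `β n n' =
β (∑ L(n)_ξ gl_ξ) (∑ gr_ξ' Rr(n')_ξ') = ∑ L(n)_ξ β(gl_ξ, gr_ξ') Rr(n')_ξ'` modulo `p` (LRC (1)). -/
def LbyStmt : Prop :=
  ∀ (R Γ W M N X Ω Ω' Ω1 Ω1' : Type) [CommRing R] [CommRing Γ] [Algebra R Γ] [CommGroup W]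
    [Fintype W] [AddCommGroup M] [Module R M] [AddCommGroup N] [Module R N] [Group X]
    [Fintype Ω] [Fintype Ω'] [MulAction (W × W) Ω] [MulAction (W × W) Ω'] [Fintype Ω1]
    [Fintype Ω1'] [MulAction (W × W) Ω1] [MulAction (W × W) Ω1'] (l : ℕ) (G : GY R Γ W l)
    (χ : X →* R) (BX : BiM R Γ M) (BN : BiM R Γ N) (_ : YFr Ω Ω' G χ BX LinearMap.id)
    (_ : YFr Ω1 Ω1' G χ BN LinearMap.id) (p : R), 2 ≤ l → (∀ x, χ x ^ (l - 1) = 1) →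
    (∀ x, x ≠ 1 → IsUnit (1 - χ x)) → Lif2 p BX BN

/-- LFY: a framed bimodule is liftable.  From LHY, LBY with `N = X` and `N = Γ` (GFR). -/
def LfyStmt : Prop :=
  ∀ (R Γ W M X Ω Ω' : Type) [CommRing R] [CommRing Γ] [Algebra R Γ] [CommGroup W]
    [Fintype W] [AddCommGroup M] [Module R M] [Group X]
    [Fintype Ω] [Fintype Ω'] [MulAction (W × W) Ω] [MulAction (W × W) Ω'] (l : ℕ)
    (G : GY R Γ W l) (χ : X →* R) (BX : BiM R Γ M) (_ : YFr Ω Ω' G χ BX LinearMap.id) (p : R),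
    2 ≤ l → (∀ x, χ x ^ (l - 1) = 1) → (∀ x, x ≠ 1 → IsUnit (1 - χ x)) → Lft p BX

/-! ## Frames and the lift -/

/-- SPY: a framed complement is a retract of the bimodule with the same basis.

Proof.  `i` = the homomorphism of HOY for the frame `F` of `A` and the families `FX.g`, `FX.h`; `p` = the
one of HOY for `FX` and the families `F.g`, `F.h`.  `i a = FX.el (coordinates of a)`, so by `un1`, `un2`
`p (i a) = F.el (coordinates of a) = a - j (pr a)` (`F.fr`). -/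
def SpyStmt : Prop :=
  ∀ (R Γ W A M X Ω Ω' : Type) [CommRing R] [CommRing Γ] [Algebra R Γ] [CommGroup W]
    [Fintype W] [Ring A] [Algebra R A] [AddCommGroup M] [Module R M] [Group X]
    [Fintype Ω] [Fintype Ω'] [MulAction (W × W) Ω] [MulAction (W × W) Ω'] (l : ℕ)
    (G : GY R Γ W l) (χ : X →* R) (j : Γ →ₐ[R] A) (pr : A →ₗ[R] Γ)
    (F : YFr Ω Ω' G χ (AB j) (LinearMap.id - j.toLinearMap ∘ₗ pr)) (BX : BiM R Γ M)
    (FX : YBs Ω Ω' G χ BX), 1 ≤ l → (∀ γ, pr (j γ) = γ) → (∀ γ a, pr (j γ * a) = γ * pr a) →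
    (∀ a γ, pr (a * j γ) = pr a * γ) → F.deg = FX.deg →
    ∃ sp : SplitX A BX, sp.j = j ∧ sp.pr = pr

/-- FRT: transport of a frame.

Proof.  `g' = p ∘ g`, `h' = p ∘ h`, `c' o = c o ∘ i`, `d' o = d o ∘ i`. -/
def FrtStmt : Prop :=
  ∀ (R Γ W N N' X Ω Ω' : Type) [CommRing R] [CommRing Γ] [Algebra R Γ] [CommGroup W] [Fintype W]
    [AddCommGroup N] [Module R N] [AddCommGroup N'] [Module R N'] [Group X] [Fintype Ω]
    [Fintype Ω'] [MulAction (W × W) Ω] [MulAction (W × W) Ω'] (l : ℕ) (G : GY R Γ W l)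
    (χ : X →* R) (B : BiM R Γ N) (B' : BiM R Γ N') (q : N →ₗ[R] N) (_ : YFr Ω Ω' G χ B q)
    (i : N' →ₗ[R] N) (p : N →ₗ[R] N'), BHom B' B i → BHom B B' p →
    Nonempty (YFr Ω Ω' G χ B' (p ∘ₗ q ∘ₗ i))

/-- FRS: the sum of two frames.

Proof.  `Ω = Ω1 ⊕ Ω2`, `Ω' = Ω1' ⊕ Ω2'`. -/
def FrsStmt : Prop :=
  ∀ (R Γ W N X Ω1 Ω1' Ω2 Ω2' : Type) [CommRing R] [CommRing Γ] [Algebra R Γ] [CommGroup W]
    [Fintype W] [AddCommGroup N] [Module R N] [Group X] [Fintype Ω1] [Fintype Ω1']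
    [MulAction (W × W) Ω1] [MulAction (W × W) Ω1'] [Fintype Ω2] [Fintype Ω2']
    [MulAction (W × W) Ω2] [MulAction (W × W) Ω2'] (l : ℕ) (G : GY R Γ W l) (χ : X →* R)
    (B : BiM R Γ N) (q1 q2 : N →ₗ[R] N) (_ : YFr Ω1 Ω1' G χ B q1) (_ : YFr Ω2 Ω2' G χ B q2),
    ∃ (Ω Ω' : Type) (_ : Fintype Ω) (_ : Fintype Ω') (_ : MulAction (W × W) Ω)
      (_ : MulAction (W × W) Ω'), Nonempty (YFr Ω Ω' G χ B (q1 + q2))

/-- FRA: the deformation has a frame.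

Proof.  `j = df.sp.j` etc., `fb = df.fb`, `cj`, `cp` of `df`.  Frame: GFR and FRT with `i = pr`, `p = j`
(`AB j`, `regB`): frame for `j ∘ pr`; FRT with `i = df.sp.i`, `p = df.sp.p`: frame for `p ∘ i = id - j ∘ pr`; FRS. -/
def FraStmt : Prop :=
  ∀ (R F Γ Γ0 W A A1 X M M0 Ω Ω' : Type) [CommRing R] [Field F] (c : Cdv R F) [CommRing Γ]
    [Algebra R Γ] [CommRing Γ0] [Algebra F Γ0] [CommGroup W] [Fintype W] [Ring A] [Algebra F A]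
    [Ring A1] [Algebra R A1] [Group X] [AddCommGroup M] [Module R M] [AddCommGroup M0]
    [Module F M0] [Fintype Ω] [Fintype Ω'] [MulAction (W × W) Ω] [MulAction (W × W) Ω'] (l : ℕ)
    (G : GY R Γ W l) (χ : X →* R) (f : FibG Γ Γ0 c) (BX : BiM R Γ M) (B0 : BiM F Γ0 M0)
    (sp0 : SplitX A B0) (_ : YFr Ω Ω' G χ BX LinearMap.id) (_ : DfmX A A1 c f BX B0 sp0), 1 ≤ l →
    ∃ (Ω1 Ω1' : Type) (_ : Fintype Ω1) (_ : Fintype Ω1') (_ : MulAction (W × W) Ω1)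
      (_ : MulAction (W × W) Ω1'), Nonempty (LY A1 Ω1 Ω1' G χ f sp0.j sp0.pr)

/-- LYE: the lift exists (assembly).

Proof.  XEX over `R` and over `F` for `deg = fl.fr.deg`; XRD; LFY (over `R`, with `YBs.toYFr`), SPY over `F`
(`sp0`, `sp0.j = fl.j`, `sp0.pr = fl.pr`), `ExxStmt` with `fl.sep`, FRA. -/
def LyeStmt : Prop :=
  ∀ (R F Γ Γ0 W A X N K Ω Ω' : Type) [CommRing R] [IsDomain R] [IsPrincipalIdealRing R]
    [Field F] (c : Cdv R F) [CommRing Γ] [Algebra R Γ] [Module.Finite R Γ] [Module.Free R Γ]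
    [CommRing Γ0] [Algebra F Γ0] [CommGroup W] [Fintype W] [Ring A] [Algebra F A] [Group X]
    [Fintype N] [Fintype K] [Fintype Ω] [Fintype Ω'] [MulAction (W × W) Ω]
    [MulAction (W × W) Ω'] (l : ℕ) (G : GY R Γ W l) (G0 : GY F Γ0 W l) (f : FibG Γ Γ0 c)
    (χ : X →* R) (χ0 : X →* F) (fl : FLv A N K Ω Ω' G0 χ0), 2 ≤ l →
    f.q G.y = G0.y → (∀ w, f.q (G.om w) = G0.om w) → (∀ x, c.κ (χ x) = χ0 x) →
    (∀ x, χ x ^ (l - 1) = 1) → (∀ x, x ≠ 1 → IsUnit (1 - χ x)) →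
    ∃ (A1 : Type) (_ : Ring A1) (_ : Algebra R A1) (_ : Module.Finite R A1)
      (_ : Module.Free R A1) (Ω1 Ω1' : Type) (_ : Fintype Ω1) (_ : Fintype Ω1')
      (_ : MulAction (W × W) Ω1) (_ : MulAction (W × W) Ω1'),
      Nonempty (LY A1 Ω1 Ω1' G χ f fl.j fl.pr)

/-- NXO: twisted elements lift.

Proof.  Choose `a1` with `fb.q a1 = a0`; `y a1 - χ(x) a1 y` is in the kernel of `fb.q`, so in `π A1`
(`fb.ker`).  KEX for `ly.fr` (`B = AB j`, `lm y a = j y * a`): `a = κ a1`, `fb.q a = fb.q a1`. -/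
def NxoStmt : Prop :=
  ∀ (R F Γ Γ0 W A A1 X Ω Ω' : Type) [CommRing R] [Field F] (c : Cdv R F) [CommRing Γ]
    [Algebra R Γ] [CommRing Γ0] [Algebra F Γ0] [CommGroup W] [Fintype W] [Ring A] [Algebra F A]
    [Ring A1] [Algebra R A1] [Group X] [Fintype Ω] [Fintype Ω'] [MulAction (W × W) Ω]
    [MulAction (W × W) Ω'] (l : ℕ) (G : GY R Γ W l) (f : FibG Γ Γ0 c) (χ : X →* R)
    (χ0 : X →* F) (j0 : Γ0 →ₐ[F] A) (pr0 : A →ₗ[F] Γ0) (ly : LY A1 Ω Ω' G χ f j0 pr0), 2 ≤ l →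
    (∀ x, c.κ (χ x) = χ0 x) → (∀ x, χ x ^ (l - 1) = 1) → (∀ x, x ≠ 1 → IsUnit (1 - χ x)) →
    ∀ x, ∀ a0 ∈ Nx (ly.fb.q (ly.j G.y)) χ0 x, ∃ a ∈ Nx (ly.j G.y) χ x, ly.fb.q a = a0

/-- CLY: the centraliser of `Γ0` lifts.

Proof.  Choose `a1` with `fb.q a1 = x0`.  `om w a1 om w⁻¹ - a1`, `y a1 - a1 y` are in `π A1` (`fb.ker`).
`FPl` (YFP) for the subgroup `{(w,w)}` of `W × W`: `a2` commutes with the `om w`, `a2 - a1 ∈ π A1`.  KEX for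
`x = 1` (`χ 1 = 1`): `κ a2` commutes with `y` and with the `om w` (equivariance), so with `Γ` (`G.ex`). -/
def ClyStmt : Prop :=
  ∀ (R F Γ Γ0 W A A1 X Ω Ω' : Type) [CommRing R] [Field F] (c : Cdv R F) [CommRing Γ]
    [Algebra R Γ] [CommRing Γ0] [Algebra F Γ0] [CommGroup W] [Fintype W] [Ring A] [Algebra F A]
    [Ring A1] [Algebra R A1] [Group X] [Fintype Ω] [Fintype Ω'] [MulAction (W × W) Ω]
    [MulAction (W × W) Ω'] (l : ℕ) (G : GY R Γ W l) (f : FibG Γ Γ0 c) (χ : X →* R)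
    (j0 : Γ0 →ₐ[F] A) (pr0 : A →ₗ[F] Γ0) (ly : LY A1 Ω Ω' G χ f j0 pr0), 2 ≤ l →
    (∀ x, χ x ^ (l - 1) = 1) → (∀ x, x ≠ 1 → IsUnit (1 - χ x)) →
    ∀ x0 : A, (∀ γ, j0 γ * x0 = x0 * j0 γ) →
      ∃ x : A1, (∀ γ, ly.j γ * x = x * ly.j γ) ∧ ly.fb.q x = x0

/-- ORY: the orthogonal projection (the proof of PFD ORT, with `D` from GWF; `Γ` is commutative).

Proof.  `t' γ = tA (j γ) = D.lam (u γ)` (`LcuStmt`).  `D0` = reduction of `D` (`RwfStmt`):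
`D0.lam (f.q u * f.q γ) = κ (tA (j γ)) = mu (j0 (f.q γ))`, and `f.q u` is a unit: if `f.q u * γ = 0` then
`mu (j0 γ * a) = mu (j0 (γ * pr0 a)) = 0` for all `a`, so `γ = 0`; `Γ0` is finite-dimensional.  So `u` is a
unit (`UnmStmt` for `f`), `u u' = 1`.  `e a = ∑_s tA (a * j (b_s)) • b'_s` (`b = D.fs.b`), `pr' a = u' * e a`,
a bimodule map with `pr' (j γ) = γ`, `D.lam (u * pr' a) = tA a`; `f.q (pr' a) = pr0 (fb.q a)`: both `y` satisfy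
`D0.lam (f.q u * y * f.q γ) = mu (fb.q a * j0 (f.q γ))`.  `fb`, `j`, `fr` are the same. -/
def OryStmt : Prop :=
  ∀ (R F Γ Γ0 W A A1 X Ω Ω' : Type) [CommRing R] [Field F] (c : Cdv R F) [CommRing Γ]
    [Algebra R Γ] [Module.Finite R Γ] [Module.Free R Γ] [CommRing Γ0] [Algebra F Γ0]
    [FiniteDimensional F Γ0] [CommGroup W] [Fintype W] [Ring A] [Algebra F A]
    [Ring A1] [Algebra R A1] [Group X] [Fintype Ω] [Fintype Ω'] [MulAction (W × W) Ω]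
    [MulAction (W × W) Ω'] (l : ℕ) (G : GY R Γ W l) (f : FibG Γ Γ0 c) (χ : X →* R)
    (j0 : Γ0 →ₐ[F] A) (pr0 : A →ₗ[F] Γ0) (mu : A →ₗ[F] F) (ly : LY A1 Ω Ω' G χ f j0 pr0)
    (tA : A1 →ₗ[R] R), 1 ≤ l →
    (∀ γ, pr0 (j0 γ) = γ) → (∀ γ a, pr0 (j0 γ * a) = γ * pr0 a) →
    (∀ a γ, pr0 (a * j0 γ) = pr0 a * γ) →
    (∀ a b, mu (a * b) = mu (b * a)) → (∀ a, mu (j0 (pr0 a)) = mu a) →
    (∀ a, (∀ b, mu (a * b) = 0) → a = 0) →
    (∀ a b, tA (a * b) = tA (b * a)) → (∀ a, c.κ (tA a) = mu (ly.fb.q a)) →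
    ∃ (ly' : LY A1 Ω Ω' G χ f j0 pr0) (u u' : Γ), ly'.fb = ly.fb ∧ ly'.j = ly.j ∧
      u * u' = 1 ∧ ∀ a, tA a = G.co (l - 1) 1 (u * ly'.pr a)

/-- LZE: the final lift (assembly, the proof of PFD LRX).

Proof.  `D` from GWF.  RFL for `ly`: `s`; `s.rt 1` reduces to `∑ x_k * j0 1 * y_k`, a unit by `unt` for `w = 1`
(UNM).  ULF: `u` (its hypothesis on central elements: `f.surj`, commutative).  FRM: `tA`.  ORY: `ly'`, `u1`,
`u1'`.  RFL for `ly'`: `s'`; `s'.rt 1`, `s'.rt (j u1')` are units by `unt` (`f.q u1'` is a unit) and UNM. -/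
def LzeStmt : Prop :=
  ∀ (R F Γ Γ0 W A A1 X N K Ω Ω' Ω1 Ω1' : Type) [CommRing R] [Field F] (c : Cdv R F)
    [CommRing Γ] [Algebra R Γ] [Module.Finite R Γ] [Module.Free R Γ] [CommRing Γ0]
    [Algebra F Γ0] [FiniteDimensional F Γ0] [CommGroup W] [Fintype W] [Ring A] [Algebra F A]
    [Ring A1] [Algebra R A1] [Module.Finite R A1] [Module.Free R A1] [Group X]
    [Fintype N] [Fintype K] [Fintype Ω] [Fintype Ω'] [MulAction (W × W) Ω]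
    [MulAction (W × W) Ω'] [Fintype Ω1] [Fintype Ω1'] [MulAction (W × W) Ω1]
    [MulAction (W × W) Ω1'] (l : ℕ) (G : GY R Γ W l) (G0 : GY F Γ0 W l) (f : FibG Γ Γ0 c)
    (χ : X →* R) (χ0 : X →* F) (fl : FLv A N K Ω Ω' G0 χ0)
    (_ : LY A1 Ω1 Ω1' G χ f fl.j fl.pr), 1 ≤ l →
    Nonempty (LZ A1 N Ω1 Ω1' G χ f fl.j fl.pr)

/-- ZOY: the centre of `A1` maps onto the centre of `A` (the proof of PFD ZON, with CLY).

Proof.  `z` central; by CLY there is `b` commuting with `j Γ`, `fb.q b = z`.  `rf.rt b` is central (RTC),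
`rf.rt 1` is a central unit with inverse `i`; `rf.rt b * i` is central and
`fb.q (rf.rt b) = z * fb.q (rf.rt 1)`. -/
def ZoyStmt : Prop :=
  ∀ (R F Γ Γ0 W A A1 X N Ω Ω' : Type) [CommRing R] [Field F] (c : Cdv R F) [CommRing Γ]
    [Algebra R Γ] [CommRing Γ0] [Algebra F Γ0] [CommGroup W] [Fintype W] [Ring A] [Algebra F A]
    [Ring A1] [Algebra R A1] [Group X] [Fintype N] [Fintype Ω] [Fintype Ω']
    [MulAction (W × W) Ω] [MulAction (W × W) Ω'] (l : ℕ) (G : GY R Γ W l) (f : FibG Γ Γ0 c)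
    (χ : X →* R) (j0 : Γ0 →ₐ[F] A) (pr0 : A →ₗ[F] Γ0) (lz : LZ A1 N Ω Ω' G χ f j0 pr0), 2 ≤ l →
    (∀ x, χ x ^ (l - 1) = 1) → (∀ x, x ≠ 1 → IsUnit (1 - χ x)) →
    ∀ z : A, (∀ a, z * a = a * z) → ∃ b : A1, (∀ a, b * a = a * b) ∧ lz.fb.q b = z

/-! ## The frame `Yd` over `R` -/

/-- FSY: the Frobenius system of `A1`.

Proof.  `D` from GWF.  `b (k, s) = x_k j(b_s)`, `b' (k, s) = j(u' b'_s) y_k` (`b = D.fs.b`, `x, y` of `rf`):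
`∑ tA (j(u' b'_s) y_k a) • x_k j(b_s) = ∑_k x_k j (∑_s D.lam (u u' b'_s pr(y_k a)) • b_s) =
∑_k x_k j (pr (y_k a)) = a` (`ort`, `pr_l`, `e1`), `h2` in the same way (`ts`). -/
def FsyStmt : Prop :=
  ∀ (R F Γ Γ0 W A A1 X N Ω Ω' : Type) [CommRing R] [Field F] (c : Cdv R F) [CommRing Γ]
    [Algebra R Γ] [CommRing Γ0] [Algebra F Γ0] [CommGroup W] [Fintype W] [Ring A] [Algebra F A]
    [Ring A1] [Algebra R A1] [Group X] [Fintype N] [Fintype Ω] [Fintype Ω']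
    [MulAction (W × W) Ω] [MulAction (W × W) Ω'] (l : ℕ) (G : GY R Γ W l) (f : FibG Γ Γ0 c)
    (χ : X →* R) (j0 : Γ0 →ₐ[F] A) (pr0 : A →ₗ[F] Γ0) (lz : LZ A1 N Ω Ω' G χ f j0 pr0), 1 ≤ l →
    ∃ d : FS R A1 (N × (Fin l × W)), d.lam = lz.tA

/-- YDR: the frame `Yd`.

Proof.  `g' o = ∑_p c_o (b_p) • b'_p`: `lam (g' o * a) = c_o (∑_p lam (b'_p a) b_p) = c_o a`; `h' o` in the same way.
`gy`: `gy` of the frame.  `g'y`: `lam (g' y a) = c_o (y a) = χ c_o (a y) = χ lam (g' a y) = χ lam (y g' a)`, and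
`lam` is nondegenerate (`h2`, `ts`).  `fr`: `fr` of the frame (`q = id`). -/
def YdrStmt : Prop :=
  ∀ (R F Γ Γ0 W A A1 X N J Ω Ω' : Type) [CommRing R] [Field F] (c : Cdv R F) [CommRing Γ]
    [Algebra R Γ] [CommRing Γ0] [Algebra F Γ0] [CommGroup W] [Fintype W] [Ring A] [Algebra F A]
    [Ring A1] [Algebra R A1] [Group X] [Fintype N] [Fintype J] [Fintype Ω] [Fintype Ω']
    [MulAction (W × W) Ω] [MulAction (W × W) Ω'] (l : ℕ) (G : GY R Γ W l) (f : FibG Γ Γ0 c)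
    (χ : X →* R) (j0 : Γ0 →ₐ[F] A) (pr0 : A →ₗ[F] Γ0) (lz : LZ A1 N Ω Ω' G χ f j0 pr0)
    (d : FS R A1 J), d.lam = lz.tA → 2 ≤ l →
    (∀ x, χ x ^ (l - 1) = 1) → (∀ x, x ≠ 1 → IsUnit (1 - χ x)) →
    ∃ D : Yd R A1 X J Ω Ω' (lz.j G.y) l χ, D.d = d ∧ D.deg = lz.fr.deg ∧ D.g = lz.fr.g ∧
      D.h = lz.fr.h ∧ (∀ o a, D.d.lam (D.g' o * a) = lz.fr.c o a) ∧
      ∀ o a, D.d.lam (D.h' o * a) = lz.fr.d o a

/-- RTW: the relative trace of `1` from `R[y]` is divisible by `|W|`.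

Proof.  `λ = D.d.lam = tA`.  `∑_w ∑_k x_k om w pi(om w⁻¹ u' y_k a) = ∑_k x_k j(∑_(w,i) co (l-1) 1 (u y^(l-1-i)
om w⁻¹ u' pr(y_k a)) y^i om w) = ∑_k x_k j(pr(y_k a)) = a` (GWF (`h1`), `u u' = 1`; `om w`, `u'`, `y` are written for
their images under `j`).  With `∑_r pi(a e_r) e'_r = a` (RTK): `RT 1 = ∑_r e_r e'_r =
∑_(k,w) x_k om w ∑_r pi(om w⁻¹ u' y_k e_r) e'_r = ∑_(k,w) x_k om w om w⁻¹ u' y_k = |W| ∑_k x_k u' y_k`. -/
def RtwStmt : Prop :=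
  ∀ (R F Γ Γ0 W A A1 X N J Ω Ω' Ω1 Ω1' : Type) [CommRing R] [Field F] (c : Cdv R F)
    [CommRing Γ] [Algebra R Γ] [CommRing Γ0] [Algebra F Γ0] [CommGroup W] [Fintype W] [Ring A]
    [Algebra F A] [Ring A1] [Algebra R A1] [Group X] [Fintype N] [Fintype J] [Fintype Ω]
    [Fintype Ω'] [MulAction (W × W) Ω] [MulAction (W × W) Ω'] [Fintype Ω1] [Fintype Ω1']
    (l : ℕ) (G : GY R Γ W l) (f : FibG Γ Γ0 c)
    (χ : X →* R) (j0 : Γ0 →ₐ[F] A) (pr0 : A →ₗ[F] Γ0) (lz : LZ A1 N Ω Ω' G χ f j0 pr0)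
    (D : Yd R A1 X J Ω1 Ω1' (lz.j G.y) l χ), D.d.lam = lz.tA →
    D.RT 1 = (Fintype.card W : R) • lz.rf.rt (lz.j lz.u')

/-- YGR: the group `W` in the frame.

Proof.  `om = j ∘ om`, `dg`, `fo`, `fo'`, `gw`, `hw` from `lz.fr` (`wrp G.om (AB j) (u,v) a = j(om u) * (a * j(om v⁻¹))`).
`gw'`: `λ(g'_(w o) (u a v⁻¹)) = c_(w o) (u a v⁻¹) = c_o a = λ(g'_o a) = λ((v g'_o u⁻¹) (u a v⁻¹))`, nondegenerate.
`rho = rf.rt (j u')`: RTW; central (RTC), a unit (`unu`). -/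
def YgrStmt : Prop :=
  ∀ (R F Γ Γ0 W A A1 X N J Ω Ω' : Type) [CommRing R] [Field F] (c : Cdv R F) [CommRing Γ]
    [Algebra R Γ] [CommRing Γ0] [Algebra F Γ0] [CommGroup W] [Fintype W] [Ring A] [Algebra F A]
    [Ring A1] [Algebra R A1] [Group X] [Fintype N] [Fintype J] [Fintype Ω] [Fintype Ω']
    [MulAction (W × W) Ω] [MulAction (W × W) Ω'] (l : ℕ) (G : GY R Γ W l) (f : FibG Γ Γ0 c)
    (χ : X →* R) (j0 : Γ0 →ₐ[F] A) (pr0 : A →ₗ[F] Γ0) (lz : LZ A1 N Ω Ω' G χ f j0 pr0)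
    (D : Yd R A1 X J Ω Ω' (lz.j G.y) l χ), D.d.lam = lz.tA → D.deg = lz.fr.deg →
    D.g = lz.fr.g → D.h = lz.fr.h → (∀ o a, D.d.lam (D.g' o * a) = lz.fr.c o a) →
    (∀ o a, D.d.lam (D.h' o * a) = lz.fr.d o a) →
    ∃ Y : YG W D, ∀ w, Y.om w = lz.j (G.om w)

end Pool.Agent.PFE
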