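import Pool.Agent.PFE.DefsS
import Pool.Agent.PFC.StmtsB4b
import Pool.Agent.PFC.StmtsB5a
import Pool.Agent.PFC.StmtsB5d

/-!
# Squad PFE, block S: the invariance of the graded algebra `S(A)` (helper79)

Goal: `dim Z(S(A')) = dim Z(S(A))` for the algebra `A'` of part (0), the corner of `N ⊗ A` at the local
idempotent `j`.  Definitions: `DefsS.lean`; `Fx`, `BK`, `IsTv`, `PS`, `bi`, `cj`, `tw`, `rst`: `PFC/DefsB4.lean`;
`PT`, `BrS`, `IA`, `ABr`, `BQ`, `CP`, `Mx`, `Rz`, `Cor`, `IA.tens`: `PFC/DefsB4b.lean`; `Cz`, `Frm`: `PFC/DefsP2.lean`;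
`QA`, `be`, `zin`: `PFC/StmtsB5a.lean`; `Cnr`: `PFC/StmtsB5b.lean`; `tns`: `PFC/StmtsB4b.lean` or its imports.

`bi F α w a = α w.1 * (a * α w.2⁻¹)`, so `tj F α i σ v a = α (i v) * (a * α (i (σ v))⁻¹)` (up to
`map_inv`), and `tj F α i 1 v a = cj F α (i v) a`.

Every row is to be proved in `Pool/Agent/HelperN_PFE/XXX.lean`, namespace `Pool.Agent.PFE.HN`.
-/

open scoped BigOperators TensorProduct

noncomputable section

namespace Pool.Agent.PFE.S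

open Pool.Agent.PFC Pool.Agent.PFE
open Pool.Agent.PFC.B5a (QA be zin)

/-- TWL: twisted fixed points and traces, formal rules.

Proof.  (1) `a ∈ N_σ` iff `v a = a σ(v)` for all `v` (multiply by `α (i (σ v))` from the right).
(2) `v a b = a σ(v) b = a b τ(σ(v))`, and `(τ * σ) v = τ (σ v)`.  (3) clear.  (4) `V` is commutative.
(5) The traces are fixed: `tj w (∑_v tj v a) = ∑_v tj (w v) a`.  (6) `a ∑_v v m τ(v)⁻¹ =
∑_w a σ(w) m τ(σ(w))⁻¹ = ∑_w w (a m) (τσ)(w)⁻¹` (`v = σ w`, a bijection).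
(7) `∑_v v m σ(v)⁻¹ b = ∑_v v m b τ(σ(v))⁻¹`.  (8) Check on pure tensors (`Algebra.TensorProduct.tmul_mul_tmul`).
(9), (10), (11) from (8).  60 lines. -/
def TwlStmt : Prop :=
  (∀ (F V V1 A : Type) [Field F] [CommGroup V] [CommGroup V1] [Fintype V1] [Ring A] [Algebra F A]
    (α : V →* A) (i : V1 →* V),
    (∀ (σ : MulAut V1) (a : A), a ∈ Nt F α i σ ↔ ∀ v, α (i v) * a = a * α (i (σ v))) ∧
    (∀ (σ τ : MulAut V1) (a b : A), a ∈ Nt F α i σ → b ∈ Nt F α i τ → a * b ∈ Nt F α i (τ * σ)) ∧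
    (1 : A) ∈ Nt F α i 1 ∧
    (∀ (σ : MulAut V1) (v : V) (a : A), a ∈ Nt F α i σ → α v * a ∈ Nt F α i σ ∧
      a * α v ∈ Nt F α i σ) ∧
    (∀ (σ : MulAut V1) (a : A), Tr F α i σ a ∈ Nt F α i σ) ∧
    (∀ (σ τ : MulAut V1) (a m : A), a ∈ Nt F α i σ → a * Tr F α i τ m = Tr F α i (τ * σ) (a * m)) ∧
    ∀ (σ τ : MulAut V1) (m b : A), b ∈ Nt F α i τ →
      Tr F α i σ m * b = Tr F α i (τ * σ) (m * b)) ∧
  ∀ (F V V1 : Type) [Field F] [CommGroup V] [CommGroup V1] [Fintype V1] (N X : IA F V)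
    (i : V1 →* V) (σ : MulAut V1),
    tj F (N.tens X).ι i σ = tns (tj F N.ι i σ) (tj F X.ι i σ) ∧
    (∀ (a : N.A) (x : X.A), a ∈ Nt F N.ι i σ → x ∈ Nt F X.ι i σ →
      (a ⊗ₜ[F] x : N.A ⊗[F] X.A) ∈ Nt F (N.tens X).ι i σ) ∧
    (∀ (a : N.A) (x : X.A), a ∈ Nt F N.ι i σ →
      Tr F (N.tens X).ι i σ (a ⊗ₜ[F] x : N.A ⊗[F] X.A) =
        (a ⊗ₜ[F] Tr F X.ι i σ x : N.A ⊗[F] X.A)) ∧
    ∀ (a : N.A) (x : X.A), x ∈ Nt F X.ι i σ →
      Tr F (N.tens X).ι i σ (a ⊗ₜ[F] x : N.A ⊗[F] X.A) =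
        (Tr F N.ι i σ a ⊗ₜ[F] x : N.A ⊗[F] X.A)

/-- PTT: relative traces for a subgroup `i.range` of prime order.

Proof.  A proper subgroup `K` of `i.range` is `⊥` (`Nat.card i.range = ℓ`, `Subgroup.card_dvd_of_le`,
`Nat.dvd_prime`, `Subgroup.eq_of_le_of_card_ge`).  A transversal `S` (`IsTv ⊥ i.range S`) is the set of all
elements of `i.range`, so `∑_(x ∈ S) = ∑_(v : V1)` of `i v` (`Finset.sum_bij` or `Finset.sum_image`; `i` injective).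
(1), (2): span induction, the sets `{∑_v ρ(i v) m}` and `{m ↦ ∑_v ρ(i v) h(ρ(i v)⁻¹ m)}` are
subspaces.  (3) the converse inclusion: `K = ⊥`, `S` = all elements; for `V1` of order `ℓ > 1` `⊥ < i.range`.
60 lines. -/
def PttStmt : Prop :=
  ∀ (ℓ : ℕ) [Fact ℓ.Prime] (F V V1 M : Type) [Field F] [CommGroup V] [Finite V] [CommGroup V1]
    [Fintype V1] [AddCommGroup M] [Module F M] (ρ : V →* (M →ₗ[F] M)) (i : V1 →* V),
    Nat.card V1 = ℓ → Function.Injective i →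
    (∀ x ∈ BK ρ i.range, ∃ m, x = ∑ v : V1, ρ (i v) m) ∧
    (∀ T ∈ PT ρ i.range, ∃ h : M →ₗ[F] M, ∀ m, T m = ∑ v : V1, ρ (i v) (h (ρ (i v)⁻¹ m))) ∧
    ∀ m, ∑ v : V1, ρ (i v) m ∈ BK ρ i.range

/-- SGT: the graded algebra of `N ⊗ X`.

Proof.  `Q c = β c ⊗ q c`, `Y = N ⊗ X`.  (a) `q c` kills `Tr`: `SG.ker` for the family supported at `c`
(`Pi.single`), so `Q c (Tr_Y m) = 0` for all `m`: it is enough for `m = a ⊗ x`, and
`Q c (∑_v tj v a ⊗ tj v x) = ∑_v β c (tj v a) ⊗ q c (tj v x) = β c a ⊗ q c (Tr x) = 0` (`TB.eb`).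
(b) Let `y ∈ N_c(Y)`.  `y = (s β ⊗ 1) y + ((1 - s β) ⊗ 1) y`, and the second term is
`∑_v (tj v h tj v⁻¹ ⊗ 1) y = ∑_v tj_Y v ((h ⊗ 1) (tj_Y v⁻¹ y)) = Tr_Y ((h ⊗ 1) y)` (`TB.hg`, `y` fixed).
The first term is `∑_k s(b_k) ⊗ x_k` with a basis `b_k` of `B` (or: the range of `s c ⊗ 1`,
`B ⊗ X → N ⊗ X` is injective, it has the left inverse `β c ⊗ 1`, and it commutes with the action:
`tj_Y v (s b ⊗ x) = s b ⊗ tj v x`; so `(β ⊗ 1) y ∈ B ⊗ X` is fixed by `1 ⊗ tj v`, and the fixed points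
of `1 ⊗ tj` on `B ⊗ X` are `B ⊗ N_c(X)`: coordinates with respect to a basis of `B`).
So `y = ∑_k s(b_k) ⊗ x_k + Tr_Y(z)`, `x_k ∈ N_c(X)`.
(c) `mul`: bilinear; traces go to `0` by (a) and TWL (6), (7); on `a ⊗ x`, `a' ⊗ x'`: `TB.mul`, `SG.mul`.
(d) `one`: clear.  (e) `sur`: `b ⊗ q_c(x_c)`-sums: `Q c (s c b ⊗ x) = b ⊗ q c x`; `S` is the span of the
`q c (x)`, `x ∈ N_c`.  (f) `ker`, `⇐`: `Q c` kills `Tr` by (a), and for `y = ∑ s(b_k) ⊗ x_k + Tr z`: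
`Q c ((v ⊗ v) y - y) = ∑ β c (v s(b_k)) ⊗ q c (v x_k) - ∑ b_k ⊗ q c x_k = 0`, because
`β c (v a) = β 1 (v) β c a = β c a` (`TB.mul`, `TB.tv`, `1 * c = c`) and `q c (v x) = q c x` (`SG.ker`).
(g) `ker`, `⇒`: let `∑_c Q c (y_c) = 0`, `y_c = ∑_k s_c(b_k) ⊗ x_(c,k) + Tr z_c` (the same basis for all `c`):
`∑_k b_k ⊗ ∑_c q c (x_(c,k)) = 0`, so `∑_c q c (x_(c,k)) = 0` for every `k`, so `x_(c,k) ∈ I_c(X)` (`SG.ker`).
And `s(b) ⊗ x ∈ I_c(Y)` for `x ∈ I_c(X)`: `s(b) ⊗ Tr m = Tr_Y(s(b) ⊗ m)` (TWL (10)), and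
`s(b) ⊗ (v x - x) = ((v ⊗ v) (s b ⊗ x) - s b ⊗ x) - (v s(b) - s(b)) ⊗ v x`, where `a = v s(b) - s(b)` is in
`N_c(N)` and `β c a = 0`, so `a = Tr (h a)` (`TB.hg`, `a` fixed), `a ⊗ v x = Tr_Y (..)` (TWL (11)).
150 lines.  STRONG. -/
def SgtStmt : Prop := TwlStmt →
  ∀ (F V V1 C B S : Type) [Field F] [CommGroup V] [CommGroup V1] [Fintype V1]
    [CommGroup C] [Fintype C] [Ring B] [Algebra F B] [FiniteDimensional F B] [Ring S] [Algebra F S]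
    (N X : IA F V) (i : V1 →* V) (θ : C →* MulAut V1) (β : C → (N.A →ₗ[F] B))
    (s : C → (B →ₗ[F] N.A)) (h : C → (N.A →ₗ[F] N.A)) (q : C → (X.A →ₗ[F] S)),
    TB F N.ι i θ β s h → SG F X.ι i θ q →
    SG F (N.tens X).ι i θ (fun c =>
      (TensorProduct.map (β c) (q c) : N.A ⊗[F] X.A →ₗ[F] B ⊗[F] S))

/-- TBU: the trivialising element.

Proof.  `Rz N σ`: a unit `r` with `r v = σ(v) r` for all `v ∈ V`; `g = r⁻¹`, so `v g = g σ(v)`.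
Let `A0 = Fx (cj F N.ι) i.range`.  `g x g⁻¹ ∈ A0` for `x ∈ A0`, `g⁻¹ x g ∈ A0`, and the same for the Brauer
kernel (with PTT: `g (∑_v v m v⁻¹) g⁻¹ = ∑_v w (g m g⁻¹) w⁻¹`, `w = σ⁻¹ v`).  By `QKE` (`QkeStmt`: `β x = 0` iff
`x ∈ BK` for `x ∈ A0`, `x - s β x ∈ BK`) there is an automorphism `e` of `B` with `e (β x) = β (g x g⁻¹)` for
`x ∈ A0`: `e b = β (g s(b) g⁻¹)`, inverse `b ↦ β (g⁻¹ s(b) g)`.  Skolem-Noether
(`Pool.Agent.PFC.H69.qsn_inner`): a unit `w` of `B` with `w b = e(b) w`.  `u = s(w⁻¹)`, `t₀ = u g`.  For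
`x ∈ A0`: `β((t₀ x - x t₀) g⁻¹) = β(u g x g⁻¹) - β(x u) = w⁻¹ e(β x) - β(x) w⁻¹ = 0`.
`t₀^k g^(-k)` is in `A0` and `β` of it is a unit: `t₀^(k+1) g^(-k-1) = t₀^k g^(-k) · (g^k u g^(-k))`,
`β(g^k u g^(-k)) = e^k(w⁻¹)`.  With `c0^m = 1`, `g^m ∈ A0` (`v g^m = g^m θ(c0)^m(v)`), a unit with inverse in
`A0`, so `λ = β(t₀^m)` is a unit of `B`.  `λ` is central: `t₀ (N_c-trace) ⊆ traces` (TWL (6)), so
`t₀^k x - x t₀^k` is a trace (in `N_(c0^k)`) for all `k` (induction; for `k = 1`: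
`(t₀ x - x t₀) g⁻¹ ∈ BK`, multiply by `g`), so `β(t₀^m x) = β(x t₀^m)`.  `B` is a matrix algebra, so `λ` is a
scalar `≠ 0`; `r^m = λ⁻¹` (`IsAlgClosed.exists_pow_nat_eq`), `t = r t₀`.  150 lines.  STRONG. -/
def TbuStmt : Prop := TwlStmt → PttStmt → QkeStmt →
  ∀ (ℓ : ℕ) [Fact ℓ.Prime] (F V V1 : Type) [Field F] [IsAlgClosed F] [CharP F ℓ] [CommGroup V]
    [Finite V] [CommGroup V1] [Fintype V1] (N B : IA F V) (i : V1 →* V)
    (β : N.A →ₗ[F] B.A) (s : B.A →ₗ[F] N.A) (τ : MulAut V1) (m : ℕ) (σ : MulAut V),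
    IsPGroup ℓ V → Nat.card V1 = ℓ → Function.Injective i → Mx B → ABr N B i.range β s →
    0 < m → τ ^ m = 1 → Rz N σ → (∀ v, σ (i v) = i (τ v)) →
    ∃ (g : N.Aˣ) (t : N.A), (∀ v : V, N.ι v * g = g * N.ι (σ v)) ∧ t ∈ Nt F N.ι i τ ∧
      (∀ x ∈ Nt F N.ι i 1, β ((t * x - x * t) * (g⁻¹ : N.Aˣ)) = 0) ∧ β (t ^ m) = 1 ∧
      (∀ k : ℕ, IsUnit (β (t ^ k * ((g⁻¹ : N.Aˣ) : N.A) ^ k)))

/-- TBN: the twisted Brauer maps of `N` exist.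

Proof.  `c0` a generator of `C`, `m = Nat.card C` (`c0^m = 1`), `g`, `t` from TBU (`τ = θ c0`).  For `c ∈ C` choose
`k c` with `c0^(k c) = c`, `k 1 = 0`, and put `t_c = t^(k c)`, `g_c = g^(k c)`, `W_c = β(t_c g_c⁻¹)`, a unit of `B`.
`β_c a = β(a g_c⁻¹) W_c⁻¹`, `s_c b = s(b W_c) g_c`, `h_c a = h(a g_c⁻¹) g_c` with the `h` of `PTT` (2) for
`1 - s β ∈ PT`.  `tj_c v a g_c⁻¹ = cj (i v) (a g_c⁻¹)` (`g_c⁻¹ v = θ_c(v) g_c⁻¹`): this gives `fs`, `hg`, and `eb`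
from `tv`-like: `β(v x v⁻¹) = B.ι(v) β(x) B.ι(v)⁻¹` (`BrS.eb`) and `B.ι(v) = 1` for `v ∈ i.range`: `B.ι(v)` is
central in `B` (`BrS.tr`), so a scalar (`Mx B`), of `ℓ`-power order in `Fˣ`, so `1`.  `tv`: `ABr.cov`.
`β_c(x t_c) = β(x)` for `x ∈ A0 = Nt F N.ι i 1`: `x t_c g_c⁻¹`, `ABr.mul`.  `mul`: `a ∈ N_c`: `a - s(β_c a) t_c` has `β_c = 0`, so it
is a trace (`hg`, fixed).  So `a ≡ x t_c`, `a' ≡ x' t_d`, `x = s(β_c a)`, and `a a' ≡ x t_c x' t_d ≡ x x' t_c t_d`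
modulo traces in `N_(cd)` (TWL (6), (7); `t^k x' - x' t^k` is a trace, induction from TBU), `t_c t_d =
t^(k c + k d)`, and `t^(k + m) ≡ t^k` (`β(t^m - 1) = 0`, so `t^m - 1` is a trace), so `a a' ≡ x x' t_(cd)`
and `β_(cd)(a a') = β(x x') = β_c(a) β_d(a')`.  `one`: `k 1 = 0`.  150 lines.  STRONG. -/
def TbnStmt : Prop := TwlStmt → PttStmt → QkeStmt → TbuStmt →
  ∀ (ℓ : ℕ) [Fact ℓ.Prime] (F V V1 C : Type) [Field F] [IsAlgClosed F] [CharP F ℓ] [CommGroup V]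
    [Finite V] [CommGroup V1] [Fintype V1] [CommGroup C] [Fintype C] [IsCyclic C] (N B : IA F V)
    (i : V1 →* V) (θ : C →* MulAut V1),
    IsPGroup ℓ V → Nat.card V1 = ℓ → Function.Injective i → Mx B → BQ N B i.range →
    (∀ c, ∃ σ : MulAut V, Rz N σ ∧ ∀ v, σ (i v) = i (θ c v)) →
    ∃ (β : C → (N.A →ₗ[F] B.A)) (s : C → (B.A →ₗ[F] N.A)) (h : C → (N.A →ₗ[F] N.A)),
      TB F N.ι i θ β s h

/-- SGC: the graded algebra of a corner.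

Proof.  `κ 1 = j`, `j² = j`, `j` commutes with `V` (`Cor.com`), so `j ∈ N_1(Y)`, `ȷ = q 1 j` is an idempotent
(`SG.mul` with `c = d = 1`).  `S'` = the corner `ȷ S ȷ` (model: the proof of `QceStmt` in `PFC/B4/QCE.lean`; a ring
structure on the subtype `{x // ȷ x = x ∧ x ȷ = x}`), `κ'` the inclusion, `q' c a` = the element of
`S'` over `ȷ (q c (κ a)) ȷ`.  `a ∈ N_c(Y')` iff `κ a ∈ N_c(Y)` (`κ (Y'.ι v) = Y.ι v j`, `j κ a = κ a = κ a j`, `κ`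
injective), and then `ȷ q c (κ a) ȷ = q c (j κ a j) = q c (κ a)`.  `sur`: `x ∈ S'`: `x = ∑ q c (y_c)`,
`x = ȷ x ȷ = ∑ q c (j y_c j)` and `j y_c j = κ a_c` (`Cor.ran`), `a_c ∈ N_c(Y')`.  `ker`: `κ (I_c(Y')) = j I_c(Y) j ∩ ..`:
`κ (Tr a) = Tr (κ a)`, `κ (v a - a) = v κ a - κ a`, so `⇐`; `⇒`: `κ a_c ∈ I_c(Y)` for all `c` (`SG.ker`), `κ a_c = j κ a_c j`, and
`j x j ∈ κ (I_c(Y'))` for `x ∈ I_c(Y)` (`j Tr(z) j = Tr(j z j)`, `j (v y - y) j = v (j y j) - j y j`); `κ` injective.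
`mul`, `one`: clear.  100 lines. -/
def SgcStmt : Prop := TwlStmt →
  ∀ (F V V1 C S : Type) [Field F] [CommGroup V] [CommGroup V1] [Fintype V1]
    [CommGroup C] [Fintype C] [Ring S] [Algebra F S] (Y Y' : IA F V) (i : V1 →* V)
    (θ : C →* MulAut V1) (q : C → (Y.A →ₗ[F] S)) (j : Y.A) (κ : Y'.A →ₗ[F] Y.A),
    Cor Y Y' j κ → SG F Y.ι i θ q →
    ∃ (S' : Type) (_ : Ring S') (_ : Algebra F S') (κ' : S' →ₗ[F] S) (q' : C → (Y'.A →ₗ[F] S')),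
      Cnr (q 1 j) κ' ∧ SG F Y'.ι i θ q'

/-- SGF: fullness goes from `Y(V1)` to `S(Y)`.

Proof.  `1 = ∑ a_k β(j) b_k` in `B` (`Submodule.mem_span` as a finite sum, e.g. `Submodule.mem_span_set'`,
absorb the coefficients), `y = ∑ s(a_k) j s(b_k) ∈ Fx (cj) i.range`, `β y = 1 = β 1` (`ABr.mul`, `ABr.cov`), so `1 - y ∈ BK`
(`QkeStmt`), a trace (PTT (1)), so `q 1 (1 - y) = 0` (`SG.ker`, `Pi.single`): `1 = q 1 1 = q 1 y =
∑ q 1 (s a_k) q 1 j q 1 (s b_k)` (`SG.mul` with `c = d = 1`).  40 lines. -/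
def SgfStmt : Prop := TwlStmt → PttStmt → QkeStmt →
  ∀ (ℓ : ℕ) [Fact ℓ.Prime] (F V V1 C S : Type) [Field F] [CharP F ℓ] [CommGroup V] [Finite V]
    [CommGroup V1] [Fintype V1] [CommGroup C] [Fintype C] [Ring S] [Algebra F S] (Y B : IA F V)
    (i : V1 →* V) (θ : C →* MulAut V1) (q : C → (Y.A →ₗ[F] S)) (j : Y.A)
    (β : Y.A →ₗ[F] B.A) (s : B.A →ₗ[F] Y.A),
    IsPGroup ℓ V → Nat.card V1 = ℓ → Function.Injective i → ABr Y B i.range β s →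
    SG F Y.ι i θ q → j ∈ Fx (cj F Y.ι) i.range → Fl F (β j) → Fl F (q 1 j)

/-- SGU: two models of `S(A)` are isomorphic.

Proof.  `e (∑ q c (a c)) = ∑ q' c (a c)`, well defined and injective by the two `ker`, surjective by `sur`,
multiplicative by `mul` (bilinear), `e 1 = 1` (`a = Pi.single 1 1`).  Formally: `L` = the subspace of the
families `a` with `a c ∈ N_c` (a subspace of `C → A`), `Q a = ∑ q c (a c)`, a surjective linear map from `L`, the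
same kernel for `Q` and `Q'` (`LinearMap.quotKerEquivOfSurjective`, or choose preimages).  60 lines. -/
def SguStmt : Prop :=
  ∀ (F V V1 C A S S' : Type) [Field F] [CommGroup V] [CommGroup V1] [Fintype V1]
    [CommGroup C] [Fintype C] [Ring A] [Algebra F A] [Ring S] [Algebra F S] [Ring S']
    [Algebra F S'] (α : V →* A) (i : V1 →* V) (θ : C →* MulAut V1) (q : C → (A →ₗ[F] S))
    (q' : C → (A →ₗ[F] S')), SG F α i θ q → SG F α i θ q' →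
    ∃ e : S ≃ₐ[F] S', ∀ c, ∀ a ∈ Nt F α i (θ c), e (q c a) = q' c a

/-- ABQ: from a split Brauer quotient to the quotient map of the centraliser.

Proof.  `Cz F Y.ι Q` and `Fx (cj F Y.ι) Q` have the same elements (`v a v⁻¹ = a` iff `v a = a v`); `q a = β a`
is multiplicative (`ABr.mul`), `q 1 = β (Y.ι 1) = 1` (`ABr.cov`), surjective (`β (s b) = b`, `s b` fixed: `QkeStmt` (1)),
kernel `BK` (`QkeStmt` (2)); `be F Y.ι Q q v = β (Y.ι v) = B.ι v`.  30 lines. -/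
def AbqStmt : Prop := QkeStmt →
  ∀ (ℓ : ℕ) [Fact ℓ.Prime] (F V : Type) [Field F] [CharP F ℓ] [CommGroup V] [Finite V]
    (Y B : IA F V) (Q : Subgroup V) (β : Y.A →ₗ[F] B.A) (s : B.A →ₗ[F] Y.A), IsPGroup ℓ V →
    ABr Y B Q β s → ∃ q : Cz F Y.ι Q →ₐ[F] B.A, QA F Y.ι Q q ∧ (∀ a, q a = β a) ∧
      be F Y.ι Q q = B.ι

/-- FLA: the structure of `B = Y(Q)` for any subgroup `Q`, with respect to the group
`E1 = C_E(Q) = {e | φ e u = u for u ∈ Q}`.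

Proof.  ABQ gives `q`.  `Frm`: `QfmStmt`.  `PS`: the proof of `qpn` in `Helper79_PFE/Lon.lean` (from `QfcStmt`): the stabiliser
of `ω'` is that of `j ω'`, `tw (φ e) R`, and contains `(u, u)` for `u ∈ Q`, so `φ e u = u` for `u ∈ Q`: `e ∈ E1`.
`BQ B (F V) ⊤`: `QtrStmt` with `R = ⊤` (`Q ⊔ ⊤ = ⊤`).  Units: `y ∈ Y` a unit with `y v = φ_e(v) y`, `e ∈ E1`: `y` and `y⁻¹` commute
with `Q`, so `β y` is a unit with inverse `β y⁻¹` (`ABr.mul`), `β(y) B.ι(u) = β(y u) = β(φ_e(u) y) = B.ι(φ_e u) β(y)` (the elements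
of `V` are fixed by `Q`).  `j`: `β j` is fixed, idempotent, `1 - β j = β (1 - j) ∈ BK (cj F B.ι) ⊤`: `β` is equivariant
(`BrS.eb`), so it maps relative traces to relative traces.  Cited theorems (no hypotheses): `H49d.bki`
(`PFC/B5/CUG_49`), `B5a.H70.qfc` (`Helper70_PFC/QFCa`), `H92.qfm` (`Helper92_PFC/QFM`), as in `Helper79_PFE/Lon.lean`.  100 lines. -/
def FlaStmt : Prop := QkeStmt → AbqStmt → QtrStmt →
  ∀ (ℓ : ℕ) [Fact ℓ.Prime] (F V E : Type) [Field F] [CharP F ℓ] [CommGroup V] [Fintype V]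
    [Group E] (φ : E →* MulAut V) (E1 : Subgroup E) (Y B : IA F V) (Q : Subgroup V)
    (β : Y.A →ₗ[F] B.A) (s : B.A →ₗ[F] Y.A) (lam : Y.A →ₗ[F] F) (j : Y.A), IsPGroup ℓ V →
    (∀ e : E, e ∈ E1 ↔ ∀ u ∈ Q, φ e u = u) → CP Y → ABr Y B Q β s → Frm F Y.ι lam →
    PS (fun K => ∃ (e : E) (R : Subgroup V), K = tw (φ e).toMonoidHom R) (bi F Y.ι) →
    BQ Y (IA.gr F V) ⊤ → (∀ e, Rz Y (φ e)) → j ∈ Fx (cj F Y.ι) ⊤ → j * j = j →
    1 - j ∈ BK (cj F Y.ι) ⊤ →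
    (∃ lam', Frm F B.ι lam') ∧
    PS (fun K => ∃ (e : E1) (R : Subgroup V), K = tw (φ.comp E1.subtype e).toMonoidHom R)
      (bi F B.ι) ∧
    BQ B (IA.gr F V) ⊤ ∧
    (∀ e : E1, ∃ y y' : B.A, y * y' = 1 ∧ y' * y = 1 ∧
      ∀ u, y * B.ι u = B.ι (φ.comp E1.subtype e u) * y) ∧
    β j ∈ Fx (cj F B.ι) ⊤ ∧ β j * β j = β j ∧ 1 - β j ∈ BK (cj F B.ι) ⊤

/-- FLZ: the centre of `B = Y(Q)`, `Y = N ⊗ X`.

Proof.  `QalStmt`: `X1`, `BQ X X1 Q`; `QteStmt`: `BQ Y (N1 ⊗ X1) Q`; `QunStmt`: an isomorphism `e : B → N1 ⊗ X1` of interior algebras.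
For `z` central in `B`: `e z = 1 ⊗ c`, `c` central in `X1` (`ZmxStmt` (1), `Mx N1`).  The centraliser
of `V` in `X1` is local: ABQ for `X, X1` gives `q` with `be F X.ι Q q = X1.ι`, and `QtpStmt` (second part; cited theorem
`B5a.H83.qtpa H49d.bki B5a.H70.qfc`, as in `Helper79_PFE/Lon.lean`) gives `IsLocalRing (Cz F (be ..) ⊤)`.  `c` is in it, so (LcnStmt)
`c` is a unit or nilpotent in it, and so is `z`.  60 lines. -/
def FlzStmt : Prop := QkeStmt → AbqStmt → QalStmt → QteStmt → QunStmt → B5c.ZmxStmt →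
  B5c.LcnStmt →
  ∀ (ℓ : ℕ) [Fact ℓ.Prime] (F V : Type) [Field F] [IsAlgClosed F] [CharP F ℓ] [CommGroup V]
    [Fintype V] (N N1 X B : IA F V) (Q : Subgroup V) (P : Subgroup (V × V) → Prop),
    IsPGroup ℓ V → CP X → PS P (bi F X.ι) → Tpv F X.ι → IsLocalRing (Cz F X.ι ⊤) → Mx N1 →
    BQ N N1 Q → BQ (N.tens X) B Q →
    ∀ z : B.A, (∀ a, z * a = a * z) → IsUnit z ∨ IsNilpotent z

/-- TOP (assembly, helper79): part (0) for a family, with the invariance of the centre of `S(A)` for every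
`C` which is realised by elements of `E`. -/
def SznStmt : Prop :=
  ∀ (F V E A : Type) [Field F] [IsAlgClosed F] [CommGroup V] [Fintype V] [Group E] [Fintype E]
    [Ring A] [Algebra F A] (ℓ : ℕ) [CharP F ℓ] (φ : E →* MulAut V) (NN : Subgroup V → Prop)
    (α : V →* A), Ctn ℓ φ NN → PInN F φ NN α →
    ∃ (A' : Type) (_ : Ring A') (_ : Algebra F A') (α' : V →* A'),
      PMidN F φ NN α' ∧ ls F A' = ls F A ∧
      Module.finrank F (Subalgebra.center F A') = Module.finrank F (Subalgebra.center F A) ∧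
      ∀ (V1 C : Type) [CommGroup V1] [Fintype V1] [CommGroup C] [Fintype C] [IsCyclic C]
        (i : V1 →* V) (θ : C →* MulAut V1), Nat.card V1 = ℓ → Function.Injective i →
        (∀ c, ∃ e : E, ∀ v, φ e (i v) = i (θ c v)) →
        ∀ (S : Type) [Ring S] [Algebra F S] (q : C → (A →ₗ[F] S)), SG F α i θ q →
        ∃ (S' : Type) (_ : Ring S') (_ : Algebra F S') (q' : C → (A' →ₗ[F] S')),
          SG F α' i θ q' ∧ Module.finrank F (Subalgebra.center F S') =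
            Module.finrank F (Subalgebra.center F S)

end Pool.Agent.PFE.S
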