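import Pool.Agent.PFD.DefsD4

/-!
# Squad PFE (theorem (R)), part E1: definitions (helper3)

`A` is an algebra over a commutative ring `R`, `y` an element with `y ^ l = 0`, `X` a finite group and
`χ : X → Rˣ` a faithful character of exponent dividing `l - 1`.
`Nx y χ x = {a : y a = χ(x) a y}`, `Tx y l c a = ∑ c^(l-1-j) y^j a y^(l-1-j)`,
`Jx = Tx(A) + y Nx`.  The local algebra `S` is the direct sum of the quotients `Nx / Jx`.
-/

open scoped BigOperators

noncomputable section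

namespace Pool.Agent.PFE

open Pool.Agent.PFC.B1 (FS Split)
open Pool.Agent.PFD (RF)

section basic

variable {R A X : Type} [CommRing R] [Ring A] [Algebra R A] [Group X]

/-- the elements with `y a = χ(x) a y` -/
def Nx (y : A) (χ : X →* R) (x : X) : Submodule R A where
  carrier := {a | y * a = χ x • (a * y)}
  add_mem' := by
    intro a b ha hb
    show y * (a + b) = χ x • ((a + b) * y)
    rw [mul_add, add_mul, smul_add, show y * a = χ x • (a * y) from ha,
      show y * b = χ x • (b * y) from hb]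
  zero_mem' := by
    show y * 0 = χ x • (0 * y)
    rw [mul_zero, zero_mul, smul_zero]
  smul_mem' := by
    intro c a ha
    show y * (c • a) = χ x • (c • a * y)
    rw [mul_smul_comm, smul_mul_assoc, show y * a = χ x • (a * y) from ha, smul_comm]

theorem Nx_one (y : A) (χ : X →* R) : (1 : A) ∈ Nx y χ 1 := by
  show y * 1 = χ 1 • (1 * y)
  rw [map_one, one_smul, mul_one, one_mul]

theorem Nx_mul {y : A} {χ : X →* R} {x x' : X} {a b : A} (ha : a ∈ Nx y χ x)
    (hb : b ∈ Nx y χ x') : a * b ∈ Nx y χ (x * x') := by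
  show y * (a * b) = χ (x * x') • (a * b * y)
  rw [← mul_assoc, show y * a = χ x • (a * y) from ha, smul_mul_assoc, mul_assoc a y b,
    show y * b = χ x' • (b * y) from hb, mul_smul_comm, smul_smul, ← map_mul, mul_assoc]

/-- the twisted trace from `1` to `R[y]` -/
def Tx (y : A) (l : ℕ) (c : R) (a : A) : A :=
  ∑ j ∈ Finset.range l, c ^ (l - 1 - j) • (y ^ j * a * y ^ (l - 1 - j))

/-- the ideal: twisted traces and `y` times the twisted commuting elements -/
def Jx (y : A) (l : ℕ) (χ : X →* R) (x : X) : Submodule R A :=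
  Submodule.span R {b | (∃ a, b = Tx y l (χ x) a) ∨ ∃ n ∈ Nx y χ x, b = y * n}

/-- the span of the products of `n` homogeneous elements of the ideal -/
def JP (y : A) (l : ℕ) (χ : X →* R) (n : ℕ) : Submodule R A :=
  Submodule.span R {b | ∃ f : ℕ → A, (∀ i, ∃ x, f i ∈ Jx y l χ x) ∧
    b = ((List.range n).map f).prod}

end basic

/-- a grading of the algebra `S` by `X`; `c x` is the projection to the part of degree `x` -/
structure GS (R S X : Type) [CommRing R] [Ring S] [Algebra R S] [Group X] [Fintype X] where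
  c : X → (S →ₗ[R] S)
  cs : ∀ s, ∑ x, c x s = s
  ci : ∀ x s, c x (c x s) = c x s
  co : ∀ x x' s, x ≠ x' → c x (c x' s) = 0
  c1 : c 1 1 = 1
  cm : ∀ x x' s s', c (x * x') (c x s * c x' s') = c x s * c x' s'

section GS

variable {R S X : Type} [CommRing R] [Ring S] [Algebra R S] [Group X] [Fintype X]

/-- the part of degree `1` -/
def GS.S1 (G : GS R S X) : Subalgebra R S where
  carrier := {s | G.c 1 s = s}
  mul_mem' := by
    intro a b ha hb
    have h := G.cm 1 1 a b
    rw [mul_one, show G.c 1 a = a from ha, show G.c 1 b = b from hb] at h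
    exact h
  add_mem' := by
    intro a b ha hb
    show G.c 1 (a + b) = a + b
    rw [map_add, show G.c 1 a = a from ha, show G.c 1 b = b from hb]
  algebraMap_mem' := by
    intro r
    show G.c 1 (algebraMap R S r) = algebraMap R S r
    rw [Algebra.algebraMap_eq_smul_one, map_smul, G.c1]

/-- the automorphism `σ` which is `χ(x)` in degree `x` -/
def GS.sg (G : GS R S X) (χ : X →* R) : S →ₗ[R] S := ∑ x, χ x • G.c x

end GS

/-- `S` is the local algebra of `A` at `y` -/
structure LS (R A X S : Type) [CommRing R] [Ring A] [Algebra R A] [Group X] [Fintype X] [Ring S]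
    [Algebra R S] (y : A) (l : ℕ) (χ : X →* R) extends GS R S X where
  p : ∀ x, Nx y χ x →ₗ[R] S
  pc : ∀ x a, c x (p x a) = p x a
  ps : ∀ x s, ∃ a, p x a = c x s
  ker : ∀ x a, p x a = 0 ↔ (a : A) ∈ Jx y l χ x
  one : p 1 ⟨1, Nx_one y χ⟩ = 1
  mul : ∀ x x' a b, p x a * p x' b = p (x * x') ⟨a * b, Nx_mul a.2 b.2⟩

/-- The frame: as a bimodule over `R[y]` (truncated polynomials) `A` is a direct summand of a sum of
twisted bimodules `R[y]` (generators `g o`, degree `deg o`) and free ones (generators `h o`). -/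
structure Yd (R A X J Ω Ω' : Type) [CommRing R] [Ring A] [Algebra R A] [Group X] [Fintype J]
    [Fintype Ω] [Fintype Ω'] (y : A) (l : ℕ) (χ : X →* R) where
  hl : 2 ≤ l
  χl : ∀ x, χ x ^ (l - 1) = 1
  χu : ∀ x, x ≠ 1 → IsUnit (1 - χ x)
  yl : y ^ l = 0
  d : FS R A J
  ds : ∀ a b, d.lam (a * b) = d.lam (b * a)
  deg : Ω → X
  g : Ω → A
  g' : Ω → A
  gy : ∀ o, y * g o = χ (deg o) • (g o * y)
  g'y : ∀ o, g' o * y = χ (deg o) • (y * g' o)
  h : Ω' → A
  h' : Ω' → A
  fr : ∀ a, ∑ o, ∑ i ∈ Finset.range l, d.lam (g' o * y ^ (l - 1 - i) * a) • (y ^ i * g o) +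
    ∑ o, ∑ i ∈ Finset.range l, ∑ k ∈ Finset.range l,
      d.lam (h' o * (y ^ (l - 1 - i) * a * y ^ (l - 1 - k))) • (y ^ i * h o * y ^ k) = a

section Yd

variable {R A X J Ω Ω' : Type} [CommRing R] [Ring A] [Algebra R A] [Group X] [Fintype J]
    [Fintype Ω] [Fintype Ω'] {y : A} {l : ℕ} {χ : X →* R}

/-- the Frobenius homomorphism `A → R[y]` -/
def Yd.pi (D : Yd R A X J Ω Ω' y l χ) (a : A) : A :=
  ∑ i ∈ Finset.range l, D.d.lam (y ^ (l - 1 - i) * a) • y ^ i

/-- the generators over `R[y]` -/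
def Yd.e (D : Yd R A X J Ω Ω' y l χ) : Ω ⊕ (Ω' × Fin l) → A :=
  Sum.elim D.g (fun p => y ^ (p.2 : ℕ) * D.h p.1)

/-- the dual generators over `R[y]` -/
def Yd.e' (D : Yd R A X J Ω Ω' y l χ) : Ω ⊕ (Ω' × Fin l) → A :=
  Sum.elim D.g' (fun p => D.h' p.1 * y ^ (l - 1 - (p.2 : ℕ)))

/-- the relative trace from `R[y]` to `A` -/
def Yd.RT (D : Yd R A X J Ω Ω' y l χ) (a : A) : A := ∑ r, D.e r * a * D.e' r

/-- the trace from `1` to `A` -/
def Yd.TA (D : Yd R A X J Ω Ω' y l χ) (a : A) : A := ∑ p, D.d.b p * a * D.d.b' p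

end Yd

/-- The data over a field: `A` is relatively separable over `K[y]` (`RT w = 1`), and the traces from
`1` are nilpotent. -/
structure Yk (K A X J Ω Ω' : Type) [Field K] [Ring A] [Algebra K A] [Group X] [Fintype J]
    [Fintype Ω] [Fintype Ω'] (y : A) (l : ℕ) (χ : X →* K) extends Yd K A X J Ω Ω' y l χ where
  w : A
  wy : y * w = w * y
  rw : toYd.RT w = 1
  np : ∀ a, IsNilpotent (toYd.TA a)

/-- a graded Frobenius system of `S` with a separating element -/
structure SF (K S X Ω : Type) [Field K] [Ring S] [Algebra K S] [Group X] [Fintype X] [Fintype Ω]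
    (G : GS K S X) where
  f : FS K S Ω
  sy : ∀ a b, f.lam (a * b) = f.lam (b * a)
  t1 : ∀ x s, x ≠ 1 → f.lam (G.c x s) = 0
  deg : Ω → X
  gb : ∀ o, G.c (deg o) (f.b o) = f.b o
  gb' : ∀ o, G.c (deg o)⁻¹ (f.b' o) = f.b' o
  w : S
  w1 : G.c 1 w = w
  sep : ∑ o, f.b o * w * f.b' o = 1

/-- the twisted truncated polynomial algebra `C = S[y; σ] / y^l`; `co k` is the `k`-th coefficient -/
structure CC (K S C X : Type) [Field K] [Ring S] [Algebra K S] [Ring C] [Algebra K C] [Group X]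
    [Fintype X] (G : GS K S X) (l : ℕ) (χ : X →* K) where
  i : S →ₐ[K] C
  y : C
  yl : y ^ l = 0
  ys : ∀ s, y * i s = i (G.sg χ s) * y
  co : ℕ → (C →ₗ[K] S)
  ex : ∀ c, ∑ k ∈ Finset.range l, i (co k c) * y ^ k = c
  un : ∀ (s : ℕ → S) (k : ℕ), k < l → co k (∑ j ∈ Finset.range l, i (s j) * y ^ j) = s k

/-- the Frobenius system of `S` which comes from the frame -/
structure SFd {K A X S J Ω Ω' : Type} [Field K] [Ring A] [Algebra K A] [Group X] [Fintype X]
    [Ring S] [Algebra K S] [Fintype J] [Fintype Ω] [Fintype Ω'] {y : A} {l : ℕ} {χ : X →* K}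
    (D : Yk K A X J Ω Ω' y l χ) (L : LS K A X S y l χ) extends SF K S X Ω L.toGS where
  ed : deg = D.deg
  eb : ∀ o, f.b o = L.p (D.deg o) ⟨D.g o, D.gy o⟩
  eb' : ∀ o h, f.b' o = L.p (D.deg o)⁻¹ ⟨D.g' o, h⟩
  el : ∀ x a, f.lam (L.p x a) = D.d.lam (y ^ (l - 1) * (a : A))
  ew : ∀ h, w = L.p 1 ⟨D.w, h⟩

/-- a graded section `S → A` of the local algebra -/
structure Rho {K A X S : Type} [Field K] [Ring A] [Algebra K A] [Group X] [Fintype X]
    [Ring S] [Algebra K S] {y : A} {l : ℕ} {χ : X →* K} (L : LS K A X S y l χ) where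
  r : S →ₐ[K] A
  rx : ∀ x s, r (L.c x s) ∈ Nx y χ x
  rp : ∀ x s, L.p x ⟨r (L.c x s), rx x s⟩ = L.c x s

/-- the subalgebra `C` of `A`, the form `t0` of `C`, and the unit `u` with `t_A | C = t0(u .)` -/
structure CD {K A X S J Ω Ω' : Type} (C : Type) [Field K] [Ring A] [Algebra K A] [Group X]
    [Fintype X] [Ring S] [Algebra K S] [Fintype J] [Fintype Ω] [Fintype Ω'] [Ring C] [Algebra K C]
    {y : A} {l : ℕ} {χ : X →* K} {D : Yk K A X J Ω Ω' y l χ} {L : LS K A X S y l χ}
    (F : SFd D L) where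
  Q : CC K S C X L.toGS l χ
  j : C →ₐ[K] A
  jy : j Q.y = y
  jx : ∀ x s, j (Q.i (L.c x s)) ∈ Nx y χ x
  jp : ∀ x s, L.p x ⟨j (Q.i (L.c x s)), jx x s⟩ = L.c x s
  t0 : C →ₗ[K] K
  t0e : ∀ c, t0 c = F.f.lam (Q.co (l - 1) c)
  u : C
  u' : C
  uc : ∀ c, u * c = c * u
  uu : u * u' = 1
  ut : ∀ c, D.d.lam (j c) = t0 (u * c)

/-- the data for the first order theorem over a field of characteristic `0` (as `KL` of PFD/DefsD4,
with `w`, `np` in place of the units) -/
structure KM (K B A I J N : Type) [Field K] [Ring B] [Algebra K B] [Ring A] [Algebra K A]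
    [Fintype I] [Fintype J] [Fintype N] where
  c : FS K B I
  cs : ∀ x y, c.lam (x * y) = c.lam (y * x)
  sp : Split c A
  d : FS K A J
  ds : ∀ x y, d.lam (x * y) = d.lam (y * x)
  ort : ∀ x, d.lam x = c.lam (sp.pr x)
  s : RF K B A N sp.j sp.pr
  u : B
  u' : B
  uc : ∀ b, u * b = b * u
  uu : u * u' = 1
  v : B →ₗ[K] B
  vm : ∀ a b, v (a * b) = v a * b + a * v b
  wt : ℕ
  wp : 0 < wt
  tv : ∀ b, c.lam (u' * v b) = (wt : K) * c.lam (u' * b)
  nil : ∀ b, IsNilpotent (v b)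
  w : A
  wc : ∀ b, sp.j b * w = w * sp.j b
  rw : s.rt w = 1
  np : ∀ a, IsNilpotent (∑ p, d.b p * a * d.b' p)

section KM

variable {K B A I J N : Type} [Field K] [Ring B] [Algebra K B] [Ring A] [Algebra K A]
    [Fintype I] [Fintype J] [Fintype N]

/-- `∑ e_p a e_p'` -/
def KM.TA (D : KM K B A I J N) (a : A) : A := ∑ p, D.d.b p * a * D.d.b' p

/-- `∑ j(b_i) a j(b_i')` -/
def KM.TB (D : KM K B A I J N) (a : A) : A := ∑ i, D.sp.j (D.c.b i) * a * D.sp.j (D.c.b' i)

end KM

end Pool.Agent.PFE
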