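import Pool.Agent.PFE.DefsN
import Pool.Agent.PFC.DefsB4b
import Pool.Agent.PFC.StmtsB5b

/-!
# Squad PFE: the graded algebra `S(A)` (helper79)

`V1` is a group of order `ℓ` with `i : V1 → V`, `C` a finite commutative group (in theorem (R):
`C = E / C_E(V1)`, cyclic; or `C = 1`), `θ : C → Aut(V1)`.  For an interior `V`-algebra `A` let
`N_c = {a : v a = a θ_c(v) for v in V1}`, the fixed points of the twisted conjugation `tj`, and
`I_c` the span of the traces `∑_v v a θ_c(v)⁻¹` and of the `(v - 1) a`, `a ∈ N_c`.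
`S(A) = ⊕_c N_c / I_c` is a `C`-graded algebra.  `SG` says that `S`, with maps `q c`, is a model of it.
-/

open scoped BigOperators TensorProduct

noncomputable section

namespace Pool.Agent.PFE

open Pool.Agent.PFC

section gr

variable (F : Type) {V V1 C A N B S : Type} [Field F] [CommGroup V] [CommGroup V1] [Fintype V1]
  [CommGroup C] [Fintype C] [Ring A] [Algebra F A] [Ring S] [Algebra F S] [Ring N] [Algebra F N]
  [Ring B] [Algebra F B]

/-- The twisted conjugation of `V1`: `tj v a = v a σ(v)⁻¹`. -/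
def tj (α : V →* A) (i : V1 →* V) (σ : MulAut V1) : V1 →* (A →ₗ[F] A) :=
  rst (bi F α) (i.prod (i.comp σ.toMonoidHom))

/-- `N_σ` -/
def Nt (α : V →* A) (i : V1 →* V) (σ : MulAut V1) : Submodule F A := Fx (tj F α i σ) ⊤

/-- the trace from `1` to `V1` -/
def Tr (α : V →* A) (i : V1 →* V) (σ : MulAut V1) : A →ₗ[F] A := ∑ v : V1, tj F α i σ v

/-- `I_σ` -/
def It (α : V →* A) (i : V1 →* V) (σ : MulAut V1) : Submodule F A :=
  Submodule.span F {x | (∃ a, x = Tr F α i σ a) ∨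
    ∃ v : V1, ∃ a ∈ Nt F α i σ, x = α (i v) * a - a}

/-- `S` (with the maps `q c : N_c → S`, extended to `A`) is the graded algebra `S(A)`. -/
structure SG (α : V →* A) (i : V1 →* V) (θ : C →* MulAut V1) (q : C → (A →ₗ[F] S)) : Prop where
  sur : ∀ s : S, ∃ a : C → A, (∀ c, a c ∈ Nt F α i (θ c)) ∧ ∑ c, q c (a c) = s
  ker : ∀ a : C → A, (∀ c, a c ∈ Nt F α i (θ c)) →
    (∑ c, q c (a c) = 0 ↔ ∀ c, a c ∈ It F α i (θ c))
  mul : ∀ c d, ∀ a ∈ Nt F α i (θ c), ∀ b ∈ Nt F α i (θ d), q (c * d) (a * b) = q c a * q d b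
  one : q 1 1 = 1

/-- The twisted Brauer maps of `N`, trivialised: `β c : N → B`, `B = N(V1)`, with sections `s c`. -/
structure TB (α : V →* N) (i : V1 →* V) (θ : C →* MulAut V1) (β : C → (N →ₗ[F] B))
    (s : C → (B →ₗ[F] N)) (h : C → (N →ₗ[F] N)) : Prop where
  bs : ∀ c b, β c (s c b) = b
  eb : ∀ c v a, β c (tj F α i (θ c) v a) = β c a
  fs : ∀ c b, s c b ∈ Nt F α i (θ c)
  hg : ∀ c a, a - s c (β c a) = ∑ v, tj F α i (θ c) v (h c (tj F α i (θ c) v⁻¹ a))
  mul : ∀ c d, ∀ a ∈ Nt F α i (θ c), ∀ b ∈ Nt F α i (θ d), β (c * d) (a * b) = β c a * β d b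
  one : β 1 1 = 1
  tv : ∀ v, β 1 (α (i v)) = 1

/-- The spanning form of fullness of an element `j`. -/
def Fl (j : A) : Prop := (1 : A) ∈ Submodule.span F {x | ∃ a b : A, x = a * j * b}

end gr

end Pool.Agent.PFE
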