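import Pool.Agent.PFD.DefsD4
import Pool.Agent.PFE.DefsE1
import Pool.Agent.PFE.DefsS

/-!
# Squad PFE (theorem (R)), part E2: definitions (helper3)

`GY`: the algebra `Γ = R[y] / y^l ⊗ R W` (over the field: the group algebra `F V`, `V = V1 × W`).
`AB j`: an algebra `A` with `j : Γ → A` as a bimodule.
`YFr`: a frame of a `Γ`-bimodule `N` (for a projector `q`): `W × W` permutes the generators; `g o` is
twisted (`y g = χ(deg o) g y`), `h o` generates a free bimodule over `R[y]`.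
`YBs`: a frame which is a basis.  `FLv`: the input over `F`.  `LY`, `LZ`: the lift over `R`.
`YG`: the group `W` in the frame `Yd`.  `Y1`: the eigenvector `y` in the group algebra of `V1`.
`TV`: the extension `F V → A` with its `V × V`-frame.
-/

open scoped BigOperators

noncomputable section

namespace Pool.Agent.PFE

open MulOpposite
open Pool.Agent.PFC.B1 (FS Split BiM Sep)
open Pool.Agent.PFC (tw)
open Pool.Agent.PFD (RF)
open Pool.Agent.PFD.D2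
open Pool.Agent.PFD.D2b (wrp FPl FrR)

/-- the algebra `R[y] / y^l ⊗ R W` -/
structure GY (R Γ W : Type) [CommRing R] [CommRing Γ] [Algebra R Γ] [CommGroup W] [Fintype W]
    (l : ℕ) where
  om : W →* Γ
  y : Γ
  yl : y ^ l = 0
  co : ℕ → W → (Γ →ₗ[R] R)
  ex : ∀ γ, ∑ k ∈ Finset.range l, ∑ w, co k w γ • (y ^ k * om w) = γ
  un : ∀ (a : ℕ → W → R) (k : ℕ) (w : W), k < l →
    co k w (∑ k ∈ Finset.range l, ∑ w, a k w • (y ^ k * om w)) = a k w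

/-- `A` as a bimodule over `Γ` -/
def AB {R Γ A : Type} [CommRing R] [Ring Γ] [Algebra R Γ] [Ring A] [Algebra R A] (j : Γ →ₐ[R] A) :
    BiM R Γ A where
  lm := (Algebra.lmul R A).comp j
  rm :=
    { toFun := fun a => LinearMap.mulRight R (j a.unop)
      map_one' := by ext x; simp
      map_mul' := fun a b => by
        ext x
        show x * j (a * b).unop = x * j b.unop * j a.unop
        rw [unop_mul, map_mul, mul_assoc]
      map_zero' := by ext x; simp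
      map_add' := fun a b => by ext x; simp [mul_add]
      commutes' := fun r => by
        ext x
        show x * j (algebraMap R Γᵐᵒᵖ r).unop = r • x
        rw [MulOpposite.algebraMap_apply, unop_op, AlgHom.commutes, ← Algebra.commutes,
          Algebra.smul_def] }
  comm := fun a b x => by
    show j a * (x * j b.unop) = j a * x * j b.unop
    rw [mul_assoc]

section frames

variable {R Γ W N X : Type} [CommRing R] [CommRing Γ] [Algebra R Γ] [CommGroup W]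
  [Fintype W] [AddCommGroup N] [Module R N] [Group X]

/-- A frame of the bimodule `N` for the projector `q`. -/
structure YFr (Ω Ω' : Type) [Fintype Ω] [Fintype Ω'] [MulAction (W × W) Ω]
    [MulAction (W × W) Ω'] {l : ℕ} (G : GY R Γ W l) (χ : X →* R) (B : BiM R Γ N)
    (q : N →ₗ[R] N) where
  deg : Ω → X
  dg : ∀ (w : W × W) (o : Ω), deg (w • o) = deg o
  fo : ∀ (w : W) (o : Ω), ((1, w) : W × W) • o = o → w = 1
  fo' : ∀ (w : W) (o : Ω'), ((1, w) : W × W) • o = o → w = 1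
  g : Ω → N
  gw : ∀ (w : W × W) (o : Ω), g (w • o) = wrp G.om B w (g o)
  gy : ∀ o, B.lm G.y (g o) = χ (deg o) • B.rm (op G.y) (g o)
  c : Ω → (N →ₗ[R] R)
  cw : ∀ (w : W × W) (o : Ω) (n : N), c (w • o) (wrp G.om B w n) = c o n
  cy : ∀ (o : Ω) (n : N), c o (B.lm G.y n) = χ (deg o) * c o (B.rm (op G.y) n)
  h : Ω' → N
  hw : ∀ (w : W × W) (o : Ω'), h (w • o) = wrp G.om B w (h o)
  d : Ω' → (N →ₗ[R] R)
  dw : ∀ (w : W × W) (o : Ω') (n : N), d (w • o) (wrp G.om B w n) = d o n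
  fr : ∀ n, ∑ o, ∑ i ∈ Finset.range l,
      c o (B.lm (G.y ^ (l - 1 - i)) n) • B.lm (G.y ^ i) (g o) +
    ∑ o, ∑ i ∈ Finset.range l, ∑ k ∈ Finset.range l,
      d o (B.lm (G.y ^ (l - 1 - i)) (B.rm (op (G.y ^ (l - 1 - k))) n)) •
        B.lm (G.y ^ i) (B.rm (op (G.y ^ k)) (h o)) = q n

section

variable {Ω Ω' : Type} [Fintype Ω] [Fintype Ω'] [MulAction (W × W) Ω]
    [MulAction (W × W) Ω'] {l : ℕ} {G : GY R Γ W l} {χ : X →* R} {B : BiM R Γ N}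
    {q : N →ₗ[R] N}

/-- the element with the coordinates `a`, `a'` -/
def YFr.el (F : YFr Ω Ω' G χ B q) (a : Ω → ℕ → R) (a' : Ω' → ℕ → ℕ → R) : N :=
  ∑ o, ∑ i ∈ Finset.range l, a o i • B.lm (G.y ^ i) (F.g o) +
    ∑ o, ∑ i ∈ Finset.range l, ∑ k ∈ Finset.range l,
      a' o i k • B.lm (G.y ^ i) (B.rm (op (G.y ^ k)) (F.h o))

/-- the left coordinates over `R[y]` -/
def YFr.L (F : YFr Ω Ω' G χ B q) (n : N) : Ω ⊕ (Ω' × Fin l) → Γ :=
  Sum.elim (fun o => ∑ i ∈ Finset.range l, F.c o (B.lm (G.y ^ (l - 1 - i)) n) • G.y ^ i)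
    (fun p => ∑ i ∈ Finset.range l, F.d p.1 (B.lm (G.y ^ (l - 1 - i))
      (B.rm (op (G.y ^ (l - 1 - (p.2 : ℕ)))) n)) • G.y ^ i)

/-- the left generators over `R[y]` -/
def YFr.gl (F : YFr Ω Ω' G χ B q) : Ω ⊕ (Ω' × Fin l) → N :=
  Sum.elim F.g (fun p => B.rm (op (G.y ^ (p.2 : ℕ))) (F.h p.1))

/-- the right coordinates over `R[y]` -/
def YFr.Rr (F : YFr Ω Ω' G χ B q) (n : N) : Ω ⊕ (Ω' × Fin l) → Γ :=
  Sum.elim (fun o => ∑ i ∈ Finset.range l,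
      (χ (F.deg o) ^ i * F.c o (B.lm (G.y ^ (l - 1 - i)) n)) • G.y ^ i)
    (fun p => ∑ i ∈ Finset.range l, F.d p.1 (B.lm (G.y ^ (l - 1 - (p.2 : ℕ)))
      (B.rm (op (G.y ^ (l - 1 - i))) n)) • G.y ^ i)

/-- the right generators over `R[y]` -/
def YFr.gr (F : YFr Ω Ω' G χ B q) : Ω ⊕ (Ω' × Fin l) → N :=
  Sum.elim F.g (fun p => B.lm (G.y ^ (p.2 : ℕ)) (F.h p.1))

end

/-- the action of `W × W` on the index set of the generators over `R[y]` -/
def xa {Ω Ω' : Type} [MulAction (W × W) Ω] [MulAction (W × W) Ω'] (l : ℕ) (w : W × W) :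
    Ω ⊕ (Ω' × Fin l) → Ω ⊕ (Ω' × Fin l) :=
  Sum.map (fun o => w • o) (fun p => (w • p.1, p.2))

open Classical in
/-- `g_η y = ∑ P(η, ξ) g_ξ` for the left generators -/
def pP {Ω Ω' : Type} {l : ℕ} (G : GY R Γ W l) (χ : X →* R) (deg : Ω → X) :
    Ω ⊕ (Ω' × Fin l) → Ω ⊕ (Ω' × Fin l) → Γ
  | Sum.inl o, Sum.inl o' => if o = o' then χ (deg o)⁻¹ • G.y else 0
  | Sum.inr p, Sum.inr p' => if p.1 = p'.1 ∧ (p.2 : ℕ) + 1 = (p'.2 : ℕ) then 1 else 0
  | _, _ => 0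

open Classical in
/-- `y g_η = ∑ g_ξ Q(ξ, η)` for the right generators -/
def pQ {Ω Ω' : Type} {l : ℕ} (G : GY R Γ W l) (χ : X →* R) (deg : Ω → X) :
    Ω ⊕ (Ω' × Fin l) → Ω ⊕ (Ω' × Fin l) → Γ
  | Sum.inl o, Sum.inl o' => if o = o' then χ (deg o) • G.y else 0
  | Sum.inr p, Sum.inr p' => if p.1 = p'.1 ∧ (p'.2 : ℕ) + 1 = (p.2 : ℕ) then 1 else 0
  | _, _ => 0

/-- a frame which is a basis -/
structure YBs (Ω Ω' : Type) [Fintype Ω] [Fintype Ω'] [MulAction (W × W) Ω]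
    [MulAction (W × W) Ω'] {l : ℕ} (G : GY R Γ W l) (χ : X →* R) (B : BiM R Γ N) extends
    YFr Ω Ω' G χ B LinearMap.id where
  un1 : ∀ (a : Ω → ℕ → R) (a' : Ω' → ℕ → ℕ → R) (o : Ω) (i : ℕ), i < l →
    c o (B.lm (G.y ^ (l - 1 - i)) (toYFr.el a a')) = a o i
  un2 : ∀ (a : Ω → ℕ → R) (a' : Ω' → ℕ → ℕ → R) (o : Ω') (i k : ℕ), i < l → k < l →
    d o (B.lm (G.y ^ (l - 1 - i)) (B.rm (op (G.y ^ (l - 1 - k))) (toYFr.el a a'))) = a' o i k

end frames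

/-- the input over the field `F` -/
structure FLv {F Γ0 W X : Type} (A N K Ω Ω' : Type) [Field F] [CommRing Γ0] [Algebra F Γ0]
    [CommGroup W] [Fintype W] [Group X] [Ring A] [Algebra F A] [Fintype N] [Fintype K] [Fintype Ω]
    [Fintype Ω'] [MulAction (W × W) Ω] [MulAction (W × W) Ω'] {l : ℕ} (G : GY F Γ0 W l)
    (χ : X →* F) where
  j : Γ0 →ₐ[F] A
  pr : A →ₗ[F] Γ0
  pr_j : ∀ γ, pr (j γ) = γ
  pr_l : ∀ γ a, pr (j γ * a) = γ * pr a
  pr_r : ∀ a γ, pr (a * j γ) = pr a * γ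
  mu : A →ₗ[F] F
  mus : ∀ a b, mu (a * b) = mu (b * a)
  mun : ∀ a, (∀ b, mu (a * b) = 0) → a = 0
  orth : ∀ a, mu (j (pr a)) = mu a
  sep : Sep Γ0 A K j.toRingHom
  x : N → A
  y : N → A
  e1 : ∀ a, ∑ k, x k * j (pr (y k * a)) = a
  e2 : ∀ a, ∑ k, j (pr (a * x k)) * y k = a
  unt : ∀ w : Γ0, IsUnit w → IsUnit (∑ k, x k * j w * y k)
  fr : YFr Ω Ω' G χ (AB j) (LinearMap.id - j.toLinearMap ∘ₗ pr)
  loc : ∀ a, (∀ γ, j γ * a = a * j γ) → IsUnit a ∨ IsNilpotent a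
  uni : ∀ x : X, ∃ n n' : A, n * n' = 1 ∧ n' * n = 1 ∧ j G.y * n = χ x • (n * j G.y)

/-- a lift `A1` of the extension `j0 : Γ0 → A` -/
structure LY {R F Γ Γ0 W A X : Type} (A1 Ω Ω' : Type) [CommRing R] [Field F] {c : Cdv R F}
    [CommRing Γ] [Algebra R Γ] [CommRing Γ0] [Algebra F Γ0] [Ring A] [Algebra F A]
    [CommGroup W] [Fintype W] [Group X] [Ring A1] [Algebra R A1] [Fintype Ω]
    [Fintype Ω'] [MulAction (W × W) Ω] [MulAction (W × W) Ω'] {l : ℕ} (G : GY R Γ W l)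
    (χ : X →* R) (f : FibG Γ Γ0 c) (j0 : Γ0 →ₐ[F] A) (pr0 : A →ₗ[F] Γ0) where
  fb : FibG A1 A c
  j : Γ →ₐ[R] A1
  pr : A1 →ₗ[R] Γ
  pr_j : ∀ γ, pr (j γ) = γ
  pr_l : ∀ γ a, pr (j γ * a) = γ * pr a
  pr_r : ∀ a γ, pr (a * j γ) = pr a * γ
  cj : ∀ γ, fb.q (j γ) = j0 (f.q γ)
  cp : ∀ a, pr0 (fb.q a) = f.q (pr a)
  fr : YFr Ω Ω' G χ (AB j) LinearMap.id

/-- a lift with the orthogonal projection, a relative Frobenius system and units -/
structure LZ {R F Γ Γ0 W A X : Type} (A1 N Ω Ω' : Type) [CommRing R] [Field F] {c : Cdv R F}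
    [CommRing Γ] [Algebra R Γ] [CommRing Γ0] [Algebra F Γ0] [Ring A] [Algebra F A]
    [CommGroup W] [Fintype W] [Group X] [Ring A1] [Algebra R A1] [Fintype N] [Fintype Ω]
    [Fintype Ω'] [MulAction (W × W) Ω] [MulAction (W × W) Ω'] {l : ℕ} (G : GY R Γ W l)
    (χ : X →* R) (f : FibG Γ Γ0 c) (j0 : Γ0 →ₐ[F] A) (pr0 : A →ₗ[F] Γ0) extends
    LY A1 Ω Ω' G χ f j0 pr0 where
  rf : RF R Γ A1 N j pr
  tA : A1 →ₗ[R] R
  ts : ∀ a b, tA (a * b) = tA (b * a)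
  u : Γ
  u' : Γ
  uu : u * u' = 1
  ort : ∀ a, tA a = G.co (l - 1) 1 (u * pr a)
  un1 : IsUnit (rf.rt 1)
  unu : IsUnit (rf.rt (j u'))

/-- the group `W` in the frame `D`, and the unit `rho = RT(1) / |W|` -/
structure YG {R A X J Ω Ω' : Type} (W : Type) [CommRing R] [Ring A] [Algebra R A] [Group X]
    [Fintype J] [Fintype Ω] [Fintype Ω'] [CommGroup W] [Fintype W] [MulAction (W × W) Ω]
    [MulAction (W × W) Ω'] {y : A} {l : ℕ} {χ : X →* R} (D : Yd R A X J Ω Ω' y l χ) where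
  om : W →* A
  omy : ∀ w, y * om w = om w * y
  dg : ∀ (w : W × W) (o : Ω), D.deg (w • o) = D.deg o
  fo : ∀ (w : W) (o : Ω), ((1, w) : W × W) • o = o → w = 1
  fo' : ∀ (w : W) (o : Ω'), ((1, w) : W × W) • o = o → w = 1
  gw : ∀ (w : W × W) (o : Ω), D.g (w • o) = om w.1 * D.g o * om w.2⁻¹
  gw' : ∀ (w : W × W) (o : Ω), D.g' (w • o) = om w.2 * D.g' o * om w.1⁻¹
  hw : ∀ (w : W × W) (o : Ω'), D.h (w • o) = om w.1 * D.h o * om w.2⁻¹
  hw' : ∀ (w : W × W) (o : Ω'), D.h' (w • o) = om w.2 * D.h' o * om w.1⁻¹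
  rho : A
  rc : ∀ a, rho * a = a * rho
  ru : IsUnit rho
  rr : D.RT 1 = (Fintype.card W : R) • rho

/-- the eigenvector `y` in the group algebra of the group `V1` of order `l` -/
structure Y1 (F V1 : Type) [Field F] [CommGroup V1] [Fintype V1] (l : ℕ) where
  y : MonoidAlgebra F V1
  χ : MulAut V1 →* F
  χl : ∀ σ, χ σ ^ (l - 1) = 1
  χi : ∀ σ, χ σ = 1 → σ = 1
  yl : y ^ l = 0
  ye : ∀ σ : MulAut V1, MonoidAlgebra.domCongr F F σ y = χ σ • y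
  co : ℕ → (MonoidAlgebra F V1 →ₗ[F] F)
  ex : ∀ a, ∑ k ∈ Finset.range l, co k a • y ^ k = a
  un : ∀ (a : ℕ → F) (k : ℕ), k < l → co k (∑ k ∈ Finset.range l, a k • y ^ k) = a k
  v1 : ∀ v : V1, ∃ t, MonoidAlgebra.of F V1 v - 1 = y * t
  y1 : ∃ (v : V1) (t : MonoidAlgebra F V1), y = (MonoidAlgebra.of F V1 v - 1) * t

/-- the algebra homomorphism `F V1 → A` -/
def il {F V V1 A : Type} [Field F] [CommGroup V] [CommGroup V1] [Ring A] [Algebra F A]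
    (α : V →* A) (i : V1 →* V) : MonoidAlgebra F V1 →ₐ[F] A :=
  MonoidAlgebra.lift F A V1 (α.comp i)

/-- The extension `F V → A` with a `V × V`-frame of the complement. -/
structure TV {F V E : Type} (A N K Om : Type) [Field F] [CommGroup V] [Fintype V] [Group E]
    [Fintype E] [Ring A] [Algebra F A] [Fintype N] [Fintype K] [Fintype Om]
    [MulAction (V × V) Om] (φ : E →* MulAut V) (NN : Subgroup V → Prop) where
  j : MonoidAlgebra F V →ₐ[F] A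
  pr : A →ₗ[F] MonoidAlgebra F V
  pr_j : ∀ γ, pr (j γ) = γ
  pr_l : ∀ γ a, pr (j γ * a) = γ * pr a
  pr_r : ∀ a γ, pr (a * j γ) = pr a * γ
  mu : A →ₗ[F] F
  mus : ∀ a b, mu (a * b) = mu (b * a)
  mun : ∀ a, (∀ b, mu (a * b) = 0) → a = 0
  orth : ∀ a, mu (j (pr a)) = mu a
  sep : Sep (MonoidAlgebra F V) A K j.toRingHom
  x : N → A
  y : N → A
  e1 : ∀ a, ∑ k, x k * j (pr (y k * a)) = a
  e2 : ∀ a, ∑ k, j (pr (a * x k)) * y k = a
  unt : ∀ w : MonoidAlgebra F V, IsUnit w → IsUnit (∑ k, x k * j w * y k)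
  b : Om → A
  d : Om → (A →ₗ[F] F)
  b_eq : ∀ (w : V × V) (ω : Om), b (w • ω) =
    j (MonoidAlgebra.of F V w.1) * b ω * j (MonoidAlgebra.of F V w.2⁻¹)
  d_eq : ∀ (w : V × V) (ω : Om) (a : A),
    d (w • ω) (j (MonoidAlgebra.of F V w.1) * a * j (MonoidAlgebra.of F V w.2⁻¹)) = d ω a
  sum : ∀ a : A, ∑ ω, d ω a • b ω = a - j (pr a)
  st : ∀ ω : Om, ∃ (e : E) (R : Subgroup V), (¬ NN R ∨ R = ⊤) ∧
    MulAction.stabilizer (V × V) ω = tw (φ e).toMonoidHom R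

end Pool.Agent.PFE
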