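import Pool.Agent.PFE.StmtsE2

/-!
# Squad PFE (theorem (R)), part E2, block 2: the local algebra over `R`, base change to `K` (helper3)

Conventions as in StmtsE2.lean.  `WS`: the local algebra `S` over `R` with the group `W`.
-/

open scoped BigOperators TensorProduct

noncomputable section

namespace Pool.Agent.PFE

open MulOpposite
open Pool.Agent.PFC.B1 (FS Split BiM Sep)
open Pool.Agent.PFD (RF)
open Pool.Agent.PFD.D2
open Pool.Agent.PFD.D2b (wrp FPl FrR WFS)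

/-- the graded algebra `S` with its symmetric form, a homogeneous Frobenius system which is permuted
by `W × W`, and the unit `rho` -/
structure WS {R S X : Type} (Ω W : Type) [CommRing R] [Ring S] [Algebra R S] [Group X] [Fintype X]
    [Fintype Ω] [CommGroup W] [Fintype W] [MulAction (W × W) Ω] (G : GS R S X) where
  f : FS R S Ω
  sy : ∀ a b, f.lam (a * b) = f.lam (b * a)
  t1 : ∀ x s, x ≠ 1 → f.lam (G.c x s) = 0
  deg : Ω → X
  dg : ∀ (w : W × W) (o : Ω), deg (w • o) = deg o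
  fo : ∀ (w : W) (o : Ω), ((1, w) : W × W) • o = o → w = 1
  gb : ∀ o, G.c (deg o) (f.b o) = f.b o
  gb' : ∀ o, G.c (deg o)⁻¹ (f.b' o) = f.b' o
  om : W →* S
  o1 : ∀ w, G.c 1 (om w) = om w
  bw : ∀ (w : W × W) (o : Ω), f.b (w • o) = om w.1 * f.b o * om w.2⁻¹
  bw' : ∀ (w : W × W) (o : Ω), f.b' (w • o) = om w.2 * f.b' o * om w.1⁻¹
  rho : S
  rc : ∀ s, rho * s = s * rho
  ru : IsUnit rho
  rr : ∑ o, f.b o * f.b' o = (Fintype.card W : R) • rho

/-! ## The local algebra over `R` -/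

/-- LSE: the local algebra exists.

Proof.  In `MonoidAlgebra A X` (an `R`-algebra) the elements `n` with `n.coeff x ∈ Nx y χ x` for all `x` form a
subalgebra `N` (`Nx_mul`, `Nx_one`), those with `n.coeff x ∈ Jx y l χ x` form a two-sided ideal `J` of `N` (TXA).
`S = N / J`, `p x a` = the class of `single x a`, `c x` = the map induced by `n ↦ single x (n.coeff x)`.
(Any other model is fine, e.g. a subtype of `X → A` with the convolution product and `RingCon`.) -/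
def LseStmt : Prop :=
  ∀ (R A X : Type) [CommRing R] [Ring A] [Algebra R A] [Group X] [Fintype X] (y : A) (l : ℕ)
    (χ : X →* R), 1 ≤ l → y ^ l = 0 → (∀ x, χ x ^ (l - 1) = 1) →
    ∃ (S : Type) (_ : Ring S) (_ : Algebra R S), Nonempty (LS R A X S y l χ)

/-- LSF: the special fibre of the local algebra.

Proof.  For `s ∈ S` choose `a_x ∈ Nx` with `L.p x a_x = L.c x s`, `fs.q s = ∑_x L0.p x (fb.q a_x)`
(`fb.q a_x ∈ Nx y0 χ0 x`).  Independent of the choice: `a ∈ Jx y l χ x` implies `fb.q a ∈ Jx y0 l χ0 x` (TXA (3)).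
Additive, multiplicative (`c x (s s') = ∑_z (c z s)(c (z⁻¹x) s')`), `1 ↦ 1`, `sc`.  Surjective: hypothesis.
`ker`: `fs.q s = 0` gives `L0.p x (fb.q a_x) = 0` (apply `L0.c x`), so `fb.q a_x = T(b0) + y0 n0` (`L0.ker`,
TXA (3)); lift `b0` to `b`, `n0` to `n ∈ Nx` (hypothesis): `a_x - T(b) - y n = π a'` (`fb.ker`), `a' ∈ Nx` (`π` is
regular on the free module `A1`), `L.p x a_x = π L.p x a'`. -/
def LsfStmt : Prop :=
  ∀ (R F A A1 X S S0 : Type) [CommRing R] [Field F] (c : Cdv R F) [Ring A] [Algebra F A]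
    [Ring A1] [Algebra R A1] [Module.Free R A1] [Group X] [Fintype X] [Ring S] [Algebra R S]
    [Ring S0] [Algebra F S0] (fb : FibG A1 A c) (y : A1) (y0 : A) (l : ℕ) (χ : X →* R)
    (χ0 : X →* F) (L : LS R A1 X S y l χ) (L0 : LS F A X S0 y0 l χ0), 1 ≤ l → y ^ l = 0 →
    fb.q y = y0 → (∀ x, c.κ (χ x) = χ0 x) → (∀ x, χ x ^ (l - 1) = 1) →
    (∀ x, ∀ a0 ∈ Nx y0 χ0 x, ∃ a ∈ Nx y χ x, fb.q a = a0) →
    ∃ fs : FibG S S0 c, (∀ x (a : Nx y χ x) (a0 : Nx y0 χ0 x), (a0 : A) = fb.q (a : A1) →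
      fs.q (L.p x a) = L0.p x a0) ∧ ∀ x s, fs.q (L.c x s) = L0.c x (fs.q s)

/-- SFR: an algebra with a Frobenius system over a principal ideal domain is finite and free.

Proof.  Spanned by the `b i` (`h1`).  Torsion free: `r • s = 0`, `r ≠ 0` gives `r * lam (b' i * s) = 0` for all
`i`, so `s = 0` by `h1`. -/
def SfrStmt : Prop :=
  ∀ (R S I : Type) [CommRing R] [IsDomain R] [IsPrincipalIdealRing R] [Ring S] [Algebra R S]
    [Fintype I] (_ : FS R S I), Module.Finite R S ∧ Module.Free R S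

/-- TSV: representatives of the orbits of a free action.

Proof.  `W` acts on `Ω` by `(1, w)`, freely.  `T` = the set of the representatives (`Quotient.out`) of the
orbits; `(t, w) ↦ (1, w) • t` is a bijection `T × W → Ω`. -/
def TsvStmt : Prop :=
  ∀ (Ω W : Type) [Fintype Ω] [CommGroup W] [Fintype W] [MulAction (W × W) Ω],
    (∀ (w : W) (o : Ω), ((1, w) : W × W) • o = o → w = 1) →
    ∃ T : Finset Ω, ∀ (M : Type) [AddCommMonoid M] (H : Ω → M),
      ∑ o, H o = ∑ t ∈ T, ∑ w : W, H (((1, w) : W × W) • t)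

/-- WSE: the structure `WS` of the local algebra.

Proof.  `f` from STF.  `om w = p_1 (Y.om w)` (a homomorphism by `L.mul`, `L.one`), `bw`, `bw'` from `Y.gw`, `Y.gw'`.
`rho = p_1 (Y.rho)`: central, since `S` is spanned by the `p_x a`; unit (the inverse of `rho` commutes with
`y`, it is in `N_1`).  `rr`: `RT 1 = ∑_o g_o g'_o + ∑_o ∑_i y^i h_o h'_o y^(l-1-i) = ∑_o g_o g'_o + T_1(∑_o h_o h'_o)`;
apply `p_1` (`g_o g'_o ∈ N_1`, the last term is in `J_1`). -/
def WseStmt : Prop :=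
  ∀ (R A X S J Ω Ω' W : Type) [CommRing R] [Ring A] [Algebra R A] [Group X] [Fintype X]
    [Ring S] [Algebra R S] [Fintype J] [Fintype Ω] [Fintype Ω'] [CommGroup W] [Fintype W]
    [MulAction (W × W) Ω] [MulAction (W × W) Ω'] (y : A) (l : ℕ) (χ : X →* R)
    (D : Yd R A X J Ω Ω' y l χ) (Y : YG W D) (L : LS R A X S y l χ),
    ∃ E : WS Ω W L.toGS, E.deg = D.deg ∧ (∀ o, E.f.b o = L.p (D.deg o) ⟨D.g o, D.gy o⟩) ∧
      (∀ o h, E.f.b' o = L.p (D.deg o)⁻¹ ⟨D.g' o, h⟩) ∧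
      (∀ w h, E.om w = L.p 1 ⟨Y.om w, h⟩) ∧ ∀ h, E.rho = L.p 1 ⟨Y.rho, h⟩

/-- HUL: homogeneous units lift.

Proof.  `fs.q s = g`, `G.c x s` reduces to `G0.c x g = g`, so it is a unit (`UnmStmt`; then the two-sided
inverse). -/
def HulStmt : Prop :=
  ∀ (R F S S0 X : Type) [CommRing R] [Field F] (c : Cdv R F) [Ring S] [Algebra R S]
    [Module.Finite R S] [Module.Free R S] [Ring S0] [Algebra F S0] [Group X] [Fintype X]
    (G : GS R S X) (G0 : GS F S0 X) (fs : FibG S S0 c),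
    (∀ x s, fs.q (G.c x s) = G0.c x (fs.q s)) →
    (∀ x, ∃ g g' : S0, G0.c x g = g ∧ g * g' = 1 ∧ g' * g = 1) →
    ∀ x, ∃ g g' : S, G.c x g = g ∧ g * g' = 1 ∧ g' * g = 1

/-- WFX: elements of `S` which commute with `W` modulo `π` lift.

Proof.  `W × W` acts on `S` by `(u, v) s = om u s om v⁻¹`; permutation frame `f.b o`, functionals
`lam (f.b' o * ·)` (`bw`, `bw'`, `sy`).  `FpfStmt` for the subgroup `{(w, w)}`. -/
def WfxStmt : Prop :=
  ∀ (R S X Ω W : Type) [CommRing R] [Ring S] [Algebra R S] [Group X] [Fintype X]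
    [Fintype Ω] [CommGroup W] [Fintype W] [MulAction (W × W) Ω] (G : GS R S X)
    (E : WS Ω W G) (p : R) (s : S), (∀ w, ∃ t, E.om w * s - s * E.om w = p • t) →
    ∃ s', (∀ w, E.om w * s' = s' * E.om w) ∧ ∃ t, s' - s = p • t

/-- ZSY: the centre of the local algebra lifts.

Proof.  Lift `z0` to `s1`, then (WFX) to `s2` which commutes with the `om w`.  `T` from TSV (`E.fo`).  For `s` which
commutes with the `om w` put `RW s = ∑_(t ∈ T) b_t s b'_t`.  `b_((1,w)t) s b'_((1,w)t) = b_t om w⁻¹ s om w b'_t = b_t s b'_t`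
(`bw`, `bw'`), so `∑_o b_o s b'_o = |W| RW s`; the left side is central (`a b_o = ∑_o' lam(b'_o' a b_o) b_o'`, `h1`, `h2`),
so `RW s` is central (`|W| ≠ 0` in `R`, `S` is free over the domain `R`).  `|W| RW 1 = |W| rho`, so `RW 1 = rho`, a
central unit.  `z = RW s2 * rho⁻¹`; `fs.q (RW s2) = ∑_T b̄_t z0 b̄'_t = z0 * fs.q (RW 1)`. -/
def ZsyStmt : Prop :=
  ∀ (R F S S0 X Ω W : Type) [CommRing R] [IsDomain R] [CharZero R] [Field F] (c : Cdv R F)
    [Ring S] [Algebra R S] [Module.Finite R S] [Module.Free R S] [Ring S0] [Algebra F S0]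
    [Group X] [Fintype X] [Fintype Ω] [CommGroup W] [Fintype W] [MulAction (W × W) Ω]
    (G : GS R S X) (_ : WS Ω W G) (fs : FibG S S0 c),
    ∀ z0 : S0, (∀ s, z0 * s = s * z0) → ∃ z : S, (∀ s, z * s = s * z) ∧ fs.q z = z0

/-- K1N: the relative trace of `1` in degree `1` is a unit or nilpotent modulo `π`.

Proof.  `K = ∑_(t ∈ T, deg t = 1) g_t g'_t`, `κ1 = p_1 K`.  `H o = g_o g'_o` for `deg o = 1`, else `0`:
`H ((1,w) o) = H o`, `H ((u,1) o) = om u (H o) om u⁻¹`, so `∑_o H o = |W| K` and `om u (|W| K) om u⁻¹ = |W| K`; `K` commutes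
with the `om u` (`A1` free, `|W| ≠ 0`) and with `y`.  So `K0 = fb.q K` commutes with `y0`, `fb.q (om w)`: it is a unit
(its inverse commutes with `y0`, so it is in `N_1`) or nilpotent, and so is `L0.p 1 K0 = fs.q κ1`. -/
def K1nStmt : Prop :=
  ∀ (R F A A1 X S S0 J Ω Ω' W : Type) [CommRing R] [IsDomain R] [CharZero R] [Field F]
    (c : Cdv R F) [Ring A] [Algebra F A] [Ring A1] [Algebra R A1] [Module.Free R A1] [Group X]
    [Fintype X] [DecidableEq X] [Ring S] [Algebra R S] [Ring S0] [Algebra F S0] [Fintype J]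
    [Fintype Ω] [Fintype Ω'] [CommGroup W] [Fintype W] [MulAction (W × W) Ω]
    [MulAction (W × W) Ω'] (fb : FibG A1 A c) (y : A1) (y0 : A) (l : ℕ) (χ : X →* R)
    (χ0 : X →* F) (D : Yd R A1 X J Ω Ω' y l χ) (Y : YG W D) (L : LS R A1 X S y l χ)
    (L0 : LS F A X S0 y0 l χ0) (fs : FibG S S0 c), fb.q y = y0 →
    (∀ x (a : Nx y χ x) (a0 : Nx y0 χ0 x), (a0 : A) = fb.q (a : A1) →
      fs.q (L.p x a) = L0.p x a0) →
    (∀ a : A, y0 * a = a * y0 → (∀ w, fb.q (Y.om w) * a = a * fb.q (Y.om w)) →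
      IsUnit a ∨ IsNilpotent a) →
    ∀ (E : WS Ω W L.toGS), E.deg = D.deg → (∀ o, E.f.b o = L.p (D.deg o) ⟨D.g o, D.gy o⟩) →
    (∀ o h, E.f.b' o = L.p (D.deg o)⁻¹ ⟨D.g' o, h⟩) →
    ∀ T : Finset Ω, (∀ (M : Type) [AddCommMonoid M] (H : Ω → M),
      ∑ o, H o = ∑ t ∈ T, ∑ w : W, H (((1, w) : W × W) • t)) →
    IsUnit (fs.q (∑ t ∈ T, if E.deg t = 1 then E.f.b t * E.f.b' t else 0)) ∨
      IsNilpotent (fs.q (∑ t ∈ T, if E.deg t = 1 then E.f.b t * E.f.b' t else 0))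

/-- K1U: the relative trace of `1` in degree `1` is a unit.

Proof.  `κ1 = ∑_(t ∈ T, deg t = 1) b_t b'_t`, `|W| κ1 = C_1`, `C_x = ∑_(deg o = x) b_o b'_o` (`bw`, `bw'`, `dg`).
HUL: `m_x ∈ S` homogeneous units of degree `x`; `m_x⁻¹` has degree `x⁻¹`.  `C_x = m_x C_1 m_x⁻¹`: for `deg o' = x`
`b_o' = m_x (m_x⁻¹ b_o') = ∑_(deg o = 1) lam(b'_o m_x⁻¹ b_o') m_x b_o` (`h1`, `t1`), and `∑_(deg o' = x) lam(b'_o m_x⁻¹ b_o') b'_o' =
b'_o m_x⁻¹` (`h2`, `t1`).  So `∑_x m_x κ1 m_x⁻¹ = rho` (cancel `|W|`; `rr`).  `κ1` has degree `1` and commutes with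
the elements of degree `1` (`C_1` does, as in ZSY with `t1`).  If `fs.q κ1` is a unit, UNM.  Otherwise it is
nilpotent; the `fs.q (m_x κ1 m_x⁻¹)` are nilpotent and commute with each other (they have degree `1` and commute
with the elements of degree `1`), so their sum `fs.q rho` is nilpotent, and a unit: `1 = 0` in `S0`, so
`fs.q κ1` is a unit. -/
def K1uStmt : Prop :=
  ∀ (R F S S0 X Ω W : Type) [CommRing R] [IsDomain R] [CharZero R] [Field F] (c : Cdv R F)
    [Ring S] [Algebra R S] [Module.Finite R S] [Module.Free R S] [Ring S0] [Algebra F S0]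
    [Group X] [Fintype X] [DecidableEq X] [Fintype Ω] [CommGroup W] [Fintype W]
    [MulAction (W × W) Ω] (G : GS R S X) (G0 : GS F S0 X) (E : WS Ω W G) (fs : FibG S S0 c),
    (∀ x s, fs.q (G.c x s) = G0.c x (fs.q s)) →
    (∀ x, ∃ g g' : S0, G0.c x g = g ∧ g * g' = 1 ∧ g' * g = 1) →
    ∀ T : Finset Ω, (∀ (M : Type) [AddCommMonoid M] (H : Ω → M),
      ∑ o, H o = ∑ t ∈ T, ∑ w : W, H (((1, w) : W × W) • t)) →
    (IsUnit (fs.q (∑ t ∈ T, if E.deg t = 1 then E.f.b t * E.f.b' t else 0)) ∨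
      IsNilpotent (fs.q (∑ t ∈ T, if E.deg t = 1 then E.f.b t * E.f.b' t else 0))) →
    IsUnit (∑ t ∈ T, if E.deg t = 1 then E.f.b t * E.f.b' t else 0)

/-- S1Y: the centre of the part of degree `1` lifts.

Proof.  Lift `z0` to `s1`, replace it by `G.c 1 s1`; it commutes with the `om w` modulo `π` (`z0` is central in the
part of degree `1`, `o1`, `fs.ker`); WFX, then apply `G.c 1` again (`o1`): `s2` of degree `1` commutes with the `om w`.  For
such `s` put `RW s = ∑_(t ∈ T, deg t = 1) b_t s b'_t`; `|W| RW s = ∑_(deg o = 1) b_o s b'_o` commutes with the elements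
of degree `1` (`a b_o = ∑_(deg o' = 1) lam(b'_o' a b_o) b_o'`, `t1`).  `RW 1 = κ1`; its inverse has degree `1`.
`z = RW s2 * κ1⁻¹`, `fs.q (RW s2) = z0 * fs.q κ1`. -/
def S1yStmt : Prop :=
  ∀ (R F S S0 X Ω W : Type) [CommRing R] [IsDomain R] [CharZero R] [Field F] (c : Cdv R F)
    [Ring S] [Algebra R S] [Module.Finite R S] [Module.Free R S] [Ring S0] [Algebra F S0]
    [Group X] [Fintype X] [DecidableEq X] [Fintype Ω] [CommGroup W] [Fintype W]
    [MulAction (W × W) Ω] (G : GS R S X) (G0 : GS F S0 X) (E : WS Ω W G) (fs : FibG S S0 c),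
    (∀ x s, fs.q (G.c x s) = G0.c x (fs.q s)) →
    ∀ T : Finset Ω, (∀ (M : Type) [AddCommMonoid M] (H : Ω → M),
      ∑ o, H o = ∑ t ∈ T, ∑ w : W, H (((1, w) : W × W) • t)) →
    IsUnit (∑ t ∈ T, if E.deg t = 1 then E.f.b t * E.f.b' t else 0) →
    ∀ z0 : G0.S1, (∀ s, z0 * s = s * z0) →
      ∃ z : G.S1, (∀ s, z * s = s * z) ∧ fs.q (z : S) = (z0 : S0)

/-- S1F: the special fibre of the part of degree `1`.

Proof.  Restrict `fs.q`; surjective: apply `G.c 1` to a lift; `ker`: `s = π t` gives `s = G.c 1 s = π G.c 1 t`.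
`G.S1` is the range of the projector `G.c 1`: a submodule of a finite free module over a principal
ideal domain. -/
def S1fStmt : Prop :=
  ∀ (R F S S0 X : Type) [CommRing R] [IsDomain R] [IsPrincipalIdealRing R] [Field F]
    (c : Cdv R F) [Ring S] [Algebra R S] [Module.Finite R S] [Module.Free R S] [Ring S0]
    [Algebra F S0] [Group X] [Fintype X] (G : GS R S X) (G0 : GS F S0 X) (fs : FibG S S0 c),
    (∀ x s, fs.q (G.c x s) = G0.c x (fs.q s)) →
    Module.Finite R G.S1 ∧ Module.Free R G.S1 ∧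
      ∃ f1 : FibG G.S1 G0.S1 c, ∀ s : G.S1, ((f1.q s : G0.S1) : S0) = fs.q (s : S)

/-! ## Base change to `K` -/

/-- BYD: base change of the frame.

Proof.  `BfsStmt` for `D.d`; all the identities are linear in `a`: check them on `k ⊗ a`. -/
def BydStmt : Prop :=
  ∀ (R K A X J Ω Ω' : Type) [CommRing R] [Field K] [Algebra R K] [Ring A] [Algebra R A]
    [Group X] [Fintype J] [Fintype Ω] [Fintype Ω'] (y : A) (l : ℕ) (χ : X →* R) (χK : X →* K)
    (D : Yd R A X J Ω Ω' y l χ), (∀ x, χK x = algebraMap R K (χ x)) →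
    ∃ D' : Yd K (K ⊗[R] A) X J Ω Ω' ((1 : K) ⊗ₜ[R] y) l χK,
      D'.RT 1 = (1 : K) ⊗ₜ[R] D.RT 1

/-- BLS: base change of the local algebra.

Proof.  `K` is flat over `R`.  `N'_x = Nx (1 ⊗ y) χK x` is the kernel of the base change of
`δ a = y a - χ(x) a y`, so it is the image of `K ⊗ N_x` (injective; `Module.Flat.ker_lTensor_eq` or similar), and `p'_x` is the
base change of `p_x` on `K ⊗ N_x ≃ N'_x`.  Its kernel is the image of `K ⊗ J_x` (flat again, `L.ker`), and this is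
`Jx (1 ⊗ y) l χK x`: `Tx` of `k ⊗ a` is `k ⊗ Tx a`, `(1 ⊗ y) (k ⊗ n) = k ⊗ y n`.  `c' x` = the base change of `c x`;
`pc`, `ps`, `mul`, `one`, `cs` .. on pure tensors. -/
def BlsStmt : Prop :=
  ∀ (R K A X S : Type) [CommRing R] [IsDomain R] [IsPrincipalIdealRing R] [Field K]
    [Algebra R K] [FaithfulSMul R K] [Ring A] [Algebra R A] [Group X] [Fintype X] [Ring S]
    [Algebra R S] (y : A) (l : ℕ) (χ : X →* R) (χK : X →* K) (L : LS R A X S y l χ),
    (∀ x, χK x = algebraMap R K (χ x)) →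
    ∃ L' : LS K (K ⊗[R] A) X (K ⊗[R] S) ((1 : K) ⊗ₜ[R] y) l χK,
      ∀ x k s, L'.c x (k ⊗ₜ[R] s) = k ⊗ₜ[R] L.c x s

/-- BS1: the centre of the part of degree `1`.

Proof.  `G.S1` is finite and free (S1F).  `K ⊗ G.S1 → G'.S1`, `k ⊗ s ↦ k ⊗ s`, is an isomorphism of algebras:
injective (flat), surjective (`m = G'.c 1 m = ∑ k_i ⊗ G.c 1 s_i`).  `CnkStmt` for `G.S1`. -/
def Bs1Stmt : Prop :=
  ∀ (R K S X : Type) [CommRing R] [IsDomain R] [IsPrincipalIdealRing R] [Field K]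
    [Algebra R K] [FaithfulSMul R K] [Ring S] [Algebra R S] [Module.Finite R S]
    [Module.Free R S] [Group X] [Fintype X] (G : GS R S X) (G' : GS K (K ⊗[R] S) X),
    (∀ x k s, G'.c x (k ⊗ₜ[R] s) = k ⊗ₜ[R] G.c x s) →
    Module.finrank K (Subalgebra.center K G'.S1) = Module.finrank R (Subalgebra.center R G.S1)

/-! ## The level of `K` -/

/-- HSY: the Hattori-Stallings rank over `K[y]`.

Proof.  `P a = ∑_(i<l) λ(y^(l-1-i) a) X^i ∈ K[X]` (polynomials, modulo `X^l`).  `P(a y^k) = X^k P(a)` modulo `X^l`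
(`λ` symmetric, `y^l = 0`), so `P(a pi(b)) = P(a) P(b)` modulo `X^l`, `pi(b) = ∑_k λ(y^(l-1-k) b) y^k`.
`M_(r,s) = P(e'_r e e_s)` is idempotent modulo `X^l`: `∑_s P(e'_r e e_s) P(e'_s e e_t) =
P(e'_r e ∑_s e_s pi(e'_s e e_t)) = P(e'_r e e e_t)` (RTK (1)).  With the derivation `v = X d/dX` of `K[X]`
(it preserves the ideal `X^l`): `v M = (v M) M + M (v M)`, so `M (v M) M = 0` and `tr (v M) = 2 tr (M (v M)) =
2 tr (M (v M) M) = 0` modulo `X^l`, so `v (tr M) = 0` modulo `X^l` and the coefficient of `X^(l-1)` in `tr M` is `0`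
(`l ≥ 2`, characteristic `0`).  It is `∑_r λ(e'_r e e_r) = λ(RT(1) e)`. -/
def HsyStmt : Prop :=
  ∀ (K A X J Ω Ω' : Type) [Field K] [CharZero K] [Ring A] [Algebra K A] [Group X]
    [Fintype J] [Fintype Ω] [Fintype Ω'] (y : A) (l : ℕ) (χ : X →* K)
    (D : Yd K A X J Ω Ω' y l χ) (e : A), e * e = e → D.d.lam (D.RT 1 * e) = 0

/-- ZPY: traces from `1` are nilpotent (the proof of PFD ZPN, `Helper48_PFD/ZPN.lean`).

Proof.  `TA a = ∑ b_p a b'_p` is central and `z TA a = TA (z a)` for central `z`.  Suppose `TA a` is not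
nilpotent.  IDM for the centre and `x = TA a`: `e = x z = TA (a z)`, put `b = a z`.
(1) If `ν` is central and nilpotent with `ν e = ν` then `ν = 0`: for all `s` `lam (ν s) = ∑_p lam (ν b_p b b'_p s) =
∑_p lam (b'_p (ν b b_p s))` is the trace of `a ↦ ν b a s` (TFS), a nilpotent map, so `0`.
(2) So `e z = k e` for all central `z` (with `k` in `K`).  (3) `c = ∑ b_p b'_p` is central; the trace of `a ↦ e a` is
`∑ lam (b'_p e b_p) = lam (e c) = k lam e`, and it is the dimension of `e A`, not `0`; so `lam e ≠ 0`.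
(4) `e y0 = k e`, `k ≠ 0` (`y0` a unit), and `lam (y0 e) = 0`, so `lam e = 0`. -/
def ZpyStmt : Prop :=
  ∀ (K A J : Type) [Field K] [CharZero K] [IsAlgClosed K] [Ring A] [Algebra K A]
    [Module.Finite K A] [Fintype J] (d : FS K A J) (y0 : A),
    (∀ a b, d.lam (a * b) = d.lam (b * a)) → (∀ a, y0 * a = a * y0) → IsUnit y0 →
    (∀ e, e * e = e → d.lam (y0 * e) = 0) → ∀ a, IsNilpotent (∑ p, d.b p * a * d.b' p)

/-- YKY: the data over `K`.

Proof.  `RT 1` is central (RTK (3)); `w` = its inverse, central; `RT w = RT (w * 1) = w * RT 1 = 1` (RTK (4)).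
`np`: ZPY with `y0 = RT 1`, HSY. -/
def YkyStmt : Prop :=
  ∀ (K A X J Ω Ω' : Type) [Field K] [CharZero K] [IsAlgClosed K] [Ring A] [Algebra K A]
    [Module.Finite K A] [Group X] [Fintype J] [Fintype Ω] [Fintype Ω'] (y : A) (l : ℕ)
    (χ : X →* K) (D : Yd K A X J Ω Ω' y l χ), IsUnit (D.RT 1) →
    ∃ E : Yk K A X J Ω Ω' y l χ, E.toYd = D

/-- TPR: the dimension formula over `F` (assembly).

Proof.  `R` = the Witt vectors, `c`, `o` (PFD WIT; `IsDomain`, `IsPrincipalIdealRing`, `CharZero` from `o`).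
GEX: `Γ`, `GR`, `f`.  `χR = o.τ.comp χ`, `κ (χR x) = χ x`, `χR x ^ (ℓ-1) = 1`, `1 - χR x` is a unit for `x ≠ 1` (`c.loc`).
LYE, LZE: `A1`, `lz`.  ZOY, CNR, CNK: `dim Z(A) = dim Z(K ⊗ A1)`, `K` = the algebraic closure of the fraction
field of `R`.  FSY, YDR, YGR: `D`, `Y`.  LSE: `S_R`, `L_R`; NXO, LSF (`y0 = fl.j G.y`): `fs`.  STF, SFR: `S_R` finite, free.
WSE: `E`; ZSY, CNR, CNK: `dim Z(S) = dim Z(K ⊗ S_R)`.  Homogeneous units of `S`: `L.p x n`, `n` from `fl.uni`.  TSV, K1N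
(with `fl.loc`: an element which commutes with `j G.y` and the `j (G.om w)` commutes with `j Γ0`), K1U, S1Y, S1F, CNR, BS1:
`dim Z(L.toGS.S1)`.  HUL: homogeneous units of `S_R`, so of `K ⊗ S_R`.  BYD, YKY (`RT 1 = |W| rho`), BLS, TPE. -/
def TprStmt : Prop :=
  ∀ (F Γ0 W A N K Ω Ω' X S : Type) [Field F] [IsAlgClosed F] [CommRing Γ0] [Algebra F Γ0]
    [FiniteDimensional F Γ0] [CommGroup W] [Fintype W] [Ring A] [Algebra F A]
    [FiniteDimensional F A] [Group X] [Fintype X] [Fintype N] [Fintype K] [Fintype Ω]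
    [Fintype Ω'] [MulAction (W × W) Ω] [MulAction (W × W) Ω'] [Ring S] [Algebra F S] (ℓ : ℕ)
    [Fact ℓ.Prime] [CharP F ℓ] (G : GY F Γ0 W ℓ) (χ : X →* F) (fl : FLv A N K Ω Ω' G χ)
    (L : LS F A X S (fl.j G.y) ℓ χ), (∀ x, χ x ^ (ℓ - 1) = 1) → (∀ x, χ x = 1 → x = 1) →
    Module.finrank F (Subalgebra.center F A) =
      Module.finrank F (Subalgebra.center F S) +
        (ℓ - 1) / Fintype.card X * Module.finrank F (Subalgebra.center F L.toGS.S1)

end Pool.Agent.PFE
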