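import Pool.Agent.PFE.StmtsE2b
import Pool.Agent.PFE.StmtsS

/-!
# Squad PFE (theorem (R)), part E2, block 3: the level of `F` (helper3)

`V = V1 × W` (`i : V1 → V` injective, `|V1| = ℓ`), `Y : Y1 F V1 ℓ` the eigenvector, `α : V → A`.  From the
twisted extension `TXN` (part (0)) to the input `FLv` of block 1, and the final formula `RAT`, `RIN`.
`tw σ R = {(σ u, u) : u ∈ R}`.
-/

open scoped BigOperators TensorProduct

noncomputable section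

namespace Pool.Agent.PFE

open MulOpposite
open Pool.Agent.PFC (tw)
open Pool.Agent.PFC.B1 (FS Split BiM Sep)
open Pool.Agent.PFD
open Pool.Agent.PFD.D2
open Pool.Agent.PFD.D2b (wrp FPl FrR WFS)

/-! ## The group algebra -/

/-- Y0E: the eigenvector.

Proof.  `v0` a generator, `x = of v0 - 1`, `x^ℓ = 0`; the `x^k`, `k < ℓ`, are a basis (they span: the span
contains `1` and is stable under `of v0`; `ℓ` elements, dimension `ℓ`).
`y = ∑_(1 ≤ j < ℓ) j⁻¹ • (of (v0^j) - 1) = x t`, `t = ∑ j⁻¹ • (1 + of v0 + ... + of v0^(j-1))`, augmentation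
`∑ j⁻¹ j = ℓ - 1 = -1 ≠ 0`, so `t` is a unit (AUG, or `t + 1 ∈ x F V1` is nilpotent).  So `y^ℓ = 0` and the `y^k = x^k t^k` are a
basis: `x^k F V1 = y^k F V1`; if `∑ a_k y^k = 0` with first index `k0`, multiply by `y^(ℓ-1-k0)`: `a_k0 y^(ℓ-1) = 0`,
`y^(ℓ-1) = x^(ℓ-1) t^(ℓ-1) ≠ 0`.  `co k` = the coordinates (for `k < ℓ`; `0` otherwise).
`σ v0 = v0^k`, `χ σ = k` in `F`: multiplicative, `χ σ = 1` implies `k = 1` modulo `ℓ`, `σ = 1`; `k^(ℓ-1) = 1` (Fermat).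
`σ y = ∑_j j⁻¹ (of v0^(k j) - 1) = k y` (reindex by `j ↦ k j` modulo `ℓ`).  `v1`: `of v - 1 ∈ x F V1 = y F V1`.
`y1`: `v = v0`, `t`. -/
def Y0eStmt : Prop :=
  ∀ (ℓ : ℕ) [Fact ℓ.Prime] (F V1 : Type) [Field F] [CharP F ℓ] [CommGroup V1] [Fintype V1],
    Nat.card V1 = ℓ → Nonempty (Y1 F V1 ℓ)

/-- AUG: units of `F V`.

Proof.  `x^(ℓ^n) = ∑ (x.coeff v)^(ℓ^n) • of (v^(ℓ^n)) = (∑ x.coeff v)^(ℓ^n) • 1` if `ℓ^n` kills `V` (the Frobenius map is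
additive in a commutative ring of characteristic `ℓ`; `sum_pow_char_pow`).  Conversely the augmentation is a
homomorphism. -/
def AugStmt : Prop :=
  ∀ (ℓ : ℕ) [Fact ℓ.Prime] (F V : Type) [Field F] [CharP F ℓ] [CommGroup V] [Fintype V],
    IsPGroup ℓ V → ∀ x : MonoidAlgebra F V, IsUnit x ↔ ∑ v, x.coeff v ≠ 0

/-- CAZ: the two Casimir elements of `F V1`.

Proof.  `t a = a.coeff 1`, `λ = co (l-1)`: `∑_v t(v⁻¹ a) v = a`, `∑_k λ(y^(l-1-k) a) y^k = a` (for `a = y^m`).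
`z = ∑_v λ(of v) of v⁻¹`: `t(z a) = λ(∑_v t(v⁻¹ a) v) = λ a`.  `z' = ∑_k t(y^k) y^(l-1-k)`: `λ(z' a) = t a`.  So
`λ(z' z a) = λ a` for all `a`, `z z' = 1`.  `∑_v β (of v) (of v⁻¹) = ∑_k β (y^k) (∑_v λ(y^(l-1-k) v) v⁻¹)` and
`∑_v λ(y^(l-1-k) v) v⁻¹ = ∑_v t(z y^(l-1-k) v) v⁻¹ = z y^(l-1-k)`. -/
def CazStmt : Prop :=
  ∀ (F V1 : Type) [Field F] [CommGroup V1] [Fintype V1] (l : ℕ) (Y : Y1 F V1 l), 1 ≤ l →
    ∃ z z' : MonoidAlgebra F V1, z * z' = 1 ∧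
      ∀ (M : Type) [AddCommGroup M] [Module F M]
        (β : MonoidAlgebra F V1 →ₗ[F] MonoidAlgebra F V1 →ₗ[F] M),
        ∑ v : V1, β (MonoidAlgebra.of F V1 v) (MonoidAlgebra.of F V1 v⁻¹) =
          ∑ k ∈ Finset.range l, β (Y.y ^ k) (z * Y.y ^ (l - 1 - k))

/-- GYE: `F V = F[y]/y^l ⊗ F W`.

Proof.  Every `u ∈ V` is `i v * w` in a unique way, so the `of (i v) * of w` are a basis, and with the basis
`y^k` of `F V1` the `y^k * of w` are a basis. -/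
def GyeStmt : Prop :=
  ∀ (F V V1 : Type) [Field F] [CommGroup V] [Fintype V] [CommGroup V1] [Fintype V1]
    (i : V1 →* V) (W : Subgroup V) [Fintype W] (l : ℕ) (Y : Y1 F V1 l), 1 ≤ l →
    Function.Injective i → i.range ⊓ W = ⊥ → i.range ⊔ W = ⊤ →
    ∃ G : GY F (MonoidAlgebra F V) W l, G.y = il (MonoidAlgebra.of F V) i Y.y ∧
      ∀ w : W, G.om w = MonoidAlgebra.of F V (w : V)

/-! ## Frames -/

/-- ORB: a section of the orbits of `P × P`, `P` a factor of `V`.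

Proof.  `T` = representatives of the `V × V`-orbits, `Θ = {b • t : t ∈ T, b ∈ W × W}`.  Second claim: `ω = g • t`,
`g = a b` with `a ∈ P × P`, `b ∈ W × W` (`⊔`), `a⁻¹ • ω ∈ Θ`.  Third: `ω = b • t`, `a • ω = b' • t'`: the same
orbit, `t = t'`, `(a (b b'⁻¹)) • t = t`, so `a • t = t` (hypothesis), `a • ω = ω` (commutative). -/
def OrbStmt : Prop :=
  ∀ (V Om : Type) [CommGroup V] [MulAction (V × V) Om] (P W : Subgroup V), P ⊔ W = ⊤ →
    (∀ (ω : Om) (a b : V × V), a.1 ∈ P → a.2 ∈ P → b.1 ∈ W → b.2 ∈ W → (a * b) • ω = ω →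
      a • ω = ω) →
    ∃ Θ : Set Om, (∀ ω ∈ Θ, ∀ b : V × V, b.1 ∈ W → b.2 ∈ W → b • ω ∈ Θ) ∧
      (∀ ω : Om, ∃ a : V × V, a.1 ∈ P ∧ a.2 ∈ P ∧ a • ω ∈ Θ) ∧
      ∀ ω ∈ Θ, ∀ a : V × V, a.1 ∈ P → a.2 ∈ P → a • ω ∈ Θ → a • ω = ω

/-- YFA: the twisted part of the frame.

Proof.  `P = i.range`.  ORB: if `(a b) • ω = ω`, `(a.1 b.1, a.2 b.2) ∈ tw (φ e) R`, then `a.1 = φ e a.2` (the
decomposition is unique, `P` and `W` are `E`-stable), `a.2 ∈ P ≤ R`, so `a • ω = ω`.  `Ω = {ω // ω ∈ Θ}` with the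
restricted action.  `deg ω = c⁻¹`, where `(i (θ c v), i v)` fixes `ω` for all `v` (choose `c` as a function of the stabiliser,
which is constant on orbits; it exists by the hypothesis on `e`).  `g o = b o`, `c o a = d o (j z * a)` with `z` of
CAZ in `F V` (apply `il (of) i`).  From `i(θ_c v) b_o = b_o i(v)`: `θ_c(γ) b_o = b_o γ` for `γ ∈ F V1`, `γ = Y.y`:
`χ(c) y b_o = b_o y` (`Y.ye`), this is `gy`; from `d_o (i(θ_c v) a i(v)⁻¹) = d_o a`: `χ(c) d_o(y a) = d_o(a y)`, this is `cy`.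
`fo`: `(1, w)` is in the graph of `φ e` only for `w = 1`.  `fr`: `V1 × Ω → Om`, `(v, o) ↦ (i v, 1) • o` is bijective
(surjective: `ω = a⁻¹ • o`, `(φ e a.2, a.2)` fixes `o`; injective: third part of ORB, graph), so
`∑_ω d ω a • b ω = ∑_o ∑_v d_o (v⁻¹ a) • v b_o = ∑_o ∑_k d_o (z y^(l-1-k) a) • y^k b_o` (CAZ for
`β γ1 γ2 = d_o (γ2 a) • γ1 b_o`).  `Ω' = Empty`. -/
def YfaStmt : Prop :=
  ∀ (F V E V1 C A Om : Type) [Field F] [CommGroup V] [Fintype V] [Group E] [CommGroup V1]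
    [Fintype V1] [CommGroup C] [Ring A] [Algebra F A] [Fintype Om] [MulAction (V × V) Om]
    (φ : E →* MulAut V) (i : V1 →* V) (W : Subgroup V) [Fintype W] (l : ℕ) (Y : Y1 F V1 l)
    (G : GY F (MonoidAlgebra F V) W l) (θ : C →* MulAut V1) (j : MonoidAlgebra F V →ₐ[F] A)
    (b : Om → A) (d : Om → (A →ₗ[F] F)), 1 ≤ l → Function.Injective i → i.range ⊓ W = ⊥ →
    i.range ⊔ W = ⊤ → (∀ e, ∀ w ∈ W, φ e w ∈ W) → (∀ e, ∃ c, ∀ v, φ e (i v) = i (θ c v)) →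
    G.y = il (MonoidAlgebra.of F V) i Y.y → (∀ w : W, G.om w = MonoidAlgebra.of F V (w : V)) →
    (∀ (w : V × V) (ω : Om), b (w • ω) =
      j (MonoidAlgebra.of F V w.1) * b ω * j (MonoidAlgebra.of F V w.2⁻¹)) →
    (∀ (w : V × V) (ω : Om) (a : A),
      d (w • ω) (j (MonoidAlgebra.of F V w.1) * a * j (MonoidAlgebra.of F V w.2⁻¹)) = d ω a) →
    (∀ ω : Om, ∃ (e : E) (R : Subgroup V), i.range ≤ R ∧
      MulAction.stabilizer (V × V) ω = tw (φ e).toMonoidHom R) →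
    ∃ (Ω Ω' : Type) (_ : Fintype Ω) (_ : Fintype Ω') (_ : MulAction (W × W) Ω)
      (_ : MulAction (W × W) Ω'),
      Nonempty (YFr Ω Ω' G (Y.χ.comp θ) (AB j) (∑ ω, (d ω).smulRight (b ω)))

/-- YFB: the free part of the frame.

Proof.  As YFA: ORB (`(a b) • ω = ω`: `a.2 b.2 ∈ R ≤ W`, so `a.2 = 1`, `a.1 b.1 = φ e b.2 ∈ W`, `a.1 = 1`),
`Ω' = {ω // ω ∈ Θ}`, `Ω = Empty`, `h o = b o`, `d' o a = d o (j z * a * j z)`.  `(V1 × V1) × Ω' → Om` is bijective (the stabiliser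
of `o` in `P × P` is trivial), so `∑_ω d ω a • b ω = ∑_o ∑_(v,v') d_o (v⁻¹ a v') • v b_o v'⁻¹`; CAZ for `v` and for `v'`
(with `v'` replaced by `v'⁻¹`) gives `∑_(i,k) d_o (z y^(l-1-i) a z y^(l-1-k)) • y^i b_o y^k`.  `fo'`: graph. -/
def YfbStmt : Prop :=
  ∀ (F V E V1 C A Om : Type) [Field F] [CommGroup V] [Fintype V] [Group E] [CommGroup V1]
    [Fintype V1] [CommGroup C] [Ring A] [Algebra F A] [Fintype Om] [MulAction (V × V) Om]
    (φ : E →* MulAut V) (i : V1 →* V) (W : Subgroup V) [Fintype W] (l : ℕ) (Y : Y1 F V1 l)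
    (G : GY F (MonoidAlgebra F V) W l) (θ : C →* MulAut V1) (j : MonoidAlgebra F V →ₐ[F] A)
    (b : Om → A) (d : Om → (A →ₗ[F] F)), 1 ≤ l → Function.Injective i → i.range ⊓ W = ⊥ →
    i.range ⊔ W = ⊤ → (∀ e, ∀ w ∈ W, φ e w ∈ W) →
    G.y = il (MonoidAlgebra.of F V) i Y.y → (∀ w : W, G.om w = MonoidAlgebra.of F V (w : V)) →
    (∀ (w : V × V) (ω : Om), b (w • ω) =
      j (MonoidAlgebra.of F V w.1) * b ω * j (MonoidAlgebra.of F V w.2⁻¹)) →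
    (∀ (w : V × V) (ω : Om) (a : A),
      d (w • ω) (j (MonoidAlgebra.of F V w.1) * a * j (MonoidAlgebra.of F V w.2⁻¹)) = d ω a) →
    (∀ ω : Om, ∃ (e : E) (R : Subgroup V), R ≤ W ∧
      MulAction.stabilizer (V × V) ω = tw (φ e).toMonoidHom R) →
    ∃ (Ω Ω' : Type) (_ : Fintype Ω) (_ : Fintype Ω') (_ : MulAction (W × W) Ω)
      (_ : MulAction (W × W) Ω'),
      Nonempty (YFr Ω Ω' G (Y.χ.comp θ) (AB j) (∑ ω, (d ω).smulRight (b ω)))

/-- YFT: the frame of the complement of `F V` in `A`.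

Proof.  `Om = OmA ⊔ OmB`: `OmA` = the `ω` with stabiliser `tw (φ e) R`, `i.range ≤ R`; for the others `R ≤ W` (if
`R ≤ i.range`, a group of prime order, and not `i.range ≤ R`, then `R = ⊥`).  Both are stable (`V × V` is
commutative, the stabiliser is constant on orbits).  YFA, YFB for the subtypes, FRS, `T.sum`. -/
def YftStmt : Prop :=
  ∀ (ℓ : ℕ) [Fact ℓ.Prime] (F V E V1 C A N K Om : Type) [Field F] [CommGroup V] [Fintype V]
    [Group E] [Fintype E] [CommGroup V1] [Fintype V1] [CommGroup C] [Ring A] [Algebra F A]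
    [Fintype N] [Fintype K] [Fintype Om] [MulAction (V × V) Om] (φ : E →* MulAut V)
    (NN : Subgroup V → Prop) (i : V1 →* V) (W : Subgroup V) [Fintype W] (Y : Y1 F V1 ℓ)
    (G : GY F (MonoidAlgebra F V) W ℓ) (θ : C →* MulAut V1) (T : TV A N K Om φ NN),
    Nat.card V1 = ℓ → Function.Injective i → i.range ⊓ W = ⊥ → i.range ⊔ W = ⊤ →
    (∀ e, ∀ w ∈ W, φ e w ∈ W) → (∀ e, ∃ c, ∀ v, φ e (i v) = i (θ c v)) →
    (∀ Q : Subgroup V, ¬ NN Q → Q ≤ i.range ∨ Q ≤ W) →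
    G.y = il (MonoidAlgebra.of F V) i Y.y → (∀ w : W, G.om w = MonoidAlgebra.of F V (w : V)) →
    ∃ (Ω Ω' : Type) (_ : Fintype Ω) (_ : Fintype Ω') (_ : MulAction (W × W) Ω)
      (_ : MulAction (W × W) Ω'), Nonempty (YFr Ω Ω' G (Y.χ.comp θ) (AB T.j)
        (LinearMap.id - T.j.toLinearMap ∘ₗ T.pr))

/-! ## From the twisted extension to `TV` -/

/-- OPA: the form of the twisted group algebra.

Proof.  `t0 a = (a.f 1).coeff 1` is a symmetric form with dual families `vv v * n e`, `ni e * vv v⁻¹` (see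
`Helper44_PFD/WGD.lean`).  `u1 = ∑ t(b_s) b'_s`: `t a = t0 (u1 a)`, central (`t` symmetric), a unit (if
`u1 a = 0` then `t (a b) = t0 (u1 a b) = 0`, so `a = 0`; finite dimension).  `u1 * vv v = vv v * u1` gives
`(of (φ e v) - of v) * u1.f e = 0`; for `e ≠ 1` choose `v` with `φ e v ≠ v`: `u1.f e` is not a unit, so its augmentation is
`0` (AUG).  The augmentation of `(u1 * u1').f 1 = ∑_h c(..) u1.f h * act h (u1'.f h⁻¹)` is `ε(u1.f 1) ε(u1'.f 1) = 1`. -/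
def OpaStmt : Prop :=
  ∀ (ℓ : ℕ) [Fact ℓ.Prime] (F V E : Type) [Field F] [CharP F ℓ] [CommGroup V] [Fintype V]
    [Group E] [Fintype E] (φ : E →* MulAut V) (z : Coc F E) (t : CP (D0 φ z) →ₗ[F] F),
    IsPGroup ℓ V → (∀ e, (∀ u, φ e u = u) → e = 1) → (∀ a b, t (a * b) = t (b * a)) →
    (∀ a, (∀ b, t (a * b) = 0) → a = 0) →
    ∃ u1 u1' : CP (D0 φ z), (∀ a, u1 * a = a * u1) ∧ u1 * u1' = 1 ∧
      (∀ a, t a = ((u1 * a).f 1).coeff 1) ∧ IsUnit (u1.f 1)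

/-- OPB: the orthogonal projection to `F V` and the relative Frobenius system.

Proof.  `t = T.mu ∘ T.j` (nondegenerate: `mu (j γ * a) = mu (j (γ * pr a))`).  OPA: `u1`, `u1'`, `u = u1.f 1`.
`pv γ = u⁻¹ (u1 γ).f 1`.  `mu (j (iS (pv γ))) = t0 (u1 iS(pv γ)) = (u * pv γ).coeff 1 = t0 (u1 γ) = mu (j γ)`.
`N = T.N × E`, `x (k,e) = x_k j(n_e iS(u))`, `y (k,e) = j(u1' ni_e) y_k`.
`e1`: with `γ = pr (y_k a)`: `∑_e n_e iS(u) iS(pv(u1' ni_e γ)) = ∑_e n_e iS((ni_e γ).f 1) = γ`.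
`e2`: with `γ = pr (a x_k)`: `∑_e iS(pv(γ n_e iS u)) u1' ni_e = ∑_e iS((u1 γ n_e).f 1) ni_e u1' = u1 γ u1' = γ`.
`unt`: `∑_(k,e) x_k n_e u w u1' ni_e y_k = ∑_k x_k j(u1' ∑_e iS(act e (u w))) y_k`; `u1' ∑_e ..` is central in `CP`, and
`∑_e act e (u w)` has augmentation `|E| ε(u w) ≠ 0`, so it is a unit (AUG); `T.unt`. -/
def OpbStmt : Prop :=
  ∀ (ℓ : ℕ) [Fact ℓ.Prime] (F V E A : Type) [Field F] [CharP F ℓ] [CommGroup V] [Fintype V]
    [Group E] [Fintype E] [Ring A] [Algebra F A] (φ : E →* MulAut V) (NN : Subgroup V → Prop)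
    (z : Coc F E) (T : TXN A φ NN z), IsPGroup ℓ V → ¬ ℓ ∣ Nat.card E →
    (∀ e, (∀ u, φ e u = u) → e = 1) →
    ∃ (pv : CP (D0 φ z) →ₗ[F] MonoidAlgebra F V) (N : Type) (_ : Fintype N) (x y : N → A),
      (∀ s, pv (CP.iS (D0 φ z) s) = s) ∧ (∀ s γ, pv (CP.iS (D0 φ z) s * γ) = s * pv γ) ∧
      (∀ γ s, pv (γ * CP.iS (D0 φ z) s) = pv γ * s) ∧
      (∀ γ, T.mu (T.j (CP.iS (D0 φ z) (pv γ))) = T.mu (T.j γ)) ∧
      (∀ a, ∑ k, x k * T.j (CP.iS (D0 φ z) (pv (T.pr (y k * a)))) = a) ∧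
      (∀ a, ∑ k, T.j (CP.iS (D0 φ z) (pv (T.pr (a * x k)))) * y k = a) ∧
      ∀ w : MonoidAlgebra F V, IsUnit w →
        IsUnit (∑ k, x k * T.j (CP.iS (D0 φ z) w) * y k)

/-- OPC: the `V × V`-frame of the complement of `F V`.

Proof.  `Om' = T.Om ⊕ ({e // e ≠ 1} × V)`, action on the second part `(u, v') • (e, v) = (e, u v φ e v'⁻¹)`,
`b (e, v) = j (γ - iS (pv γ))`, `γ = vv v * n e`; `d (e, v) a = ((T.pr a).f e).coeff v`.  `γ ↦ γ - iS (pv γ)` is a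
bimodule map over `F V` which kills `iS`, so `∑_(e≠1,v) d a • b = j (pr a) - j (iS (pv (pr a)))` (`CP.sum_iS_n`).  The
stabiliser of `(e, v)` is `tw (φ e) ⊤`. -/
def OpcStmt : Prop :=
  ∀ (F V E A : Type) [Field F] [CommGroup V] [Fintype V]
    [Group E] [Fintype E] [Ring A] [Algebra F A] (φ : E →* MulAut V) (NN : Subgroup V → Prop)
    (z : Coc F E) (T : TXN A φ NN z) (pv : CP (D0 φ z) →ₗ[F] MonoidAlgebra F V),
    (∀ s, pv (CP.iS (D0 φ z) s) = s) → (∀ s γ, pv (CP.iS (D0 φ z) s * γ) = s * pv γ) →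
    (∀ γ s, pv (γ * CP.iS (D0 φ z) s) = pv γ * s) →
    ∃ (Om : Type) (_ : Fintype Om) (_ : MulAction (V × V) Om) (b : Om → A)
      (d : Om → (A →ₗ[F] F)),
      (∀ (w : V × V) (ω : Om), b (w • ω) = T.j (vv φ z w.1) * b ω * T.j (vv φ z w.2⁻¹)) ∧
      (∀ (w : V × V) (ω : Om) (a : A),
        d (w • ω) (T.j (vv φ z w.1) * a * T.j (vv φ z w.2⁻¹)) = d ω a) ∧
      (∀ a : A, ∑ ω, d ω a • b ω = a - T.j (CP.iS (D0 φ z) (pv (T.pr a)))) ∧
      ∀ ω : Om, ∃ (e : E) (R : Subgroup V), (¬ NN R ∨ R = ⊤) ∧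
        MulAction.stabilizer (V × V) ω = tw (φ e).toMonoidHom R

/-- OPV: the structure `TV` (assembly).

Proof.  OPB, OPC; `j = T.j.comp (CP.iS ..)`, `pr = pv ∘ T.pr`, `sep = T.sepV`, `vv φ z u = CP.iS .. (of u)`. -/
def OpvStmt : Prop :=
  ∀ (ℓ : ℕ) [Fact ℓ.Prime] (F V E A : Type) [Field F] [CharP F ℓ] [CommGroup V] [Fintype V]
    [Group E] [Fintype E] [Ring A] [Algebra F A] (φ : E →* MulAut V) (NN : Subgroup V → Prop)
    (z : Coc F E) (T : TXN A φ NN z), IsPGroup ℓ V → ¬ ℓ ∣ Nat.card E →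
    (∀ e, (∀ u, φ e u = u) → e = 1) →
    ∃ (N K Om : Type) (_ : Fintype N) (_ : Fintype K) (_ : Fintype Om)
      (_ : MulAction (V × V) Om) (S : TV A N K Om φ NN), S.j = T.j.comp (CP.iS (D0 φ z))

/-- FLT: the input `FLv`.

Proof.  OPV, YFT: all fields but `loc`, `uni`.  `j (of u) = T.j (vv φ z u) = α u`.  `loc`: `a` commutes with `α V`, it is in
`Cz F α ⊤`, a local finite-dimensional algebra (`PMidN.loc`, `fin`): a unit or nilpotent.  `uni`: for `x` in `C` take `e` with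
`φ e (i v) = i (θ x v)`, `n = (T.j (CP.n e))⁻¹`: `α(φ e u) n⁻¹ = n⁻¹ α(u)`, so `α(i v) n = n α(i (θ_x v))`, and
`il α i γ * n = n * il α i (θ_x γ)` for `γ ∈ F V1`; `γ = Y.y` and `Y.ye`. -/
def FltStmt : Prop :=
  ∀ (ℓ : ℕ) [Fact ℓ.Prime] (F V E A V1 C : Type) [Field F] [CharP F ℓ] [CommGroup V]
    [Fintype V] [Group E] [Fintype E] [Ring A] [Algebra F A] [CommGroup V1] [Fintype V1]
    [CommGroup C] (φ : E →* MulAut V) (NN : Subgroup V → Prop) (α : V →* A) (z : Coc F E)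
    (T : TXN A φ NN z) (i : V1 →* V) (W : Subgroup V) [Fintype W] (θ : C →* MulAut V1)
    (Y : Y1 F V1 ℓ) (G : GY F (MonoidAlgebra F V) W ℓ), Ctn ℓ φ NN → PMidN F φ NN α →
    (∀ u, T.j (vv φ z u) = α u) → Nat.card V1 = ℓ → Function.Injective i → i.range ⊓ W = ⊥ →
    i.range ⊔ W = ⊤ → (∀ e, ∀ w ∈ W, φ e w ∈ W) → (∀ c, ∃ e : E, ∀ v, φ e (i v) = i (θ c v)) →
    (∀ e, ∃ c, ∀ v, φ e (i v) = i (θ c v)) →
    (∀ Q : Subgroup V, ¬ NN Q → Q ≤ i.range ∨ Q ≤ W) →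
    G.y = il (MonoidAlgebra.of F V) i Y.y → (∀ w : W, G.om w = MonoidAlgebra.of F V (w : V)) →
    ∃ (N K Ω Ω' : Type) (_ : Fintype N) (_ : Fintype K) (_ : Fintype Ω) (_ : Fintype Ω')
      (_ : MulAction (W × W) Ω) (_ : MulAction (W × W) Ω')
      (fl : FLv A N K Ω Ω' G (Y.χ.comp θ)), ∀ u, fl.j (MonoidAlgebra.of F V u) = α u

/-! ## The graded algebra -/

/-- SGY: a model of `S(A)` is the local algebra at `y`.

Proof.  `y = il α i Y.y`, `χ = Y.χ.comp θ`.  (1) `Nx y χ c` and `Nt F α i (θ c)` have the same elements: if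
`v a = a θ_c(v)` for all `v` then `γ a = a θ_c(γ)` for `γ ∈ F V1`, `γ = Y.y`: `y a = χ(c) a y` (`Y.ye`); conversely `of v` is
a polynomial in `Y.y` (`Y.ex`), `y^k a = χ(c)^k a y^k`, `θ_c(of v) = ∑ co k χ(c)^k y^k`.
(2) `Jx y l χ c` and `It F α i (θ c)`: `∑_v v a θ_c(v)⁻¹ = ∑_k y^k a θ_c(z y^(l-1-k)) = Tx y l (χ c) (a θ_c(z))` (CAZ, `θ_c(z)` a unit
commuting with `y`); `y n = (v - 1) t n` (`Y.y1`; `t n ∈ N_c`), `(v - 1) n = y (t n)` (`Y.v1`).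
(3) `c x` = the projection to `q x (N_x)`: `S` is the direct sum of these subspaces (`sur`, `ker`), `p x a = q x a`;
`mul`, `one` of `SG`. -/
def SgyStmt : Prop :=
  ∀ (F V V1 C A S : Type) [Field F] [CommGroup V] [CommGroup V1] [Fintype V1] [CommGroup C]
    [Fintype C] [Ring A] [Algebra F A] [Ring S] [Algebra F S] (α : V →* A) (i : V1 →* V)
    (θ : C →* MulAut V1) (q : C → (A →ₗ[F] S)) (l : ℕ) (Y : Y1 F V1 l), 1 ≤ l →
    SG F α i θ q →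
    ∃ L : LS F A C S (il α i Y.y) l (Y.χ.comp θ),
      ∀ c (a : Nx (il α i Y.y) (Y.χ.comp θ) c), L.p c a = q c (a : A)

/-- SG1: the part of degree `1`.

Proof.  `N_1 → L.toGS.S1`, `a ↦ L.p 1 a`, and `N_1 → S0`, `a ↦ q0 () a`, are surjective algebra homomorphisms (`N_1` =
the centraliser of `V1` = the centraliser of `y`) with the same kernel `J_1 = I_1` (SGY (1), (2) for `c = 1`), so the
two algebras are isomorphic. -/
def Sg1Stmt : Prop :=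
  ∀ (F V V1 C A S S0 : Type) [Field F] [CommGroup V] [CommGroup V1] [Fintype V1] [CommGroup C]
    [Fintype C] [Ring A] [Algebra F A] [Ring S] [Algebra F S] [Ring S0] [Algebra F S0]
    (α : V →* A) (i : V1 →* V) (θ : C →* MulAut V1) (q0 : Unit → (A →ₗ[F] S0)) (l : ℕ)
    (Y : Y1 F V1 l) (L : LS F A C S (il α i Y.y) l (Y.χ.comp θ)), 1 ≤ l →
    SG F α i (1 : Unit →* MulAut V1) q0 →
    Module.finrank F (Subalgebra.center F S0) = Module.finrank F (Subalgebra.center F L.toGS.S1)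

/-- RAT: the dimension formula for `PMidN` (assembly).

Proof.  `TxnStmt` (`H79.txn_top`): `z`, `T`.  Y0E, GYE (`Fintype W` classical), FLT: `fl`.  SGY: `L` at `il α i Y.y = fl.j G.y`
(`fl.j (of u) = α u`, both are algebra homomorphisms on `F V1`).  TPR with `χ = Y.χ.comp θ` (`Y.χl`, `Y.χi`, `θ` injective);
SG1. -/
def RatStmt : Prop :=
  ∀ (ℓ : ℕ) (F V E A V1 C S S0 : Type) [Field F] [IsAlgClosed F] [CharP F ℓ] [CommGroup V]
    [Fintype V] [Group E] [Fintype E] [Ring A] [Algebra F A] [CommGroup V1] [Fintype V1]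
    [CommGroup C] [Fintype C] [Ring S] [Algebra F S] [Ring S0] [Algebra F S0]
    (φ : E →* MulAut V) (NN : Subgroup V → Prop) (α : V →* A) (i : V1 →* V) (W : Subgroup V)
    (θ : C →* MulAut V1) (q : C → (A →ₗ[F] S)) (q0 : Unit → (A →ₗ[F] S0)), Ctn ℓ φ NN →
    PMidN F φ NN α → Nat.card V1 = ℓ → Function.Injective i → i.range ⊓ W = ⊥ →
    i.range ⊔ W = ⊤ → (∀ e, ∀ w ∈ W, φ e w ∈ W) → (∀ c, ∃ e : E, ∀ v, φ e (i v) = i (θ c v)) →
    (∀ e, ∃ c, ∀ v, φ e (i v) = i (θ c v)) → (∀ c, θ c = 1 → c = 1) →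
    (∀ Q : Subgroup V, ¬ NN Q → Q ≤ i.range ∨ Q ≤ W) → SG F α i θ q →
    SG F α i (1 : Unit →* MulAut V1) q0 →
    Module.finrank F (Subalgebra.center F A) = Module.finrank F (Subalgebra.center F S) +
      (ℓ - 1) / Fintype.card C * Module.finrank F (Subalgebra.center F S0)

/-- RIN: the dimension formula for `PInN` (assembly).

Proof.  `S.SznStmt`: `A'`, and models of `S(A')` for `C` and for `Unit` with the same dimensions; RAT for `A'`. -/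
def RinStmt : Prop :=
  ∀ (ℓ : ℕ) (F V E A V1 C S S0 : Type) [Field F] [IsAlgClosed F] [CharP F ℓ] [CommGroup V]
    [Fintype V] [Group E] [Fintype E] [Ring A] [Algebra F A] [CommGroup V1] [Fintype V1]
    [CommGroup C] [Fintype C] [IsCyclic C] [Ring S] [Algebra F S] [Ring S0] [Algebra F S0]
    (φ : E →* MulAut V) (NN : Subgroup V → Prop) (α : V →* A) (i : V1 →* V) (W : Subgroup V)
    (θ : C →* MulAut V1) (q : C → (A →ₗ[F] S)) (q0 : Unit → (A →ₗ[F] S0)), Ctn ℓ φ NN →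
    PInN F φ NN α → Nat.card V1 = ℓ → Function.Injective i → i.range ⊓ W = ⊥ →
    i.range ⊔ W = ⊤ → (∀ e, ∀ w ∈ W, φ e w ∈ W) → (∀ c, ∃ e : E, ∀ v, φ e (i v) = i (θ c v)) →
    (∀ e, ∃ c, ∀ v, φ e (i v) = i (θ c v)) → (∀ c, θ c = 1 → c = 1) →
    (∀ Q : Subgroup V, ¬ NN Q → Q ≤ i.range ∨ Q ≤ W) → SG F α i θ q →
    SG F α i (1 : Unit →* MulAut V1) q0 →
    Module.finrank F (Subalgebra.center F A) = Module.finrank F (Subalgebra.center F S) +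
      (ℓ - 1) / Fintype.card C * Module.finrank F (Subalgebra.center F S0)

end Pool.Agent.PFE
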